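import Pool.Agent.Y104.WL.Evn

/-!
# Auxiliary results on the optimal flag
-/

open Finset Module
open scoped Matrix

set_option linter.unusedSectionVars false

universe u v w

namespace Pool.Agent.Y104.WL

open Pool.Agent.Y104.Kempf

section

/-- The gaps of rational numbers are rational. -/
theorem gap_rat {k : ℕ} {ω γ : Fin k → ℝ} {t : ℝ}
    (hγ : ∀ m, ∑ i, (if i ≤ m then γ i else 0) = ω m)
    (hω : ∀ m, ∃ q : ℚ, t * ω m = q) : ∀ m, ∃ q : ℚ, t * γ m = q := by
  intro m
  induction m using WellFoundedLT.induction with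
  | ind m ih =>
    obtain ⟨q, hq⟩ := hω m
    choose! p hp using ih
    refine ⟨q - ∑ i ∈ univ.filter (fun i => i < m), p i, ?_⟩
    have h1 : ω m = γ m + ∑ i ∈ univ.filter (fun i => i < m), γ i := by
      rw [← hγ m, ← Finset.sum_filter]
      have h2 : (univ.filter fun i => i ≤ m) = insert m (univ.filter fun i => i < m) := by
        ext i
        simp only [mem_filter, mem_univ, true_and, mem_insert]
        exact le_iff_eq_or_lt
      rw [h2, Finset.sum_insert (by simp)]
    push_cast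
    rw [← hq, h1, mul_add, Finset.mul_sum]
    have h3 : ∑ i ∈ univ.filter (fun i => i < m), t * γ i =
        ∑ i ∈ univ.filter (fun i => i < m), (p i : ℝ) :=
      Finset.sum_congr rfl fun i hi => hp i (mem_filter.1 hi).2
    rw [h3]
    ring

/-- Clearing denominators. -/
theorem exists_clear {n : Type} [Fintype n] (q : n → ℚ) (hq : ∀ i, 0 < q i) :
    ∃ d : ℕ, 0 < d ∧ ∀ i, ∃ m : ℕ, 0 < m ∧ (m : ℚ) = d * q i := by
  classical
  let D : ℕ := ∏ i, (q i).den
  have hD : 0 < D := Finset.prod_pos fun i _ => (q i).den_pos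
  refine ⟨D, hD, fun i => ?_⟩
  have h5 : (q i).den ∣ D := Finset.dvd_prod_of_mem _ (mem_univ i)
  obtain ⟨e, he⟩ := h5
  have hnum : 0 < (q i).num := Rat.num_pos.2 (hq i)
  have he0 : 0 < e := Nat.pos_of_ne_zero fun h => by
    rw [h, mul_zero] at he
    omega
  refine ⟨e * (q i).num.toNat, Nat.mul_pos he0 (by omega), ?_⟩
  have h6 : (((q i).num.toNat : ℕ) : ℚ) = ((q i).num : ℚ) := by
    have : (((q i).num.toNat : ℕ) : ℤ) = (q i).num := Int.toNat_of_nonneg hnum.le
    exact_mod_cast this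
  rw [he]
  push_cast
  rw [h6]
  have h9 : ((q i).den : ℚ) * q i = ((q i).num : ℚ) := Rat.den_mul_eq_num (q i)
  rw [← h9]
  ring

end

section

variable {K : Type u} [Field K] {L : Type u} [Field L] [Algebra K L]

/-- Linear forms dual to a basis of a subspace. -/
theorem exists_dual_forms {n : Type} [Fintype n] [DecidableEq n] (F : Submodule K (n → K)) {r : ℕ}
    (f : Basis (Fin r) K F) : ∃ θ : Fin r → n → K, ∀ a a',
      ∑ p, θ a p * (f a' : n → K) p = if a = a' then 1 else 0 := by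
  have h1 : ∀ a, ∃ g : (n → K) →ₗ[K] K, g ∘ₗ F.subtype = f.coord a := fun a =>
    LinearMap.exists_extend (f.coord a)
  choose g hg using h1
  refine ⟨fun a p => g a (Pi.single p 1), fun a a' => ?_⟩
  have h2 : g a (f a' : n → K) = ∑ p, g a (Pi.single p 1) * (f a' : n → K) p := by
    conv_lhs => rw [← (Pi.basisFun K n).sum_repr (f a' : n → K)]
    rw [map_sum]
    refine Finset.sum_congr rfl fun p _ => ?_
    rw [map_smul, Pi.basisFun_apply, Pi.basisFun_repr, smul_eq_mul, mul_comm]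
  rw [← h2]
  have h3 : g a (f a' : n → K) = f.coord a (f a') := by rw [← hg a]; rfl
  rw [h3, Basis.coord_apply, f.repr_self, Finsupp.single_apply]
  by_cases h : a = a'
  · rw [if_pos h.symm, if_pos h]
  · rw [if_neg fun h' => h h'.symm, if_neg h]

/-- The vectors of a rational subspace. -/
theorem mem_span_rat [IsGalois K L] {n : Type} [Fintype n] {F : Submodule L (n → L)}
    (hF : ∀ σ : L ≃ₐ[K] L, ∀ x ∈ F, (fun p => σ (x p)) ∈ F) {r : ℕ}
    (f : Basis (Fin r) K (ratPart K F)) {x : n → L} (hx : x ∈ F) : ∃ a : Fin r → L,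
      ∀ q, x q = ∑ y, a y * algebraMap K L ((f y : n → K) q) := by
  obtain ⟨f', hf'⟩ := descent F hF f
  refine ⟨fun y => f'.repr ⟨x, hx⟩ y, fun q => ?_⟩
  have h1 := congrArg (fun z : F => (z : n → L) q) (f'.sum_repr ⟨x, hx⟩)
  beta_reduce at h1
  rw [Submodule.coe_sum, Finset.sum_apply] at h1
  refine h1.symm.trans ?_
  refine Finset.sum_congr rfl fun y _ => ?_
  rw [Submodule.coe_smul, Pi.smul_apply, hf', smul_eq_mul]
  rfl

/-- The number of the basis vectors in a step of the filtration. -/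
theorem card_ge [IsGalois K L] {n : Type} [Fintype n] {w : (n → L) → ℝ} (hw : IsNrm L w)
    {e : Basis n L (n → L)} (he : Adp w e) {ω : ℝ}
    (hF : ∀ σ : L ≃ₐ[K] L, ∀ x ∈ hw.ge ω, (fun p => σ (x p)) ∈ hw.ge ω) :
    finrank K (ratPart K (hw.ge ω)) = (univ.filter fun p => ω ≤ w (e p)).card := by
  classical
  obtain ⟨f, -⟩ := exists_basis_ge hw he ω
  rw [finrank_ratPart _ hF, finrank_eq_card_basis f, Fintype.card_subtype]

/-- The coordinates of a rational vector in a step of the filtration. -/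
theorem repr_ge {n : Type} [Fintype n] {w : (n → L) → ℝ} (hw : IsNrm L w)
    {e : Basis n L (n → L)} (he : Adp w e) {ω : ℝ} {v : n → K}
    (hv : v ∈ ratPart K (hw.ge ω)) : ∃ m : n → L, (∀ p, m p ≠ 0 → ω ≤ w (e p)) ∧
      ∀ q, algebraMap K L (v q) = ∑ p, m p * e p q := by
  refine ⟨fun p => e.repr (fun q => algebraMap K L (v q)) p, fun p hp => ?_, fun q => ?_⟩
  · have h1 : (fun q => algebraMap K L (v q)) ∈ hw.ge ω := hv
    rcases (hw.mem_ge _ _).1 h1 with h2 | h2
    · rw [h2, map_zero] at hp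
      exact absurd rfl hp
    · exact h2.trans (he _ p hp)
  · have h1 := congrFun (e.sum_repr (fun q => algebraMap K L (v q))) q
    rw [Finset.sum_apply] at h1
    exact h1.symm

end

section

variable {K : Type*} [Field K] {L : Type*} [Field L] [Algebra K L] {S T β : Type} [Fintype S]
  [DecidableEq S] [Fintype T] [DecidableEq T] [Fintype β]

/-- Renaming the slots. -/
theorem evn_equiv (φ : S ≃ T) (z : (S → β) → K) (u : T → β → L) :
    evn (fun I : T → β => z (fun s => I (φ s))) u = evn z (fun s => u (φ s)) := by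
  classical
  unfold evn
  refine Fintype.sum_equiv (Equiv.arrowCongr φ.symm (Equiv.refl β)) _ _ fun I => ?_
  have h1 : (Equiv.arrowCongr φ.symm (Equiv.refl β)) I = fun s => I (φ s) := by
    funext s
    simp [Equiv.arrowCongr]
  rw [h1]
  congr 1
  exact (Equiv.prod_comp φ (fun x => u x (I x))).symm

end

section

variable {ι : Type} [Fintype ι] [DecidableEq ι] {b : ι → Type} [∀ i, Fintype (b i)]
  [∀ i, DecidableEq (b i)] {L : Type*} [Field L]

/-- The sum over the flag. -/
theorem sum_flag {Q : ∀ j, Matrix (b j) (b j) L} (hQ : ∀ j, IsUnit (Q j))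
    {w : ∀ j, (b j → L) → ℝ} (hw : Adm2 Q w) {e : ∀ j, Basis (b j) L (b j → L)}
    (he : ∀ j, Adp (w j) (e j)) {k : ℕ} {ω γ : Fin k → ℝ} (hm : StrictMono ω)
    (hpos : ∀ i, 0 < ω i) (hγ : ∀ m, ∑ i, (if i ≤ m then γ i else 0) = ω m)
    (hval : ∀ j (y : b j → L), y ≠ 0 → 0 < w j y → ∃ i, ω i = w j y) {y : ∀ j, b j → ℝ}
    (hy0 : ∀ j, ∑ p, y j p = 0) (hyQ : ∀ j p q, Rl Q e j p q → y j p + y j q ≤ 0) (j : ι) :
    ∑ p, w j (e j p) * y j p =
      2 * ∑ i, γ i * ∑ p ∈ univ.filter (fun p => ω i ≤ w j (e j p)), y j p := by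
  obtain ⟨σ, hσ⟩ := exists_perm_gram _ (hQ j) (e j)
  have hσw : ∀ p, w j (e j (σ p)) = -w j (e j p) := by
    have h1 : ∀ p, w j (e j (σ p)) + w j (e j p) ≤ 0 := fun p => hw.2 j _ _ (hσ p)
    have h2 : ∑ p, (w j (e j (σ p)) + w j (e j p)) = 0 := by
      rw [Finset.sum_add_distrib, Equiv.sum_comp σ (fun p => w j (e j p)),
        (hw.1.any he).1 j, add_zero]
    have h3 := (Finset.sum_eq_zero_iff_of_nonpos fun p _ => h1 p).1 h2
    intro p
    have := h3 p (mem_univ p)
    linarith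
  have hσy : ∀ p, y j (σ p) = -y j p := by
    have h1 : ∀ p, y j (σ p) + y j p ≤ 0 := fun p => hyQ j _ _ (hσ p)
    have h2 : ∑ p, (y j (σ p) + y j p) = 0 := by
      rw [Finset.sum_add_distrib, Equiv.sum_comp σ (y j), hy0 j, add_zero]
    have h3 := (Finset.sum_eq_zero_iff_of_nonpos fun p _ => h1 p).1 h2
    intro p
    have := h3 p (mem_univ p)
    linarith
  rw [sum_gaps hm hpos hγ (fun p => w j (e j p)) (y j)
    (fun p hp => hval j _ ((e j).ne_zero p) hp) σ hσw hσy]
  congr 1
  refine Finset.sum_congr rfl fun i _ => ?_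
  rw [Finset.sum_filter]

end

end Pool.Agent.Y104.WL
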