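import Pool.Agent.Y104.WL.Cpy

/-!
# The vanishing theorem with determinant tensors
-/

open Finset Module
open scoped Matrix

set_option linter.unusedSectionVars false

universe u v w

namespace Pool.Agent.Y104.WL

open Pool.Agent.Y104.Kempf

section

variable {ι : Type} [Fintype ι] [DecidableEq ι] {b : ι → Type} [∀ i, Fintype (b i)]
  [∀ i, DecidableEq (b i)] {S : Type} [Fintype S] [DecidableEq S] {c : S → ι}
  {K : Type u} [Field K]

/-- The blocks. -/
abbrev Blk (ι : Type) {k : ℕ} (n : Fin k → ℕ) : Type := Σ i : Fin k, Fin (n i) × ι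

/-- **Determinant tensors of the optimal flag.** -/
theorem core5 (hOPT : S_OPT.{u}) (hBA : S_BAEV.{u}) (hDET : S_DET.{u}) (hSWP : S_SWP.{u})
    (hCHG : S_CHG.{u}) (hINV : S_INV.{u}) (hCMB : S_CMB) (hRAT : S_RAT.{u}) (hHM : S_HM.{u})
    [CharZero K] {Q : ∀ j, Matrix (b j) (b j) K} {ε : ι → K}
    (hε1 : ∀ j, ε j * ε j = 1) (hε : ∀ j, (Q j)ᵀ = ε j • Q j) (hQ : ∀ j, IsUnit (Q j))
    {N : Set ((S → Σ j, b j) → K)} (hc : ∀ z ∈ N, ∀ I, z I ≠ 0 → ∀ s, (I s).1 = c s)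
    (hN : ∀ (m : ℕ) (z : Fin (m + 1) → (S → Σ j, b j) → K), (∀ i, z i ∈ N) →
      NullT (Matrix.blockDiagonal' fun j => (Q j)⁻¹) (tp z))
    {G : Set (∀ j, Matrix (b j) (b j) K)} (hG : ∀ g ∈ G, ∀ j, IsUnit (g j))
    (hGQ : ∀ g ∈ G, ∀ j, ∃ a : K, a ≠ 0 ∧ (g j)ᵀ * Q j * g j = a • Q j)
    (hGN : ∀ g ∈ G, ∀ z ∈ N, gtact (fun _ => Matrix.blockDiagonal' fun j => (g j)ᵀ) z ∈ N)
    (E : ∀ j, Subalgebra K (Matrix (b j) (b j) K))
    (hadj : ∀ j, ∀ e ∈ E j, (Q j)⁻¹ * eᵀ * Q j ∈ E j)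
    (hEN : ∀ e : S → ∀ j, Matrix (b j) (b j) K, (∀ s j, e s j ∈ E j) → ∀ z ∈ N,
      gtact (fun s => Matrix.blockDiagonal' fun j => (e s j)ᵀ) z ∈ N)
    (hnd : ∀ j, ∀ x ∈ E j, (∀ y ∈ E j, (x * y).trace = 0) → x = 0)
    {z : (S → Σ j, b j) → K} (hz : z ∈ N) (hz0 : z ≠ 0) :
    ∃ (k : ℕ) (F : ∀ j, Fin k → Submodule K (b j → K)), (∀ j, Antitone (F j)) ∧
      (∀ j i, ∀ g ∈ G, ∀ x ∈ F j i, g j *ᵥ x ∈ F j i) ∧
      (∀ j i, ∀ e ∈ E j, ∀ x ∈ F j i, e *ᵥ x ∈ F j i) ∧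
      (∀ j i, ∀ x ∈ F j i, ∀ y ∈ F j i, x ⬝ᵥ (Q j *ᵥ y) = 0) ∧
      ∃ (f : ∀ j i, Basis (Fin (finrank K (F j i))) K (F j i)) (R : Type) (_ : Fintype R)
        (_ : DecidableEq R) (col : R → ι) (lev : R → Fin k)
        (_ : ∃ x, finrank K (F (col x) (lev x)) ≠ 0) (A : Type) (_ : Fintype A)
        (_ : DecidableEq A) (_ : Nonempty A) (zz : A → (S → Σ j, b j) → K)
        (_ : ∀ a, zz a ∈ N) (r : ℕ)
        (E' : Fin r × Fin 2 ≃ (A × S) ⊕ (Σ x : R, Fin (finrank K (F (col x) (lev x))))),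
        ∀ Ξ : ((Σ x : R, Fin (finrank K (F (col x) (lev x)))) → Σ j, b j) → K,
          (∀ I, Ξ I ≠ 0 → ∀ y, (I y).1 = col y.1) → AltOn Sigma.fst Ξ →
          ctr (Matrix.blockDiagonal' fun j => (Q j)⁻¹) zz E' Ξ = 0 →
          evn (L := K) Ξ (fun y => ext0 (col y.1)
            ((f (col y.1) (lev y.1) y.2 : b (col y.1) → K))) = 0 := by
  classical
  obtain ⟨w, t, ht, hw, hg, hopt, hgal, hinv, hE⟩ := exists_kempf hε1 hε hQ hc hN hG
    hGQ hGN E hadj hEN hnd hz hz0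
  let L := AlgebraicClosure K
  -- the positive values
  have hVfin : (⋃ j, w j '' {x | x ≠ 0}).Finite := Set.finite_iUnion fun j => (hw.1.1 j).fin
  let Ω : Finset ℝ := hVfin.toFinset.filter fun x => 0 < x
  let k := Ω.card
  let ω : Fin k → ℝ := Ω.orderEmbOfFin rfl
  have hm : StrictMono ω := (Ω.orderEmbOfFin rfl).strictMono
  have hpos : ∀ i, 0 < ω i := fun i => (mem_filter.1 (Ω.orderEmbOfFin_mem rfl i)).2
  have hatt : ∀ i, ∃ j, ∃ y : b j → L, y ≠ 0 ∧ w j y = ω i := fun i => by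
    have h1 := (mem_filter.1 (Ω.orderEmbOfFin_mem rfl i)).1
    rw [Set.Finite.mem_toFinset] at h1
    obtain ⟨j, y, hy, hy'⟩ := Set.mem_iUnion.1 h1
    exact ⟨j, y, hy, hy'⟩
  have hval : ∀ j (y : b j → L), y ≠ 0 → 0 < w j y → ∃ i, ω i = w j y := by
    intro j y hy hy0
    have h1 : w j y ∈ Ω := by
      rw [mem_filter, Set.Finite.mem_toFinset]
      exact ⟨Set.mem_iUnion.2 ⟨j, y, hy, rfl⟩, hy0⟩
    have h2 : w j y ∈ Set.range (Ω.orderEmbOfFin rfl) := by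
      rw [Finset.range_orderEmbOfFin]
      exact h1
    exact h2
  obtain ⟨γ, hγ0, hγ⟩ := exists_gaps ω hm hpos
  let F : ∀ j, Fin k → Submodule K (b j → K) := fun j i => ratPart K ((hw.1.1 j).ge (ω i))
  have hFgal : ∀ j i (σ : L ≃ₐ[K] L), ∀ x ∈ (hw.1.1 j).ge (ω i),
      (fun p => σ (x p)) ∈ (hw.1.1 j).ge (ω i) := by
    intro j i σ x hx
    rw [IsNrm.mem_ge] at hx ⊢
    by_cases h0 : x = 0
    · left
      rw [h0]
      funext p
      simp
    · right
      rw [hgal σ j x h0]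
      exact hx.resolve_left h0
  have hgL : ∀ g ∈ G, ∀ j i, ∀ x ∈ (hw.1.1 j).ge (ω i),
      ((g j).map (algebraMap K L)).mulVecLin x ∈ (hw.1.1 j).ge (ω i) := by
    intro g hg' j i x hx
    rw [IsNrm.mem_ge] at hx ⊢
    by_cases h0 : x = 0
    · left
      rw [h0, map_zero]
    · right
      rw [Matrix.mulVecLin_apply, hinv g hg' j x h0]
      exact hx.resolve_left h0
  -- the optimal norm
  have hO : Opt (fun j => (Q j).map (algebraMap K L)) (rst c '' N) w t := ⟨ht, hw, hg, hopt⟩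
  obtain ⟨e, he⟩ : ∃ e : ∀ j, Basis (b j) L (b j → L), ∀ j, Adp (w j) (e j) := by
    obtain ⟨⟨_, e', he', _, _⟩, _⟩ := hw
    exact ⟨e', he'⟩
  obtain ⟨hsq, hrat⟩ := hRAT ι b S c K L _ _ w t hO e he
  have hωrat : ∀ i, ∃ q : ℚ, t * ω i = q := by
    intro i
    obtain ⟨j, y, hy, hy'⟩ := hatt i
    obtain ⟨p, hp, hp'⟩ := exists_coord (hw.1.1 j) (e := e j) hy
    have h1 : w j (e j p) = ω i := by rw [← hy']; exact le_antisymm hp' (he j _ _ hp)
    rw [← h1]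
    exact hrat j p
  obtain ⟨q, hq⟩ : ∃ q : Fin k → ℚ, ∀ i, t * γ i = q i := by
    choose q hq using gap_rat hγ hωrat
    exact ⟨q, hq⟩
  have hq0 : ∀ i, 0 < 2 * q i := fun i => by
    have h1 : (0 : ℝ) < q i := by rw [← hq]; exact mul_pos ht (hγ0 i)
    have h2 : 0 < q i := by exact_mod_cast h1
    linarith
  obtain ⟨d, hd, hdn⟩ := exists_clear (fun i => 2 * q i) hq0
  choose n hn0 hn using hdn
  have hnR : ∀ i, (n i : ℝ) = 2 * d * t * γ i := fun i => by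
    have h1 : ((n i : ℚ) : ℝ) = ((d * (2 * q i) : ℚ) : ℝ) := by rw [hn]
    push_cast at h1
    rw [h1, ← hq]
    ring
  let rk : Blk ι n → ℕ := fun x => finrank K (F x.2.2 x.1)
  have hFne : ∀ i, ∃ j, finrank K (F j i) ≠ 0 := by
    intro i
    obtain ⟨j, y, hy, hy'⟩ := hatt i
    refine ⟨j, fun h0 => ?_⟩
    have h2 : (hw.1.1 j).ge (ω i) ≠ ⊥ := by
      intro h3
      have h4 : y ∈ (hw.1.1 j).ge (ω i) := Or.inr hy'.ge
      rw [h3, Submodule.mem_bot] at h4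
      exact hy h4
    obtain ⟨y', hy', hyF⟩ := exists_rational _ (hFgal j i) h2
    have h3 : y' ∈ F j i := hyF
    rw [Submodule.finrank_eq_zero] at h0
    rw [h0, Submodule.mem_bot] at h3
    exact hy' h3
  have hk : Nonempty (Fin k) := by
    by_contra hke
    rw [not_nonempty_iff] at hke
    have hneg : ∀ j (y : b j → L), y ≠ 0 → w j y ≤ 0 := by
      intro j y hy
      by_contra h1
      push Not at h1
      obtain ⟨i, -⟩ := hval j y hy h1
      exact hke.elim i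
    obtain ⟨⟨_, e', he', htr, _⟩, _⟩ := hw
    have hzero : ∀ j p, w j (e' j p) = 0 := by
      intro j p
      exact (Finset.sum_eq_zero_iff_of_nonpos fun p _ => hneg j _ ((e' j).ne_zero p)).1 (htr j) p
        (mem_univ p)
    have hrz : rst c z ∈ rst c '' N := ⟨z, hz, rfl⟩
    have hrz0 : rst c z ≠ 0 := by
      intro h
      apply hz0
      funext I
      by_contra h1
      have h2 := hc z hz I h1
      have h3 := congrFun h (fun s => h2 s ▸ (I s).2)
      have h4 : ∀ (i : Σ j, b j) (j : ι) (h : i.1 = j), (⟨j, h ▸ i.2⟩ : Σ j, b j) = i := by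
        rintro ⟨i, p⟩ j rfl
        rfl
      have h5 : (fun s => (⟨c s, h2 s ▸ (I s).2⟩ : Σ j, b j)) = I := funext fun s => h4 _ _ _
      apply h1
      rw [← h5]
      exact h3
    obtain ⟨J, z', hz', hJ⟩ := exists_ev hrz hrz0 e'
    have h1 := hg z' hz' _ hJ
    rw [Finset.sum_eq_zero fun s _ => hzero _ _] at h1
    linarith
  -- bases of the steps
  let f : ∀ j i, Basis (Fin (finrank K (F j i))) K (F j i) := fun j i => Module.finBasis K (F j i)
  have hdual : ∀ j i, ∃ θ : Fin (finrank K (F j i)) → b j → K, ∀ a a',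
      ∑ p, θ a p * (f j i a' : b j → K) p = if a = a' then 1 else 0 := fun j i =>
    exists_dual_forms (F j i) (f j i)
  choose θ hθ using hdual
  have hcard : ∀ e : ∀ j, Basis (b j) L (b j → L), (∀ j, Adp (w j) (e j)) → ∀ j i,
      finrank K (F j i) = (univ.filter fun p => ω i ≤ w j (e j p)).card := fun e he j i =>
    card_ge (hw.1.1 j) (he j) (hFgal j i)
  -- the determinant tensor
  have hblk : ∀ (g : Blk ι n → ℝ), ∑ x, g x = ∑ i, ∑ _a : Fin (n i), ∑ j, g ⟨i, _a, j⟩ := fun g => by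
    rw [Fintype.sum_sigma]
    exact Finset.sum_congr rfl fun i _ => Fintype.sum_prod_type _
  have hsum : ∀ e : ∀ j, Basis (b j) L (b j → L), (∀ j, Adp (w j) (e j)) → ∀ y : ∀ j, b j → ℝ,
      (∀ j, ∑ p, y j p = 0) →
      (∀ j p q, Rl (fun j => (Q j).map (algebraMap K L)) e j p q → y j p + y j q ≤ 0) →
      ∑ x : Blk ι n, ∑ p ∈ univ.filter (fun p => ω x.1 ≤ w x.2.2 (e x.2.2 p)), y x.2.2 p =
        d * t * ∑ j, ∑ p, w j (e j p) * y j p := by
    intro e he y hy0 hyQ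
    rw [hblk]
    have h1 : ∀ j, ∑ p, w j (e j p) * y j p =
        2 * ∑ i, γ i * ∑ p ∈ univ.filter (fun p => ω i ≤ w j (e j p)), y j p := fun j =>
      sum_flag (fun j => (hQ j).map ((algebraMap K L).mapMatrix)) hw he hm hpos hγ hval hy0 hyQ j
    have h2 : ∀ j, d * t * ∑ p, w j (e j p) * y j p =
        ∑ i, n i * ∑ p ∈ univ.filter (fun p => ω i ≤ w j (e j p)), y j p := fun j => by
      rw [h1, Finset.mul_sum, Finset.mul_sum]
      refine Finset.sum_congr rfl fun i _ => ?_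
      rw [hnR]
      ring
    rw [Finset.mul_sum, Finset.sum_congr rfl fun j _ => h2 j, Finset.sum_comm]
    refine Finset.sum_congr rfl fun i _ => ?_
    change ∑ _a : Fin (n i), (∑ j, ∑ p ∈ univ.filter (fun p => ω i ≤ w j (e j p)), y j p) = _
    rw [Finset.sum_const, card_univ, Fintype.card_fin, nsmul_eq_mul, Finset.mul_sum]
  let f0 : (Σ x : Blk ι n, Fin (rk x)) → (Σ j, b j) → K := fun y =>
    ext0 y.1.2.2 (f y.1.2.2 y.1.1 y.2 : b y.1.2.2 → K)
  let θ0 : (Σ x : Blk ι n, Fin (rk x)) → (Σ j, b j) → K := fun y =>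
    ext0 y.1.2.2 (θ y.1.2.2 y.1.1 y.2)
  obtain ⟨Θ, hΘa, hΘs, hΘf⟩ := hDET K (Σ x : Blk ι n, Fin (rk x)) (Σ j, b j) (Blk ι n) Sigma.fst f0 θ0 (by
    rintro ⟨x, a⟩ ⟨x', a'⟩ hxx
    obtain rfl : x = x' := hxx
    have h1 : ∑ p, θ0 ⟨x, a⟩ p * f0 ⟨x, a'⟩ p =
        ∑ p, θ x.2.2 x.1 a p * (f x.2.2 x.1 a' : b x.2.2 → K) p := by
      rw [Fintype.sum_sigma, Finset.sum_eq_single x.2.2]
      · refine Finset.sum_congr rfl fun p _ => ?_
        change ext0 _ _ _ * ext0 _ _ _ = _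
        rw [ext0_same, ext0_same]
      · intro j _ hj
        refine Finset.sum_eq_zero fun p _ => ?_
        change ext0 _ _ _ * _ = _
        rw [ext0_ne _ hj, zero_mul]
      · intro h
        exact absurd (mem_univ _) h
    rw [h1, hθ]
    by_cases h : a = a'
    · have h4 : (⟨x, a⟩ : Σ x : Blk ι n, Fin (rk x)) = ⟨x, a'⟩ := by rw [h]
      rw [if_pos h, if_pos h4]
    · have h4 : (⟨x, a⟩ : Σ x : Blk ι n, Fin (rk x)) ≠ ⟨x, a'⟩ := fun h' =>
        h (eq_of_heq (Sigma.mk.inj h').2)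
      rw [if_neg h, if_neg h4])
  have hΘc : ∀ I, Θ I ≠ 0 → ∀ y, (I y).1 = y.1.2.2 := by
    intro I hI y
    obtain ⟨y', hy', hne⟩ := hΘs I hI y
    by_contra h
    apply hne
    exact ext0_ne _ fun h5 => h (h5.trans (by rw [hy']))
  -- the leading terms are semistable
  have hstab : ∃ (m : ℕ) (z' : Fin (m + 1) → ((Fin d × S) ⊕ (Σ x : Blk ι n, Fin (rk x)) →
      Σ j, b j) → K), (∀ i, z' i ∈ NT (A := Fin d) N Θ) ∧
      ¬NullT (Matrix.blockDiagonal' fun j => (Q j)⁻¹) (tp z') := by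
    by_contra hcon
    push Not at hcon
    obtain ⟨w', t', ht', hw', hg'⟩ := hHM ι b ((Fin d × S) ⊕ (Σ x : Blk ι n, Fin (rk x)))
      (colS c fun y : (Σ x : Blk ι n, Fin (rk x)) => y.1.2.2) K Q ε hε1 hε hQ (NT (A := Fin d) N Θ)
      (NT_color hc hΘc) hcon (by
        obtain ⟨I, hI⟩ := Function.ne_iff.1 hz0
        have hΘ0 : ∃ J, Θ J ≠ 0 := by
          by_contra h
          push Not at h
          have h2 : evn (L := K) Θ f0 = 0 := by
            unfold evn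
            refine Finset.sum_eq_zero fun J _ => ?_
            rw [h, map_zero, mul_zero]
          rw [h2] at hΘf
          exact zero_ne_one hΘf
        obtain ⟨J, hJ⟩ := hΘ0
        refine ⟨_, ⟨fun _ => z, fun _ => hz, rfl⟩, ?_⟩
        intro h
        have h2 := congrFun h (Sum.elim (fun x => I x.2) J)
        refine mul_ne_zero (Finset.prod_ne_zero_iff.2 fun _ _ => ?_) ?_ h2
        · exact hI
        · exact hJ)
    refine not_destab hOPT hBA hc hO (fun x : Blk ι n => x.2.2) (fun x => ω x.1) rk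
      (fun x a => (f x.2.2 x.1 a : b x.2.2 → K)) (fun e he x => hcard e he _ _) ?_ hd hsum hΘc hΘa
      ?_ ht' hw' hg'
    · intro e he x a
      exact repr_ge (hw.1.1 _) (he _) (f x.2.2 x.1 a).2
    · exact hΘf
  obtain ⟨m, z', hz', hnull⟩ := hstab
  choose zz hzz hzz' using hz'
  let M : Matrix (Σ j, b j) (Σ j, b j) K := Matrix.blockDiagonal' fun j => (Q j)⁻¹
  obtain ⟨r, E₀, hE₀⟩ := exists_contr (M := M) zz Θ (funext hzz') hnull
  obtain ⟨i₀⟩ := hk
  obtain ⟨j₀, hj₀⟩ := hFne i₀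
  refine ⟨k, F, ?_, ?_, ?_, ?_, f, Fin (m + 1) × Blk ι n, inferInstance, inferInstance, fun x => x.2.2.2,
    fun x => x.2.1, ⟨(0, ⟨i₀, ⟨0, hn0 i₀⟩, j₀⟩), hj₀⟩, Fin (m + 1) × Fin d, inferInstance,
    inferInstance, ⟨(0, ⟨0, hd⟩)⟩, fun a => zz a.1 a.2, fun a => hzz a.1 a.2, r,
    E₀.trans (blkE (m + 1) d S rk), ?_⟩
  · intro j i i' hii x hx
    have h1 : exl L (b j) x ∈ (hw.1.1 j).ge (ω i') := hx
    change exl L (b j) x ∈ (hw.1.1 j).ge (ω i)
    rw [IsNrm.mem_ge] at h1 ⊢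
    exact h1.imp id fun h => (hm.monotone hii).trans h
  · intro j i g hg' x hx
    have h1 := hgL g hg' j i _ hx
    rw [Matrix.mulVecLin_apply] at h1
    change exl L (b j) (g j *ᵥ x) ∈ (hw.1.1 j).ge (ω i)
    rw [exl_mulVec]
    exact h1
  · intro j i e he x hx
    change exl L (b j) (e *ᵥ x) ∈ (hw.1.1 j).ge (ω i)
    rw [exl_mulVec]
    exact hE j e he _ _ hx
  · intro j i x hx y hy
    by_contra h1
    have h2 : exl L (b j) x ⬝ᵥ ((Q j).map (algebraMap K L) *ᵥ exl L (b j) y) ≠ 0 := by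
      have h3 : exl L (b j) x ⬝ᵥ ((Q j).map (algebraMap K L) *ᵥ exl L (b j) y) =
          algebraMap K L (x ⬝ᵥ (Q j *ᵥ y)) := by
        rw [← exl_mulVec]
        simp [dotProduct, exl_apply]
      rw [h3]
      exact (map_ne_zero _).2 h1
    have h4 := hw.2 j _ _ h2
    have h5 : exl L (b j) x ≠ 0 := by
      intro h6
      rw [h6, zero_dotProduct] at h2
      exact h2 rfl
    have h6 : exl L (b j) y ≠ 0 := by
      intro h6
      rw [h6, Matrix.mulVec_zero, dotProduct_zero] at h2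
      exact h2 rfl
    have h7 := (((hw.1.1 j).mem_ge _ _).1 hx).resolve_left h5
    have h8 := (((hw.1.1 j).mem_ge _ _).1 hy).resolve_left h6
    have h9 := hpos i
    have h7' : ω i ≤ w j (exl L (b j) x) := h7
    have h8' : ω i ≤ w j (exl L (b j) y) := h8
    linarith
  · intro Ξ hΞc hΞa hΞ0
    let fall : (Σ x : Fin (m + 1) × Blk ι n, Fin (rk x.2)) → (Σ j, b j) → K := fun y =>
      ext0 y.1.2.2.2 (f y.1.2.2.2 y.1.2.1 y.2 : b y.1.2.2.2 → K)
    change evn (L := K) Ξ fall = 0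
    set c₀ : K := evn (L := K) Ξ fall with hc₀
    have hall1 : evn (L := K) (cpy (m + 1) Θ) fall = 1 := by
      rw [cpy_evn]
      exact Finset.prod_eq_one fun i _ => hΘf
    have hall2 := altOn_cpy (n := m + 1) hSWP hΘa
    have hall3 : ∀ I : (Σ x : Fin (m + 1) × Blk ι n, Fin (rk x.2)) → Σ j, b j, cpy (m + 1) Θ I ≠ 0 →
        ∀ y, (I y).1 = y.1.2.2.2 := by
      rintro I hI ⟨⟨i, x⟩, a⟩
      exact hΘc _ (Finset.prod_ne_zero_iff.1 hI i (mem_univ i)) ⟨x, a⟩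
    let Ξ' : ((Σ x : Fin (m + 1) × Blk ι n, Fin (rk x.2)) → Σ j, b j) → K := fun I => Ξ I - c₀ * cpy (m + 1) Θ I
    have hsw : ∑ x : Blk ι n, ∑ p ∈ univ.filter (fun p => ω x.1 ≤ w x.2.2 (e x.2.2 p)),
        w x.2.2 (e x.2.2 p) = d * t := by
      rw [hsum e he (fun j p => w j (e j p)) (hw.1.any he).1 (fun j p q h => hw.2 j _ _ h)]
      have h1 : ∑ j, ∑ p, w j (e j p) * w j (e j p) = 1 := by
        rw [← hsq]
        exact Finset.sum_congr rfl fun j _ => Finset.sum_congr rfl fun p _ => (sq _).symm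
      rw [h1, mul_one]
    have hkill := weights_kill (L := L) hCHG hINV hCMB hBA hQ hc hw hg he (R := Fin (m + 1) × Blk ι n)
      (fun x => x.2.2.2) (fun x => ω x.2.1) (fun x => rk x.2)
      (fun x a => (f x.2.2.2 x.2.1 a : b x.2.2.2 → K)) (fun x p hp => by
        exact mem_span_rat (hFgal x.2.2.2 x.2.1) (f x.2.2.2 x.2.1) (Or.inr hp))
      (fun x => hcard e he _ _) (fun a : Fin (m + 1) × Fin d => zz a.1 a.2)
      (fun a => hzz a.1 a.2) (by
        rw [Fintype.sum_prod_type]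
        have h1 : ∑ _i : Fin (m + 1), (∑ x : Blk ι n, ∑ p ∈ univ.filter
            (fun p => ω x.1 ≤ w x.2.2 (e x.2.2 p)), w x.2.2 (e x.2.2 p)) ≤
            Fintype.card (Fin (m + 1) × Fin d) * t := by
          rw [Finset.sum_const, hsw, card_univ, Fintype.card_fin, nsmul_eq_mul,
            Fintype.card_prod, Fintype.card_fin, Fintype.card_fin]
          push_cast
          exact le_of_eq (by ring)
        exact h1) (E₀.trans (blkE (m + 1) d S rk)) (Ξ := Ξ') ?_ ?_ ?_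
    · have e1 : ctr M (fun a : Fin (m + 1) × Fin d => zz a.1 a.2)
          (E₀.trans (blkE (m + 1) d S rk)) Ξ = 0 := (ctr_inst M _ _ Ξ).trans hΞ0
      have e2 : ctr M (fun a : Fin (m + 1) × Fin d => zz a.1 a.2)
          (E₀.trans (blkE (m + 1) d S rk)) Ξ' = 0 := (ctr_inst M _ _ Ξ').trans hkill
      have e3 : ctr M (fun a : Fin (m + 1) × Fin d => zz a.1 a.2)
          (E₀.trans (blkE (m + 1) d S rk)) (cpy (m + 1) Θ) ≠ 0 :=
        fun h0 => hE₀ ((ctr_inst M _ _ (cpy (m + 1) Θ)).trans h0)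
      have e4 := ctr_sub M (fun a : Fin (m + 1) × Fin d => zz a.1 a.2)
          (E₀.trans (blkE (m + 1) d S rk)) Ξ (cpy (m + 1) Θ) c₀
      rw [e1, zero_sub] at e4
      have e5 : c₀ * ctr M (fun a : Fin (m + 1) × Fin d => zz a.1 a.2)
          (E₀.trans (blkE (m + 1) d S rk)) (cpy (m + 1) Θ) = 0 := by
        rw [← neg_eq_zero, ← e4]
        exact e2
      exact (mul_eq_zero.1 e5).resolve_right e3
    · intro I hI y
      by_cases h1 : Ξ I = 0
      · refine hall3 I (fun h2 => hI ?_) y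
        simp only [Ξ']
        rw [h1, h2, mul_zero, sub_zero]
      · exact hΞc I h1 y
    · intro σ hσ I
      simp only [Ξ']
      rw [hΞa σ hσ I, hall2 σ hσ I]
      ring
    · have h1 := evn_sub (L := K) Ξ (cpy (m + 1) Θ) c₀ fall
      rw [hall1, Algebra.algebraMap_self, RingHom.id_apply, ← hc₀] at h1
      refine h1.trans ?_
      ring

end

end Pool.Agent.Y104.WL
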