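import Pool.Agent.Y104.WL.Evn

/-!
# The leading terms are semistable
-/

open Finset Module
open scoped Matrix

set_option linter.unusedSectionVars false

universe u v w

namespace Pool.Agent.Y104.WL

open Pool.Agent.Y104.Kempf

section

variable {ι : Type} [Fintype ι] [DecidableEq ι] {b : ι → Type} [∀ i, Fintype (b i)]
  [∀ i, DecidableEq (b i)] {S : Type} [Fintype S] [DecidableEq S]
  {K : Type u} [Field K] {L : Type u} [Field L] [Algebra K L]

/-- The colours of the slots. -/
def colS {A T : Type} (c : S → ι) (c' : T → ι) : (A × S) ⊕ T → ι :=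
  Sum.elim (fun x => c x.2) c'

/-- The products of elements of `N` and the tensor `Θ`. -/
def NT {A T β : Type} [Fintype A] (N : Set ((S → β) → K)) (Θ : (T → β) → K) :
    Set (((A × S) ⊕ T → β) → K) :=
  {y | ∃ zz : A → (S → β) → K, (∀ a, zz a ∈ N) ∧ y = fun I =>
    (∏ a, zz a (fun s => I (Sum.inl (a, s)))) * Θ (fun x => I (Sum.inr x))}

theorem NT_color {A T : Type} [Fintype A] {c : S → ι} {c' : T → ι}
    {N : Set ((S → Σ j, b j) → K)} (hc : ∀ z ∈ N, ∀ I, z I ≠ 0 → ∀ s, (I s).1 = c s)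
    {Θ : (T → Σ j, b j) → K} (hΘ : ∀ I, Θ I ≠ 0 → ∀ y, (I y).1 = c' y) :
    ∀ z ∈ NT (A := A) N Θ, ∀ I, z I ≠ 0 → ∀ s, (I s).1 = colS c c' s := by
  rintro _ ⟨zz, hzz, rfl⟩ I hI s
  rcases s with ⟨a, s⟩ | y
  · exact hc _ (hzz a) _ (Finset.prod_ne_zero_iff.1 (left_ne_zero_of_mul hI) a (mem_univ a)) s
  · exact hΘ _ (right_ne_zero_of_mul hI) y

variable {c : S → ι}

/-- **The leading terms are semistable.** -/
theorem not_destab (hOPT : S_OPT.{u}) (hBA : S_BAEV.{u}) [CharZero K]
    {Q : ∀ j, Matrix (b j) (b j) K}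
    {N : Set ((S → Σ j, b j) → K)} (hc : ∀ z ∈ N, ∀ I, z I ≠ 0 → ∀ s, (I s).1 = c s)
    {w : ∀ j, (b j → L) → ℝ} {t : ℝ}
    (hO : Opt (fun j => (Q j).map (algebraMap K L)) (rst c '' N) w t)
    {R : Type} [Fintype R] [DecidableEq R] (col : R → ι) (om : R → ℝ) (rk : R → ℕ)
    (f : ∀ x : R, Fin (rk x) → b (col x) → K)
    (hf2 : ∀ e : ∀ j, Basis (b j) L (b j → L), (∀ j, Adp (w j) (e j)) →
      ∀ x, rk x = (univ.filter fun p => om x ≤ w (col x) (e (col x) p)).card)
    (hf3 : ∀ e : ∀ j, Basis (b j) L (b j → L), (∀ j, Adp (w j) (e j)) →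
      ∀ x a, ∃ m : b (col x) → L, (∀ p, m p ≠ 0 → om x ≤ w (col x) (e (col x) p)) ∧
        ∀ q, algebraMap K L (f x a q) = ∑ p, m p * e (col x) p q)
    {d : ℕ} (hd : 0 < d)
    (hsum : ∀ e : ∀ j, Basis (b j) L (b j → L), (∀ j, Adp (w j) (e j)) → ∀ y : ∀ j, b j → ℝ,
      (∀ j, ∑ p, y j p = 0) →
      (∀ j p q, Rl (fun j => (Q j).map (algebraMap K L)) e j p q → y j p + y j q ≤ 0) →
      ∑ x, ∑ p ∈ univ.filter (fun p => om x ≤ w (col x) (e (col x) p)), y (col x) p =
        d * t * ∑ j, ∑ p, w j (e j p) * y j p)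
    {Θ : ((Σ x, Fin (rk x)) → Σ j, b j) → K} (hΘc : ∀ I, Θ I ≠ 0 → ∀ y, (I y).1 = col y.1)
    (hΘa : AltOn Sigma.fst Θ)
    (hΘf : evn (L := K) Θ (fun y => ext0 (col y.1) (f y.1 y.2)) = 1)
    {w' : ∀ j, (b j → L) → ℝ} {t' : ℝ} (ht' : 0 < t')
    (hw' : Adm2 (fun j => (Q j).map (algebraMap K L)) w')
    (hg' : Ge (rst (colS c fun y : (Σ x, Fin (rk x)) => col y.1) '' NT (A := Fin d) N Θ) t' w') :
    False := by
  classical
  have hd' : (0 : ℝ) < d := by exact_mod_cast hd
  have h1 : ∀ j, ∃ e : Basis (b j) L (b j → L), Adp (w j) e ∧ Adp (w' j) e := fun j =>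
    exists_common' (by rw [finrank_fintype_fun_eq_card]) (hO.adm.1.1 j) (hw'.1.1 j)
  choose e he he' using h1
  let y : ∀ j, b j → ℝ := fun j p => w' j (e j p)
  have hy0 : ∀ j, ∑ p, y j p = 0 := (hw'.1.any he').1
  have hyQ : ∀ j p q, Rl (fun j => (Q j).map (algebraMap K L)) e j p q → y j p + y j q ≤ 0 :=
    fun j p q h => hw'.2 j _ _ h
  set D : ℝ := ∑ j, ∑ p, w j (e j p) * y j p with hD
  have hpe : ∀ x, Nonempty (Fin (rk x) ≃ {p // om x ≤ w (col x) (e (col x) p)}) := by
    intro x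
    refine ⟨Fintype.equivOfCardEq ?_⟩
    rw [Fintype.card_fin, Fintype.card_subtype]
    exact hf2 e he x
  let pe : ∀ x, Fin (rk x) ≃ {p // om x ≤ w (col x) (e (col x) p)} := fun x => (hpe x).some
  have hpesum : ∀ x, ∑ a, y (col x) (pe x a) =
      ∑ p ∈ univ.filter (fun p => om x ≤ w (col x) (e (col x) p)), y (col x) p := by
    intro x
    rw [Equiv.sum_comp (pe x) (fun p => y (col x) p)]
    exact (Finset.sum_subtype _ (fun p => by simp) (y (col x))).symm
  -- the value of `Θ`
  have hΘe : evn Θ (fun x => ext0 (col x.1) (e (col x.1) (pe x.1 x.2))) ≠ 0 := by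
    intro h0
    obtain ⟨r, hr⟩ := hBA K L (Σ x, Fin (rk x)) (Σ j, b j) R Sigma.fst Θ hΘa
      (fun y q => algebraMap K L (ext0 (col y.1) (f y.1 y.2) q))
      (fun x => ext0 (col x.1) (e (col x.1) (pe x.1 x.2))) (by
        rintro ⟨x, a⟩
        obtain ⟨m, hm1, hm2⟩ := hf3 e he x a
        refine ⟨fun z => if hz : z.1 = x then m (pe x (hz ▸ z.2)) else 0, ?_, ?_⟩
        · intro z hz
          exact dif_neg hz
        · intro q
          rw [Fintype.sum_sigma, Finset.sum_eq_single x]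
          · simp only [dif_pos]
            by_cases hq : q.1 = col x
            · obtain ⟨j, q⟩ := q
              obtain rfl : j = col x := hq
              rw [ext0_same, hm2]
              simp only [ext0_same]
              rw [Equiv.sum_comp (pe x) (fun p => m p * e (col x) p q)]
              symm
              refine Fintype.sum_of_injective
                (fun p : {p // om x ≤ w (col x) (e (col x) p)} => (p : b (col x)))
                Subtype.val_injective _ _ ?_ fun p => rfl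
              intro p hp
              have h2 : m p = 0 := by
                by_contra h3
                exact hp ⟨⟨p, hm1 p h3⟩, rfl⟩
              rw [h2, zero_mul]
            · rw [ext0_ne _ hq, map_zero]
              refine (Finset.sum_eq_zero fun y _ => ?_).symm
              rw [ext0_ne _ hq, mul_zero]
          · intro x' _ hx'
            refine Finset.sum_eq_zero fun y _ => ?_
            beta_reduce
            rw [dif_neg hx', zero_mul]
          · intro h3
            exact absurd (mem_univ _) h3)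
    rw [h0, mul_zero, evn_map, hΘf, map_one] at hr
    exact one_ne_zero hr
  -- the support
  have key : ∀ z ∈ rst c '' N, ∀ J : ∀ s, b (c s), ev z (fun s => e (c s) (J s)) ≠ 0 →
      ∑ s, y (c s) (J s) ≤ -(t * D + t' / d) := by
    rintro _ ⟨z, hz, rfl⟩ J hJ
    let yel : ((Fin d × S) ⊕ (Σ x, Fin (rk x)) → Σ j, b j) → K := fun I =>
      (∏ a : Fin d, z (fun s => I (Sum.inl (a, s)))) * Θ (fun x => I (Sum.inr x))
    have hyel : yel ∈ NT (A := Fin d) N Θ := ⟨fun _ => z, fun _ => hz, rfl⟩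
    let u : ∀ s, b (colS (A := Fin d) c (fun y : (Σ x, Fin (rk x)) => col y.1) s) → L := fun s =>
      match s with
      | Sum.inl x => e (c x.2) (J x.2)
      | Sum.inr x => e (col x.1) (pe x.1 x.2)
    have h2 : ev (rst (colS c fun y : (Σ x, Fin (rk x)) => col y.1) yel) u ≠ 0 := by
      rw [ev_rst (NT_color hc hΘc _ hyel)]
      have h3 := evn_sum (L := L) (fun I : Fin d × S → Σ j, b j => ∏ a, z (fun s => I (a, s))) Θ
        (fun s => ext0 (colS c (fun y : (Σ x, Fin (rk x)) => col y.1) s) (u s))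
      refine (ne_of_eq_of_ne h3 ?_)
      refine mul_ne_zero ?_ hΘe
      have h4 := evn_prod (L := L) (A := Fin d) (fun _ => z)
        (fun x => ext0 (c x.2) (e (c x.2) (J x.2)))
      refine (ne_of_eq_of_ne h4 ?_)
      refine Finset.prod_ne_zero_iff.2 fun a _ => ?_
      have h5 := ev_rst (L := L) (hc z hz) (fun s => e (c s) (J s))
      rw [h5] at hJ
      exact hJ
    have h3 := hg' _ ⟨yel, hyel, rfl⟩ u h2
    rw [Fintype.sum_sum_type, Fintype.sum_prod_type, Fintype.sum_sigma] at h3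
    have h4 : ∑ _a : Fin d, ∑ s, w' (c s) (e (c s) (J s)) = d * ∑ s, y (c s) (J s) := by
      rw [Finset.sum_const, card_univ, Fintype.card_fin, nsmul_eq_mul]
    have h5 : ∑ x, ∑ a, w' (col x) (e (col x) (pe x a)) = d * t * D := by
      rw [hD, ← hsum e he y hy0 hyQ]
      exact Finset.sum_congr rfl fun x _ => hpesum x
    have h6 : (d : ℝ) * ∑ s, y (c s) (J s) + d * t * D ≤ -t' := by
      rw [← h4, ← h5]
      exact h3
    have h7 : (d : ℝ) * (∑ s, y (c s) (J s) + (t * D + t' / d)) ≤ 0 := by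
      have h8 : (d : ℝ) * (t' / d) = t' := by field_simp
      have h9 : (d : ℝ) * (∑ s, y (c s) (J s) + (t * D + t' / d)) =
        d * ∑ s, y (c s) (J s) + d * t * D + d * (t' / d) := by ring
      rw [h9, h8]
      linarith
    have h8 := nonpos_of_mul_nonpos_right h7 hd'
    linarith
  have h2 := hOPT ι b S c K L _ _ w t hO e he y hy0 (fun j p q h _ => hyQ j p q h)
    (t * D + t' / d) (fun z hz J hJ _ => key z hz J hJ)
  have h3 : 0 < t' / d := div_pos ht' hd'
  linarith

end

end Pool.Agent.Y104.WL
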