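import Pool.Agent.Y104.WL.Evn

/-!
# Contractions with alternating tensors which vanish at the flag
-/

open Finset Module
open scoped Matrix

set_option linter.unusedSectionVars false

universe u v w

namespace Pool.Agent.Y104.WL

open Pool.Agent.Y104.Kempf

section

variable {ι : Type} [Fintype ι] [DecidableEq ι] {b : ι → Type} [∀ i, Fintype (b i)]
  [∀ i, DecidableEq (b i)] {S : Type} [Fintype S] [DecidableEq S] {c : S → ι}
  {K : Type u} [Field K] {L : Type u} [Field L] [Algebra K L]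

/-- The sum over the pairs. -/
theorem sum_equiv_pairs {T : Type} [Fintype T] (r : ℕ) (E : Fin r × Fin 2 ≃ T) (g : T → ℝ) :
    ∑ x, g x = ∑ l, (g (E (l, 0)) + g (E (l, 1))) := by
  rw [← Equiv.sum_comp E, Fintype.sum_prod_type]
  exact Finset.sum_congr rfl fun l _ => Fin.sum_univ_two _

/-- **Contractions with alternating tensors which vanish at the flag are zero.** -/
theorem weights_kill (hCHG : S_CHG.{u}) (hINV : S_INV.{u}) (hCMB : S_CMB) (hBA : S_BAEV.{u})
    [CharZero K] {Q : ∀ j, Matrix (b j) (b j) K} (hQ : ∀ j, IsUnit (Q j))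
    {N : Set ((S → Σ j, b j) → K)} (hc : ∀ z ∈ N, ∀ I, z I ≠ 0 → ∀ s, (I s).1 = c s)
    {w : ∀ j, (b j → L) → ℝ} {t : ℝ} (hw : Adm2 (fun j => (Q j).map (algebraMap K L)) w)
    (hg : Ge (rst c '' N) t w) {e : ∀ j, Basis (b j) L (b j → L)} (he : ∀ j, Adp (w j) (e j))
    {R : Type} [Fintype R] [DecidableEq R] (col : R → ι) (om : R → ℝ) (rk : R → ℕ)
    (f : ∀ x : R, Fin (rk x) → b (col x) → K)
    (hf1 : ∀ x p, om x ≤ w (col x) (e (col x) p) → ∃ a : Fin (rk x) → L,
      ∀ q, e (col x) p q = ∑ y, a y * algebraMap K L (f x y q))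
    (hf2 : ∀ x, rk x = (univ.filter fun p => om x ≤ w (col x) (e (col x) p)).card)
    {A : Type} [Fintype A] [DecidableEq A] (zz : A → (S → Σ j, b j) → K)
    (hzz : ∀ a, zz a ∈ N)
    (htot : ∑ x, ∑ p ∈ univ.filter (fun p => om x ≤ w (col x) (e (col x) p)),
      w (col x) (e (col x) p) ≤ Fintype.card A * t)
    {r : ℕ} (E : Fin r × Fin 2 ≃ (A × S) ⊕ (Σ x, Fin (rk x)))
    {Ξ : ((Σ x, Fin (rk x)) → Σ j, b j) → K} (hΞc : ∀ I, Ξ I ≠ 0 → ∀ y, (I y).1 = col y.1)
    (hΞa : AltOn Sigma.fst Ξ)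
    (hΞf : evn (L := K) Ξ (fun y => ext0 (col y.1) (f y.1 y.2)) = 0) :
    ∑ I : (A × S) ⊕ (Σ x, Fin (rk x)) → Σ j, b j,
      (∏ a, zz a (fun s => I (Sum.inl (a, s)))) * Ξ (fun y => I (Sum.inr y)) *
        ∏ l, Matrix.blockDiagonal' (fun j => (Q j)⁻¹) (I (E (l, 0))) (I (E (l, 1))) = 0 := by
  classical
  apply (algebraMap K L).injective
  rw [map_zero, map_sum]
  let hm : ∀ j, Matrix (b j) (b j) L := fun j => Matrix.of fun p q => e j p q
  have hmr : ∀ j p, hm j p = e j p := fun j p => rfl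
  have hmu : ∀ j, IsUnit (hm j) := by
    intro j
    rw [← Matrix.linearIndependent_rows_iff_isUnit]
    exact (e j).linearIndependent
  have hmd : ∀ j, IsUnit (hm j).det := fun j => (Matrix.isUnit_iff_isUnit_det _).1 (hmu j)
  let h : Matrix (Σ j, b j) (Σ j, b j) L := Matrix.blockDiagonal' hm
  let g : Matrix (Σ j, b j) (Σ j, b j) L := Matrix.blockDiagonal' fun j => (hm j)⁻¹
  have hgh : g * h = 1 := by
    change Matrix.blockDiagonal' (fun j => (hm j)⁻¹) * Matrix.blockDiagonal' hm = 1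
    rw [← Matrix.blockDiagonal'_mul, ← Matrix.blockDiagonal'_one]
    congr 1
    funext j
    exact Matrix.nonsing_inv_mul _ (hmd j)
  let QL : ∀ j, Matrix (b j) (b j) L := fun j => (Q j).map (algebraMap K L)
  let BL : Matrix (Σ j, b j) (Σ j, b j) L :=
    Matrix.blockDiagonal' fun j => ((Q j)⁻¹).map (algebraMap K L)
  have hBL : ∀ x y, BL x y = algebraMap K L (Matrix.blockDiagonal' (fun j => (Q j)⁻¹) x y) := by
    rintro ⟨j, p⟩ ⟨j', q⟩
    by_cases hj : j = j'
    · subst hj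
      simp only [BL]
      rw [Matrix.blockDiagonal'_apply_eq, Matrix.blockDiagonal'_apply_eq, Matrix.map_apply]
    · simp only [BL]
      rw [Matrix.blockDiagonal'_apply_ne _ _ _ hj, Matrix.blockDiagonal'_apply_ne _ _ _ hj,
        map_zero]
  let Zt : ((A × S) ⊕ (Σ x, Fin (rk x)) → Σ j, b j) → K := fun I =>
    (∏ a, zz a (fun s => I (Sum.inl (a, s)))) * Ξ (fun y => I (Sum.inr y))
  have hQi : ∀ j, ((Q j)⁻¹).map (algebraMap K L) = (QL j)⁻¹ := by
    intro j
    symm
    apply Matrix.inv_eq_left_inv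
    change ((Q j)⁻¹).map (algebraMap K L) * (Q j).map (algebraMap K L) = 1
    rw [← Matrix.map_mul, Matrix.nonsing_inv_mul _ ((Matrix.isUnit_iff_isUnit_det _).1 (hQ j)),
      Matrix.map_one _ (map_zero _) (map_one _)]
  let Gr : ∀ j, Matrix (b j) (b j) L := fun j => hm j * QL j * (hm j)ᵀ
  have hGru : ∀ j, IsUnit (Gr j) := fun j =>
    (((hmu j).mul ((hQ j).map ((algebraMap K L).mapMatrix))).mul
      ((Matrix.isUnit_transpose _).2 (hmu j)))
  have hGr : ∀ j p q, Gr j p q = e j p ⬝ᵥ (QL j *ᵥ e j q) := by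
    intro j p q
    change (hm j * QL j * (hm j)ᵀ) p q = _
    rw [Matrix.mul_assoc, Matrix.mul_apply]
    rfl
  have hM : gᵀ * BL * g = Matrix.blockDiagonal' fun j => (Gr j)⁻¹ := by
    change (Matrix.blockDiagonal' fun j => (hm j)⁻¹)ᵀ *
      (Matrix.blockDiagonal' fun j => ((Q j)⁻¹).map (algebraMap K L)) *
        (Matrix.blockDiagonal' fun j => (hm j)⁻¹) = _
    rw [Matrix.blockDiagonal'_transpose, ← Matrix.blockDiagonal'_mul,
      ← Matrix.blockDiagonal'_mul]
    congr 1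
    funext j
    rw [hQi]
    change ((hm j)⁻¹)ᵀ * (QL j)⁻¹ * (hm j)⁻¹ = (hm j * QL j * (hm j)ᵀ)⁻¹
    rw [Matrix.mul_inv_rev, Matrix.mul_inv_rev, Matrix.transpose_nonsing_inv, Matrix.mul_assoc]
  have hterm : ∀ I : (A × S) ⊕ (Σ x, Fin (rk x)) → Σ j, b j, algebraMap K L
      ((∏ a, zz a (fun s => I (Sum.inl (a, s)))) * Ξ (fun y => I (Sum.inr y)) *
        ∏ l, Matrix.blockDiagonal' (fun j => (Q j)⁻¹) (I (E (l, 0))) (I (E (l, 1)))) =
      (fun I => algebraMap K L (Zt I)) I * ∏ l, BL (I (E (l, 0))) (I (E (l, 1))) := by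
    intro I
    rw [map_mul, map_prod]
    simp only [hBL]
    rfl
  rw [Finset.sum_congr rfl fun I _ => hterm I, hCHG L _ _ h g BL hgh (fun I =>
    algebraMap K L (Zt I)) r E]
  refine Finset.sum_eq_zero fun J _ => ?_
  by_contra hne
  have hT := left_ne_zero_of_mul hne
  have hP := right_ne_zero_of_mul hne
  rw [tact_eq_evn] at hT
  -- split the tensor
  have hsplit : evn Zt (fun s => h (J s)) =
      (∏ a, evn (zz a) (fun s => h (J (Sum.inl (a, s))))) *
        evn Ξ (fun y => h (J (Sum.inr y))) := by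
    have h1 := evn_sum (L := L) (fun I : A × S → Σ j, b j => ∏ a, zz a (fun s => I (a, s))) Ξ
      (fun s => h (J s))
    have h2 := evn_prod (L := L) zz (fun x => h (J (Sum.inl x)))
    rw [h2] at h1
    exact h1
  rw [hsplit] at hT
  have hTz : ∀ a, evn (zz a) (fun s => h (J (Sum.inl (a, s)))) ≠ 0 := fun a =>
    Finset.prod_ne_zero_iff.1 (left_ne_zero_of_mul hT) a (mem_univ a)
  have hTΞ := right_ne_zero_of_mul hT
  have hrow : ∀ (x q : Σ j, b j), h x q ≠ 0 → q.1 = x.1 := by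
    intro x q hx
    by_contra h1
    apply hx
    change Matrix.blockDiagonal' hm x q = 0
    rw [row_eq]
    exact ext0_ne _ h1
  -- the weights
  let wt : (Σ j, b j) → ℝ := fun x => w x.1 (e x.1 x.2)
  have hsum0 : ∀ j, ∑ p, w j (e j p) = 0 := (hw.1.any he).1
  -- the colours and the weights of the slots of the `z`
  have hz1 : ∀ a, ∑ s, wt (J (Sum.inl (a, s))) ≤ -t := by
    intro a
    have hcol := color_of_evn (L := L) (hc _ (hzz a)) (u := fun s => h (J (Sum.inl (a, s))))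
      (J := fun s => J (Sum.inl (a, s))) (fun s q hq => hrow _ _ hq) (hTz a)
    have h1 : ∀ s, ∃ p : b (c s), J (Sum.inl (a, s)) = ⟨c s, p⟩ := by
      intro s
      have h2 := hcol s
      generalize J (Sum.inl (a, s)) = q at h2 ⊢
      obtain ⟨j, p⟩ := q
      obtain rfl : j = c s := h2
      exact ⟨p, rfl⟩
    choose p hp using h1
    have h2 : ev (rst c (zz a)) (fun s => e (c s) (p s)) ≠ 0 := by
      rw [ev_rst (hc _ (hzz a))]
      have h3 : (fun s => ext0 (c s) (e (c s) (p s))) = fun s => h (J (Sum.inl (a, s))) := by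
        funext s
        rw [hp s]
        change _ = Matrix.blockDiagonal' hm ⟨c s, p s⟩
        rw [row_eq]
        rfl
      rw [h3]
      exact hTz a
    have h3 := hg _ ⟨zz a, hzz a, rfl⟩ _ h2
    have h4 : ∀ s, wt (J (Sum.inl (a, s))) = w (c s) (e (c s) (p s)) := fun s => by rw [hp s]
    simp only [h4]
    exact h3
  -- the slots of `Ξ`
  have hcolT := color_of_evn (L := L) (S := Σ x, Fin (rk x)) (c := fun y => col y.1) hΞc
    (u := fun y => h (J (Sum.inr y))) (J := fun y => J (Sum.inr y))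
    (fun s q hq => hrow _ _ hq) hTΞ
  have h1 : ∀ y : (Σ x, Fin (rk x)), ∃ p : b (col y.1), J (Sum.inr y) = ⟨col y.1, p⟩ := by
    intro y
    have h2 := hcolT y
    generalize J (Sum.inr y) = q at h2 ⊢
    obtain ⟨j, p⟩ := q
    obtain rfl : j = col y.1 := h2
    exact ⟨p, rfl⟩
  choose p hp using h1
  have hinj : ∀ x : R, Function.Injective (α := Fin (rk x)) (β := b (col x))
      fun a => p ⟨x, a⟩ := by
    intro x a a' haa
    by_contra hne'
    apply hTΞ
    refine evn_repeat hΞa (x := ⟨x, a⟩) (y := ⟨x, a'⟩) ?_ rfl ?_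
    · intro h2
      exact hne' (eq_of_heq (Sigma.mk.inj h2).2)
    · rw [hp, hp]
      have : p ⟨x, a⟩ = p ⟨x, a'⟩ := haa
      rw [this]
  have hblk : ∀ x : R, ∑ a : Fin (rk x), wt (J (Sum.inr ⟨x, a⟩)) ≤
      ∑ q ∈ univ.filter (fun q => om x ≤ w (col x) (e (col x) q)), w (col x) (e (col x) q) ∧
      (∑ a : Fin (rk x), wt (J (Sum.inr ⟨x, a⟩)) =
        ∑ q ∈ univ.filter (fun q => om x ≤ w (col x) (e (col x) q)), w (col x) (e (col x) q) →
        ∀ a : Fin (rk x), om x ≤ w (col x) (e (col x) (p ⟨x, a⟩ : b (col x)))) := by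
    intro x
    have h2 := hCMB (Fin (rk x)) (b (col x)) (fun q => w (col x) (e (col x) q)) (om x)
      (fun a : Fin (rk x) => (p ⟨x, a⟩ : b (col x))) (hinj x)
      (by rw [Fintype.card_fin]; exact hf2 x)
    have h3 : ∀ a : Fin (rk x), wt (J (Sum.inr ⟨x, a⟩)) = w (col x) (e (col x) (p ⟨x, a⟩)) :=
      fun a => by rw [hp ⟨x, a⟩]
    simp only [h3]
    exact h2
  -- the pairs
  have hpair : ∀ l, 0 ≤ wt (J (E (l, 0))) + wt (J (E (l, 1))) := by
    intro l
    have h2 := Finset.prod_ne_zero_iff.1 hP l (mem_univ l)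
    rw [hM] at h2
    generalize J (E (l, 0)) = q at h2 ⊢
    generalize J (E (l, 1)) = q' at h2 ⊢
    obtain ⟨j, q⟩ := q
    obtain ⟨j', q'⟩ := q'
    by_cases hj : j = j'
    · subst hj
      rw [Matrix.blockDiagonal'_apply_eq] at h2
      refine hINV L (b j) (Gr j) (fun q => w j (e j q)) (hGru j) (hsum0 j) ?_ q q' h2
      intro q q' h3
      rw [hGr] at h3
      exact hw.2 j _ _ h3
    · exact absurd (Matrix.blockDiagonal'_apply_ne _ _ _ hj) h2
  have hall : 0 ≤ ∑ x : (A × S) ⊕ (Σ x, Fin (rk x)), wt (J x) := by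
    rw [sum_equiv_pairs r E]
    exact Finset.sum_nonneg fun l _ => hpair l
  rw [Fintype.sum_sum_type, Fintype.sum_prod_type, Fintype.sum_sigma] at hall
  have hzs : ∑ a, ∑ s, wt (J (Sum.inl (a, s))) ≤ -(Fintype.card A * t) := by
    refine (Finset.sum_le_sum fun a _ => hz1 a).trans (le_of_eq ?_)
    rw [Finset.sum_const, card_univ, nsmul_eq_mul]
    ring
  have hTs : ∑ x, ∑ a : Fin (rk x), wt (J (Sum.inr ⟨x, a⟩)) ≤
      ∑ x, ∑ q ∈ univ.filter (fun q => om x ≤ w (col x) (e (col x) q)),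
        w (col x) (e (col x) q) := Finset.sum_le_sum fun x _ => (hblk x).1
  have heq := (Finset.sum_eq_sum_iff_of_le fun x _ => (hblk x).1).1
    (le_antisymm hTs (by linarith))
  -- the values of `Ξ` at the basis vectors
  apply hTΞ
  obtain ⟨d, hd⟩ := hBA K L (Σ x, Fin (rk x)) (Σ j, b j) R Sigma.fst Ξ hΞa
    (fun y => h (J (Sum.inr y))) (fun y q => algebraMap K L (ext0 (col y.1) (f y.1 y.2) q)) (by
      rintro ⟨x, a⟩
      obtain ⟨m, hm'⟩ := hf1 x (p ⟨x, a⟩) ((hblk x).2 (heq x (mem_univ x)) a)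
      refine ⟨fun y => if hy : y.1 = x then m (hy ▸ y.2) else 0, ?_, ?_⟩
      · intro y hy
        exact dif_neg hy
      · intro q
        have h2 : h (J (Sum.inr ⟨x, a⟩)) q = ext0 (col x) (e (col x) (p ⟨x, a⟩)) q := by
          rw [hp]
          change Matrix.blockDiagonal' hm ⟨col x, p ⟨x, a⟩⟩ q = _
          rw [row_eq]
          rfl
        rw [h2, Fintype.sum_sigma, Finset.sum_eq_single x]
        · simp only [dif_pos]
          by_cases hq : q.1 = col x
          · obtain ⟨j, q⟩ := q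
            obtain rfl : j = col x := hq
            rw [ext0_same, hm']
            refine Finset.sum_congr rfl fun y _ => ?_
            rw [ext0_same]
          · rw [ext0_ne _ hq]
            refine (Finset.sum_eq_zero fun y _ => ?_).symm
            rw [ext0_ne _ hq, map_zero, mul_zero]
        · intro x' _ hx'
          refine Finset.sum_eq_zero fun y _ => ?_
          beta_reduce
          rw [dif_neg hx', zero_mul]
        · intro h3
          exact absurd (mem_univ _) h3)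
  rw [hd, evn_map, hΞf, map_zero, mul_zero]

end

end Pool.Agent.Y104.WL
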