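import Pool.Agent.Y104.WL.Axl
import Pool.Agent.Y104.WL.Wt
import Pool.Agent.Y104.WL.Sem

/-!
# Copies of a tensor with blocks
-/

open Finset Module
open scoped Matrix

set_option linter.unusedSectionVars false

universe u v w

namespace Pool.Agent.Y104.WL

open Pool.Agent.Y104.Kempf

section

variable {K : Type u} [Field K] {L : Type u} [Field L] [Algebra K L] {β : Type} [Fintype β]
  [DecidableEq β] {n : ℕ} {B : Type} [Fintype B] [DecidableEq B] {rk : B → ℕ}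

/-- The product of copies of a tensor with blocks. -/
def cpy (n : ℕ) (Θ : ((Σ x : B, Fin (rk x)) → β) → K)
    (I : (Σ x : Fin n × B, Fin (rk x.2)) → β) : K :=
  ∏ i, Θ fun y => I ⟨(i, y.1), y.2⟩

/-- The slots of the copies. -/
def cpyE (n : ℕ) (rk : B → ℕ) :
    Fin n × (Σ x : B, Fin (rk x)) ≃ Σ x : Fin n × B, Fin (rk x.2) where
  toFun x := ⟨(x.1, x.2.1), x.2.2⟩
  invFun y := (y.1.1, ⟨y.1.2, y.2⟩)
  left_inv _ := rfl
  right_inv _ := rfl

theorem cpy_evn (Θ : ((Σ x : B, Fin (rk x)) → β) → K)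
    (u : (Σ x : Fin n × B, Fin (rk x.2)) → β → L) :
    evn (cpy n Θ) u = ∏ i, evn Θ (fun y => u ⟨(i, y.1), y.2⟩) :=
  (evn_equiv (cpyE n rk) (fun I => ∏ a, Θ (fun s => I (a, s))) u).trans
    (evn_prod (L := L) (A := Fin n) (fun _ => Θ) (fun x => u (cpyE n rk x)))

theorem altOn_cpy (hSWP : S_SWP.{u}) {Θ : ((Σ x : B, Fin (rk x)) → β) → K}
    (hΘ : AltOn Sigma.fst Θ) : AltOn Sigma.fst (cpy n Θ) := by
  refine hSWP K _ β (Fin n × B) Sigma.fst _ ?_
  rintro ⟨⟨i, x⟩, a⟩ ⟨⟨i', x'⟩, a'⟩ hne h I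
  obtain ⟨rfl, rfl⟩ : i = i' ∧ x = x' := Prod.mk.inj h
  change ∏ i₁, Θ (fun y => I (Equiv.swap _ _ ⟨(i₁, y.1), y.2⟩)) =
    -∏ i₁, Θ (fun y => I ⟨(i₁, y.1), y.2⟩)
  rw [← Finset.mul_prod_erase univ _ (mem_univ i), ← Finset.mul_prod_erase univ _ (mem_univ i),
    ← neg_mul]
  congr 1
  · have hne' : (⟨x, a⟩ : Σ x : B, Fin (rk x)) ≠ ⟨x, a'⟩ := by
      intro h1
      apply hne
      have h2 : a = a' := eq_of_heq (Sigma.mk.inj h1).2
      rw [h2]
    have h2 := hΘ (Equiv.swap ⟨x, a⟩ ⟨x, a'⟩) (fun z => by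
      by_cases hz : z = ⟨x, a⟩
      · rw [hz, Equiv.swap_apply_left]
      · by_cases hz' : z = ⟨x, a'⟩
        · rw [hz', Equiv.swap_apply_right]
        · rw [Equiv.swap_apply_of_ne_of_ne hz hz']) (fun y => I ⟨(i, y.1), y.2⟩)
    rw [Equiv.Perm.sign_swap hne'] at h2
    push_cast at h2
    rw [neg_one_mul] at h2
    rw [← h2]
    congr 1
    funext y
    congr 1
    have hinj : Function.Injective (fun y : (Σ x : B, Fin (rk x)) =>
        (⟨(i, y.1), y.2⟩ : Σ x : Fin n × B, Fin (rk x.2))) := fun y y' h1 => by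
      have h3 := (cpyE n rk).injective (a₁ := (i, y)) (a₂ := (i, y')) h1
      exact (Prod.mk.inj h3).2
    exact hinj.swap_apply ⟨x, a⟩ ⟨x, a'⟩ y
  · refine Finset.prod_congr rfl fun i₁ hi₁ => ?_
    have h1 : i₁ ≠ i := (Finset.mem_erase.1 hi₁).1
    congr 1
    funext y
    rw [Equiv.swap_apply_of_ne_of_ne]
    · intro h2
      exact h1 (Prod.mk.inj (Sigma.mk.inj h2).1).1
    · intro h2
      exact h1 (Prod.mk.inj (Sigma.mk.inj h2).1).1

/-- The slots of the copies of a product. -/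
def blkE (n d : ℕ) (S : Type) (rk : B → ℕ) :
    Fin n × ((Fin d × S) ⊕ (Σ x : B, Fin (rk x))) ≃
      ((Fin n × Fin d) × S) ⊕ (Σ x : Fin n × B, Fin (rk x.2)) where
  toFun x := match x with
    | (i, Sum.inl y) => Sum.inl ((i, y.1), y.2)
    | (i, Sum.inr y) => Sum.inr ⟨(i, y.1), y.2⟩
  invFun y := match y with
    | Sum.inl y => (y.1.1, Sum.inl (y.1.2, y.2))
    | Sum.inr y => (y.1.1, Sum.inr ⟨y.1.2, y.2⟩)
  left_inv := by rintro ⟨i, y | y⟩ <;> rfl
  right_inv := by rintro (y | y) <;> rfl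

theorem sum_cpy {S : Type} [Fintype S] [DecidableEq S] {d : ℕ}
    (zz : Fin n → Fin d → (S → β) → K) (Θ : ((Σ x : B, Fin (rk x)) → β) → K) (M : Matrix β β K)
    {r : ℕ} (E : Fin r × Fin 2 ≃ Fin n × ((Fin d × S) ⊕ (Σ x : B, Fin (rk x)))) :
    ∑ I : ((Fin n × Fin d) × S) ⊕ (Σ x : Fin n × B, Fin (rk x.2)) → β,
        (∏ a : Fin n × Fin d, zz a.1 a.2 (fun s => I (Sum.inl (a, s)))) *
          cpy n Θ (fun y => I (Sum.inr y)) *
          ∏ l, M (I ((E.trans (blkE n d S rk)) (l, 0))) (I ((E.trans (blkE n d S rk)) (l, 1))) =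
      ∑ I : Fin n × ((Fin d × S) ⊕ (Σ x : B, Fin (rk x))) → β,
        tp (fun i I => (∏ a, zz i a (fun s => I (Sum.inl (a, s)))) *
          Θ (fun x => I (Sum.inr x))) I * ∏ l, M (I (E (l, 0))) (I (E (l, 1))) := by
  refine Fintype.sum_equiv (Equiv.arrowCongr (blkE n d S rk).symm (Equiv.refl β)) _ _ fun I => ?_
  have h1 : (Equiv.arrowCongr (blkE n d S rk).symm (Equiv.refl β)) I =
      fun x => I (blkE n d S rk x) := by
    funext x
    simp [Equiv.arrowCongr]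
  rw [h1]
  congr 1
  unfold tp cpy
  rw [Finset.prod_mul_distrib, Fintype.prod_prod_type]
  rfl

/-- The contraction of the product of tensors `zz` and of the tensor `Ξ`. -/
def ctr {A S T : Type} [Fintype A] [DecidableEq A] [Fintype S] [DecidableEq S] [Fintype T]
    [DecidableEq T] (M : Matrix β β K) (zz : A → (S → β) → K) {r : ℕ}
    (E : Fin r × Fin 2 ≃ (A × S) ⊕ T) (Ξ : (T → β) → K) : K :=
  ∑ I : (A × S) ⊕ T → β, (∏ a, zz a (fun s => I (Sum.inl (a, s)))) *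
    Ξ (fun y => I (Sum.inr y)) * ∏ l, M (I (E (l, 0))) (I (E (l, 1)))

theorem ctr_sub {A S T : Type} [Fintype A] [DecidableEq A] [Fintype S] [DecidableEq S]
    [Fintype T] [DecidableEq T] (M : Matrix β β K) (zz : A → (S → β) → K) {r : ℕ}
    (E : Fin r × Fin 2 ≃ (A × S) ⊕ T) (Ξ Θ : (T → β) → K) (c : K) :
    ctr M zz E (fun I => Ξ I - c * Θ I) = ctr M zz E Ξ - c * ctr M zz E Θ := by
  unfold ctr
  rw [Finset.mul_sum, ← Finset.sum_sub_distrib]
  refine Finset.sum_congr rfl fun I _ => ?_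
  ring

/-- The contraction does not depend on the choice of the instances. -/
theorem ctr_inst {A S T : Type} {fA fA' : Fintype A} {dA dA' : DecidableEq A}
    {fS fS' : Fintype S} {dS dS' : DecidableEq S} {fT fT' : Fintype T} {dT dT' : DecidableEq T}
    (M : Matrix β β K) (zz : A → (S → β) → K) {r : ℕ}
    (E : Fin r × Fin 2 ≃ (A × S) ⊕ T) (Ξ : (T → β) → K) :
    @ctr K _ β _ A S T fA dA fS dS fT dT M zz r E Ξ =
      @ctr K _ β _ A S T fA' dA' fS' dS' fT' dT' M zz r E Ξ := by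
  obtain rfl : fA = fA' := Subsingleton.elim _ _
  obtain rfl : dA = dA' := Subsingleton.elim _ _
  obtain rfl : fS = fS' := Subsingleton.elim _ _
  obtain rfl : dS = dS' := Subsingleton.elim _ _
  obtain rfl : fT = fT' := Subsingleton.elim _ _
  obtain rfl : dT = dT' := Subsingleton.elim _ _
  rfl

end

section

variable {ι : Type} [Fintype ι] [DecidableEq ι] {b : ι → Type} [∀ i, Fintype (b i)]
  [∀ i, DecidableEq (b i)] {K : Type u} [Field K] {n : ℕ} {B : Type} [Fintype B] [DecidableEq B]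
  {rk : B → ℕ}

/-- A contraction which does not vanish. -/
theorem exists_contr {S : Type} [Fintype S] [DecidableEq S] {d : ℕ}
    {M : Matrix (Σ j, b j) (Σ j, b j) K}
    {z' : Fin n → ((Fin d × S) ⊕ (Σ x : B, Fin (rk x)) → Σ j, b j) → K}
    (zz : Fin n → Fin d → (S → Σ j, b j) → K) (Θ : ((Σ x : B, Fin (rk x)) → Σ j, b j) → K)
    (hz : z' = fun i I => (∏ a, zz i a (fun s => I (Sum.inl (a, s)))) *
      Θ (fun x => I (Sum.inr x)))
    {f : Fintype (Fin n × ((Fin d × S) ⊕ (Σ x : B, Fin (rk x))))}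
    {e : DecidableEq (Fin n × ((Fin d × S) ⊕ (Σ x : B, Fin (rk x))))}
    (h : ¬NullT M (S := Fin n × ((Fin d × S) ⊕ (Σ x : B, Fin (rk x)))) (tp z')) :
    ∃ (r : ℕ) (E : Fin r × Fin 2 ≃ Fin n × ((Fin d × S) ⊕ (Σ x : B, Fin (rk x)))),
      ctr M (fun a : Fin n × Fin d => zz a.1 a.2) (E.trans (blkE n d S rk)) (cpy n Θ) ≠ 0 := by
  by_contra hcon
  push Not at hcon
  apply h
  intro r E
  have h1 := hcon r E
  rw [ctr, sum_cpy, ← hz] at h1
  obtain rfl : f = instFintypeProd _ _ := Subsingleton.elim _ _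
  obtain rfl : e = instDecidableEqProd := Subsingleton.elim _ _
  exact h1

end

end Pool.Agent.Y104.WL
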