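import Pool.Agent.Y104.WL.Stm

/-!
# Values of tensors
-/

open Finset Module
open scoped Matrix

set_option linter.unusedSectionVars false

universe u v w

namespace Pool.Agent.Y104.WL

open Pool.Agent.Y104.Kempf

section

variable {K : Type*} [Field K] {L : Type*} [Field L] [Algebra K L] {S T A β : Type} [Fintype S]
  [DecidableEq S] [Fintype T] [DecidableEq T] [Fintype A] [DecidableEq A] [Fintype β]

/-- Tensors on a disjoint union of slots. -/
theorem evn_sum (X : (S → β) → K) (Y : (T → β) → K) (u : S ⊕ T → β → L) :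
    evn (fun I : S ⊕ T → β => X (fun s => I (Sum.inl s)) * Y (fun x => I (Sum.inr x))) u =
      evn X (fun s => u (Sum.inl s)) * evn Y (fun x => u (Sum.inr x)) := by
  classical
  unfold evn
  rw [Finset.sum_mul_sum, ← Fintype.sum_prod_type']
  refine Fintype.sum_equiv (Equiv.sumArrowEquivProdArrow S T β) _ _ fun I => ?_
  rw [Fintype.prod_sum_type, map_mul]
  simp only [Equiv.sumArrowEquivProdArrow, Equiv.coe_fn_mk, Function.comp_def]
  ring

/-- Tensors on a product of slots. -/
theorem evn_prod (z : A → (S → β) → K) (u : A × S → β → L) :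
    evn (fun I : A × S → β => ∏ a, z a (fun s => I (a, s))) u =
      ∏ a, evn (z a) (fun s => u (a, s)) := by
  classical
  unfold evn
  rw [Finset.prod_univ_sum, Fintype.piFinset_univ]
  refine Fintype.sum_equiv (Equiv.curry _ _ _) _ _ fun I => ?_
  rw [Finset.prod_mul_distrib, map_prod, Fintype.prod_prod_type]
  rfl

/-- Extension of scalars. -/
theorem evn_map (z : (S → β) → K) (u : S → β → K) :
    evn z (fun s p => algebraMap K L (u s p)) = algebraMap K L (evn z u) := by
  unfold evn
  rw [map_sum]
  refine Finset.sum_congr rfl fun I _ => ?_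
  rw [map_mul, map_prod]
  rfl

theorem evn_sub (z z' : (S → β) → K) (c : K) (u : S → β → L) :
    evn (fun I => z I - c * z' I) u = evn z u - algebraMap K L c * evn z' u := by
  unfold evn
  rw [Finset.mul_sum, ← Finset.sum_sub_distrib]
  refine Finset.sum_congr rfl fun I _ => ?_
  rw [map_sub, map_mul]
  ring

/-- A tensor which is alternating vanishes at families with a repetition. -/
theorem evn_repeat [CharZero K] {B : Type} {κ : T → B} {Ξ : (T → β) → K} (h : AltOn κ Ξ)
    {u : T → β → L} {x y : T} (hxy : x ≠ y) (hκ : κ x = κ y) (hu : u x = u y) :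
    evn Ξ u = 0 := by
  classical
  have : CharZero L := charZero_of_injective_algebraMap (algebraMap K L).injective
  have h1 : evn Ξ u = - evn Ξ u := by
    conv_lhs => unfold evn
    rw [← Equiv.sum_comp (Equiv.arrowCongr (Equiv.swap x y) (Equiv.refl β))]
    unfold evn
    rw [← Finset.sum_neg_distrib]
    refine Finset.sum_congr rfl fun I _ => ?_
    have h2 : (Equiv.arrowCongr (Equiv.swap x y) (Equiv.refl β)) I =
        fun z => I (Equiv.swap x y z) := by
      funext z
      simp [Equiv.arrowCongr]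
    rw [h2, h (Equiv.swap x y) (fun z => ?_) I, Equiv.Perm.sign_swap hxy]
    · have h3 : ∏ z, u z (I (Equiv.swap x y z)) = ∏ z, u z (I z) := by
        rw [← Equiv.prod_comp (Equiv.swap x y) (fun z => u z (I z))]
        refine Finset.prod_congr rfl fun z _ => ?_
        have h4 : u z = u (Equiv.swap x y z) := by
          by_cases hz : z = x
          · rw [hz, Equiv.swap_apply_left, hu]
          · by_cases hz' : z = y
            · rw [hz', Equiv.swap_apply_right, hu]
            · rw [Equiv.swap_apply_of_ne_of_ne hz hz']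
        rw [h4]
      rw [h3]
      push_cast
      simp
    · by_cases hz : z = x
      · rw [hz, Equiv.swap_apply_left, hκ]
      · by_cases hz' : z = y
        · rw [hz', Equiv.swap_apply_right, hκ]
        · rw [Equiv.swap_apply_of_ne_of_ne hz hz']
  exact self_eq_neg.1 h1

end

section

variable {ι : Type} [Fintype ι] [DecidableEq ι] {b : ι → Type} [∀ i, Fintype (b i)]
  [∀ i, DecidableEq (b i)] {S : Type} [Fintype S] [DecidableEq S] {c : S → ι}
  {K : Type*} [Field K] {L : Type*} [Field L] [Algebra K L]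

/-- Extension of a vector by zero. -/
def ext0 {F : Type*} [Zero F] (j : ι) (v : b j → F) (q : Σ j, b j) : F :=
  if h : q.1 = j then v (h ▸ q.2) else 0

theorem ext0_same {F : Type*} [Zero F] (j : ι) (v : b j → F) (p : b j) :
    ext0 j v ⟨j, p⟩ = v p := by
  rw [ext0, dif_pos rfl]

theorem ext0_ne {F : Type*} [Zero F] {j : ι} (v : b j → F) {q : Σ j, b j} (h : q.1 ≠ j) :
    ext0 j v q = 0 := by
  rw [ext0, dif_neg h]

/-- Values of a tensor with given colours. -/
theorem ev_rst {z : (S → Σ j, b j) → K} (hz : ∀ I, z I ≠ 0 → ∀ s, (I s).1 = c s)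
    (u : ∀ s, b (c s) → L) :
    ev (rst c z) u = evn z (fun s => ext0 (c s) (u s)) := by
  classical
  unfold ev evn rst
  refine Fintype.sum_of_injective (fun (J : ∀ s, b (c s)) (s : S) => (⟨c s, J s⟩ : Σ j, b j))
    ?_ _ _ ?_ ?_
  · intro J J' h
    funext s
    have := congrFun h s
    simpa using this
  · intro I hI
    by_contra h1
    have h2 : algebraMap K L (z I) ≠ 0 := right_ne_zero_of_mul h1
    have h3 := hz I (fun h => h2 (by rw [h, map_zero]))
    apply hI
    refine ⟨fun s => h3 s ▸ (I s).2, ?_⟩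
    funext s
    have h4 : ∀ (i : Σ j, b j) (j : ι) (h : i.1 = j), (⟨j, h ▸ i.2⟩ : Σ j, b j) = i := by
      rintro ⟨i, p⟩ j rfl
      rfl
    exact h4 _ _ _
  · intro J
    congr 1
    exact Finset.prod_congr rfl fun s _ => (ext0_same _ _ _).symm

/-- The rows of a block diagonal matrix. -/
theorem row_eq (h : ∀ j, Matrix (b j) (b j) L) (q : Σ j, b j) :
    Matrix.blockDiagonal' h q = ext0 q.1 (h q.1 q.2) := by
  funext q'
  by_cases h1 : q'.1 = q.1
  · obtain ⟨j, p⟩ := q
    obtain ⟨j', p'⟩ := q'
    obtain rfl : j' = j := h1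
    rw [ext0_same, Matrix.blockDiagonal'_apply_eq]
  · rw [ext0_ne _ h1]
    obtain ⟨j, p⟩ := q
    obtain ⟨j', p'⟩ := q'
    exact Matrix.blockDiagonal'_apply_ne _ _ _ (fun h => h1 h.symm)

theorem tact_eq_evn {T β : Type} [Fintype T] [DecidableEq T] [Fintype β] [DecidableEq β]
    (M : Matrix β β L) (z : (T → β) → K) (J : T → β) :
    tact M (fun I => algebraMap K L (z I)) J = evn z (fun s => M (J s)) := rfl

/-- The colours of the arguments. -/
theorem color_of_evn {z : (S → Σ j, b j) → K} (hz : ∀ I, z I ≠ 0 → ∀ s, (I s).1 = c s)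
    {u : S → (Σ j, b j) → L} {J : S → Σ j, b j} (hu : ∀ s q, u s q ≠ 0 → q.1 = (J s).1)
    (h : evn z u ≠ 0) : ∀ s, (J s).1 = c s := by
  obtain ⟨I, -, hI⟩ := Finset.exists_ne_zero_of_sum_ne_zero h
  intro s
  rw [← hu s (I s) (Finset.prod_ne_zero_iff.1 (left_ne_zero_of_mul hI) s (mem_univ s))]
  exact hz I (fun h => (right_ne_zero_of_mul hI) (by rw [h, map_zero])) s

end

end Pool.Agent.Y104.WL
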