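import Pool.Agent.Y104.WL.Gn5
import Pool.Agent.Y104.WL.Fin
import Pool.Agent.Y391.WL.Ctp
import Pool.Agent.Y363.WL.Alt

/-!
# The conjecture D for products and determinant classes
-/

open CategoryTheory AlgebraicGeometry

universe u v w

namespace Pool.Agent.Y104.WL

open Pool.Agent.H914 Pool.Agent.H914.VarClass Pool.Agent.H914.VarClass.Obj
  Pool.Agent.H914.WeilCohomology Pool.Agent.H281R3.HT Pool.Agent.TH125.Gal
  Pool.Agent.Y104.Geo

variable {k : Type u} [Field k] {𝒱 : VarClass k} {ops : CycleOps 𝒱}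
  {W : WeilCohomology.{u, v} ops} {Γ : Type w} [Group Γ] {χ : Γ →* W.Kˣ} {G : Set (GVar W Γ)}

theorem homEqNum_iff_detClass (hG : GaloisClass χ G) {S S' : Set (GVar W Γ)}
    (hSG : S ∪ S' ⊆ G) (hSS : ∀ X ∈ S, X ∉ S') {ξ : ∀ A : GVar W Γ, W.H A.X}
    (hS : ∀ X ∈ S, HomEqNum W X.X ∧ SignIsAlgebraic W X.X ∧
      SemisimpleIn (transcendental W X.X) X.act (CorrOps W X.X))
    (hS' : ∀ A ∈ S', IsAbelian χ A (ξ A) ∧ SemisimpleIn (W.gr A.X 1) A.act (CorrOps W A.X)) :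
    (∀ Y, IsProductOf (GVar.X '' (S ∪ S')) Y → ∀ Y', Covers W Y Y' → HomEqNum W Y') ↔
      ∀ (r : ℕ) (V : ∀ A : GVar W Γ, Fin r → Submodule W.K (W.H A.X)),
        (∀ X ∈ S, IsotropicFlag (W.tr X.X) (W.gr X.X) (transcendental W X.X) X.act
          (CorrOps W X.X) (V X)) →
        (∀ A ∈ S', IsotropicFlag (twistBy (W.tr A.X) (ξ A) (A.X.dim - 1)) (W.gr A.X)
          (W.gr A.X 1) A.act (CorrOps W A.X) (V A)) →
        ∀ (Y : 𝒱.Obj) (δ : W.H Y), DetClass2 S S' V Y δ → ¬NumTrivial W Y δ :=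
  homEqNum_iff_det2 Y977.WL.opt_first Y141.WL.baev Y455.WL.det_exists Y255.WL.swp Y287.WL.chg
    Y287.WL.inv_wt Y287.WL.cmb (Y641.WL.rat Y977.WL.opt_first) Y850.WL.hm Y664.WL.sgn_prod
    Y907.WL.null_lin Y391.WL.ctp Y438.WL.dor Y363.WL.alt_ne hG hSG hSS hS hS'

end Pool.Agent.Y104.WL
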