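import Pool.Agent.Y104.WL.Pw

/-!
# Determinant classes: definition
-/

open CategoryTheory AlgebraicGeometry

universe u v w

namespace Pool.Agent.Y104.WL

section

variable {K : Type*} [Field K] {A : Type*} [Ring A] [Algebra K A] {B : Type*} [Ring B]
  [Algebra K B]

/-- `v` is a basis of the subspace `F`. -/
def IsBasisOf (F : Submodule K A) {n : ℕ} (v : Fin n → A) : Prop :=
  LinearIndependent K v ∧ Submodule.span K (Set.range v) = F

/-- `v` is a basis of the even (if `e` is even) or of the odd (if `e` is odd) part of `F`. -/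
def IsBasisOfPart (gr : ℕ → Submodule K A) (e : ℕ) (F : Submodule K A) {n : ℕ}
    (v : Fin n → A) : Prop :=
  IsBasisOf (F ⊓ Submodule.span K {x | ∃ i, i % 2 = e % 2 ∧ x ∈ gr i}) v

/-- The sum over all permutations `σ` of `sign σ` times the product of the `p a (v (σ a))`. -/
noncomputable def altVia {n : ℕ} (p : Fin n → A →ₐ[K] B) (v : Fin n → A) : B :=
  ∑ σ : Equiv.Perm (Fin n), ((Equiv.Perm.sign σ : ℤ) : K) •
    (List.ofFn fun a => p a (v (σ a))).prod

/-- The product of `p a` and `p' a'`. -/
def mulVia {A' : Type*} [Ring A'] [Algebra K A'] (p : A →ₐ[K] B) (p' : A' →ₐ[K] B) (a : A)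
    (a' : A') : B :=
  p a * p' a'

/-- The product of all `v a`. -/
def prodOf {n : ℕ} (v : Fin n → A) : A := (List.ofFn v).prod

/-- `x` is in both subspaces. -/
def InBoth (E F : Submodule K A) (x : A) : Prop := x ∈ E ∧ x ∈ F

end

open Pool.Agent.H914 Pool.Agent.H914.VarClass Pool.Agent.H914.VarClass.Obj
  Pool.Agent.H914.WeilCohomology Pool.Agent.H281R3.HT Pool.Agent.TH125.Gal
  Pool.Agent.Y104.Geo

variable {k : Type u} [Field k] {𝒱 : VarClass k} {ops : CycleOps 𝒱}

/-- The class `δ` is algebraic (a linear combination of classes of cycles) and numerically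
trivial (orthogonal to all classes of cycles). -/
def NumTriv (W : WeilCohomology.{u, v} ops) (Y : 𝒱.Obj) (δ : W.H Y) : Prop :=
  InBoth (algSpan W Y) (transcendental W Y) δ

/-- Subspaces `V X 0, V X 1, …` of the cohomology of `X`, for every `X`. -/
abbrev Subs (W : WeilCohomology.{u, v} ops) (Γ : Type w) [Group Γ] (r : ℕ) :=
  ∀ X : GVar W Γ, Fin r → Submodule W.K (W.H X.X)

variable {W : WeilCohomology.{u, v} ops} {Γ : Type w} [Group Γ]

/-- The determinant classes given by a flag `V X 0 ⊇ V X 1 ⊇ ⋯` of homogeneous subspaces of the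
cohomology of every member `X` of `S ∪ S'`: these are

* the products `v 0 * v 1 * ⋯`, classes on `A` itself, where `A` is in `S'` and `v 0, v 1, …` is a
  basis of a member of the flag of `A` which is not zero;
* the antisymmetrized exterior products of `v 0, v 1, …`, classes on powers of `X` (the sum over
  all permutations `σ` of `sign σ` times the product of the pull-backs of the `v (σ a)` by the
  projections `pwπ X n a`), where `X` is in `S` and `v 0, v 1, …` is a basis, not empty, of the even
  part or of the odd part of a member of the flag of `X`;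
* the exterior products of such classes. -/
inductive DetClass3 (S S' : Set (GVar W Γ)) {r : ℕ} (V : Subs W Γ r) :
    ∀ Y : 𝒱.Obj, W.H Y → Prop
  | abel (A : GVar W Γ) (hA : A ∈ S') (i : Fin r) (n : ℕ) (v : Fin (n + 1) → W.H A.X)
      (hv : IsBasisOf (V A i) v) : DetClass3 S S' V A.X (prodOf v)
  | alt (X : GVar W Γ) (hX : X ∈ S) (i : Fin r) (e n : ℕ) (v : Fin (n + 1) → W.H X.X)
      (hv : IsBasisOfPart (W.gr X.X) e (V X i) v) :
      DetClass3 S S' V (pw X.X n) (altVia (fun a => W.map (pwπ X.X n a)) v)
  | prod {Y Y' : 𝒱.Obj} {δ : W.H Y} {δ' : W.H Y'} (h : DetClass3 S S' V Y δ)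
      (h' : DetClass3 S S' V Y' δ') :
      DetClass3 S S' V (Y.prod Y') (mulVia (W.map (fst Y Y')) (W.map (snd Y Y')) δ δ')

end Pool.Agent.Y104.WL
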