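import Pool.Agent.Y104.WL.Fi2
import Pool.Agent.Y104.WL.Pu3

/-!
# The conjecture D for products and determinant classes
-/

open CategoryTheory AlgebraicGeometry

universe u v w

namespace Pool.Agent.Y104.WL

open Pool.Agent.H914 Pool.Agent.H914.VarClass Pool.Agent.H914.VarClass.Obj
  Pool.Agent.H914.WeilCohomology Pool.Agent.H281R3.HT Pool.Agent.TH125.Gal
  Pool.Agent.Y104.Geo

variable {k : Type u} [Field k] {𝒱 : VarClass k} {ops : CycleOps 𝒱}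
  {W : WeilCohomology.{u, v} ops} {Γ : Type w} [Group Γ] {χ : Γ →* W.Kˣ} {G : Set (GVar W Γ)}

theorem numTriv_iff {Y : 𝒱.Obj} {δ : W.H Y} : NumTriv W Y δ ↔ NumTrivial W Y δ := by
  constructor
  · intro h
    refine ⟨h.1, fun a ha => ?_⟩
    have h1 := alg_trans h.2 ha
    rwa [bil_apply] at h1
  · intro h
    refine ⟨h.1, mem_trans'.2 fun c hc => ?_⟩
    rw [bil_apply, ← alg_comm hc]
    exact h.2 c hc

theorem numTriv_smul {Y : 𝒱.Obj} {δ : W.H Y} {c : W.K} (hc : c ≠ 0)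
    (h : NumTriv W Y (c • δ)) : NumTriv W Y δ :=
  ⟨(Submodule.smul_mem_iff _ hc).1 h.1, (Submodule.smul_mem_iff _ hc).1 h.2⟩

theorem detClass3_two {S S' : Set (GVar W Γ)} {r : ℕ} {V : Subs W Γ r} {Y : 𝒱.Obj} {δ : W.H Y}
    (h : DetClass3 S S' V Y δ) : DetClass2 S S' V Y δ := by
  induction h with
  | abel A hA i n v hv => exact DetClass2.abel A hA i (n + 1) (Nat.succ_pos n) v hv.1 hv.2
  | alt X hX i e n v hv => exact DetClass2.alt X hX i e n v hv.1 hv.2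
  | prod _ _ h1 h2 => exact DetClass2.prod h1 h2

theorem detClass2_three {S S' : Set (GVar W Γ)} {r : ℕ} {V : Subs W Γ r} {Y : 𝒱.Obj} {δ : W.H Y}
    (h : DetClass2 S S' V Y δ) : ∃ c : W.K, c ≠ 0 ∧ ∃ δ', DetClass3 S S' V Y δ' ∧ δ = c • δ' := by
  induction h with
  | abel A hA i n hn v hv hs =>
    obtain ⟨m, rfl⟩ : ∃ m, n = m + 1 := ⟨n - 1, by omega⟩
    exact ⟨1, one_ne_zero, _, DetClass3.abel A hA i m v ⟨hv, hs⟩, (one_smul _ _).symm⟩
  | alt X hX i e n v hv hs =>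
    exact ⟨1, one_ne_zero, _, DetClass3.alt X hX i e n v ⟨hv, hs⟩, (one_smul _ _).symm⟩
  | smul c hc _ ih =>
    obtain ⟨c', hc', δ', h', rfl⟩ := ih
    exact ⟨c * c', mul_ne_zero hc hc', δ', h', smul_smul _ _ _⟩
  | prod _ _ ih ih' =>
    obtain ⟨c, hc, δ, h, rfl⟩ := ih
    obtain ⟨c', hc', δ', h', rfl⟩ := ih'
    refine ⟨c * c', mul_ne_zero hc hc', _, DetClass3.prod h h', ?_⟩
    rw [map_smul, map_smul, smul_mul_smul_comm]
    rfl

theorem homEqNum_iff_detClass3 (hG : GaloisClass χ G) {S S' : Set (GVar W Γ)}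
    (hSG : S ∪ S' ⊆ G) (hSS : ∀ X ∈ S, X ∉ S') {ξ : ∀ A : GVar W Γ, W.H A.X}
    (hS : ∀ X ∈ S, HomEqNum W X.X ∧ SignIsAlgebraic W X.X ∧
      SemisimpleIn (transcendental W X.X) X.act (CorrOps W X.X))
    (hS' : ∀ A ∈ S', IsAbelian χ A (ξ A) ∧ SemisimpleIn (W.gr A.X 1) A.act (CorrOps W A.X)) :
    (∀ Y, IsProductOf (GVar.X '' (S ∪ S')) Y → ∀ Y', Covers W Y Y' → HomEqNum W Y') ↔
      ∀ (r : ℕ) (V : Subs W Γ r),
        (∀ X ∈ S, IsotropicFlag (W.tr X.X) (W.gr X.X) (transcendental W X.X) X.act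
          (CorrOps W X.X) (V X)) →
        (∀ A ∈ S', IsotropicFlag (twistBy (W.tr A.X) (ξ A) (A.X.dim - 1)) (W.gr A.X)
          (W.gr A.X 1) A.act (CorrOps W A.X) (V A)) →
        ∀ Y δ, DetClass3 S S' V Y δ → ¬NumTriv W Y δ := by
  rw [homEqNum_iff_detClass hG hSG hSS hS hS']
  constructor
  · intro h r V hV hV' Y δ hδ hn
    exact h r V hV hV' Y δ (detClass3_two hδ) (numTriv_iff.1 hn)
  · intro h r V hV hV' Y δ hδ hn
    obtain ⟨c, hc, δ', hδ', rfl⟩ := detClass2_three hδ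
    exact h r V hV hV' Y δ' hδ' (numTriv_smul hc (numTriv_iff.2 hn))

end Pool.Agent.Y104.WL
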