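import Pool.Agent.Y104.Pub3

/-!
# Determinant classes: definition
-/

open CategoryTheory AlgebraicGeometry

universe u v w

namespace Pool.Agent.Y104.WL

open Pool.Agent.H914 Pool.Agent.H914.VarClass Pool.Agent.H914.VarClass.Obj
  Pool.Agent.H914.WeilCohomology Pool.Agent.H281R3.HT Pool.Agent.TH125.Gal
  Pool.Agent.Y104.Geo

variable {k : Type u} [Field k] {𝒱 : VarClass k} {ops : CycleOps 𝒱}
  {W : WeilCohomology.{u, v} ops} {Γ : Type w} [Group Γ]

/-- The determinant classes given by a flag `V A 0 ⊇ V A 1 ⊇ ⋯` of subspaces of the cohomology of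
every member `A` of `S`: these are the classes `v 0 * v 1 * ⋯` on `A`, where `v 0, v 1, …` is a basis
of a member of the flag which is not zero, and the exterior products of such classes. -/
inductive DetClass (S : Set (GVar W Γ)) {r : ℕ}
    (V : ∀ A : GVar W Γ, Fin r → Submodule W.K (W.H A.X)) : ∀ Y : 𝒱.Obj, W.H Y → Prop
  | base (A : GVar W Γ) (hA : A ∈ S) (i : Fin r) (n : ℕ) (hn : 0 < n) (v : Fin n → W.H A.X)
      (hv : LinearIndependent W.K v) (hs : Submodule.span W.K (Set.range v) = V A i) :
      DetClass S V A.X (List.ofFn v).prod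
  | prod {Y Y' : 𝒱.Obj} {δ : W.H Y} {δ' : W.H Y'} (h : DetClass S V Y δ)
      (h' : DetClass S V Y' δ') :
      DetClass S V (Y.prod Y') (W.map (fst Y Y') δ * W.map (snd Y Y') δ')

/-- The class `δ` is algebraic (a linear combination of classes of cycles) and numerically
trivial (orthogonal to all classes of cycles). -/
def NumTrivial (W : WeilCohomology.{u, v} ops) (Y : 𝒱.Obj) (δ : W.H Y) : Prop :=
  δ ∈ algSpan W Y ∧ ∀ a ∈ algSpan W Y, W.tr Y (a * δ) = 0

end Pool.Agent.Y104.WL
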