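import Pool.Agent.Y104.WL.Cor
import Pool.Agent.Y104.WL.Pub
import Pool.Agent.Y104.Fin6
import Pool.Agent.Y70.WL.Mpn
import Pool.Agent.Y779.WL.Avn

/-!
# Products of pull-backs; the tensors given by a class on a product
-/

open CategoryTheory AlgebraicGeometry
open scoped Matrix

set_option linter.unusedSectionVars false

universe u v w

namespace Pool.Agent.Y104.WL

open Pool.Agent.H914 Pool.Agent.H914.VarClass Pool.Agent.H914.VarClass.Obj
  Pool.Agent.H914.WeilCohomology Pool.Agent.H281R3.HT Pool.Agent.TH125.Gal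
  Pool.Agent.Y104.Kempf Pool.Agent.Y104.Geo

variable {k : Type u} [Field k] {𝒱 : VarClass k} {ops : CycleOps 𝒱}
  {W : WeilCohomology.{u, v} ops}

/-- Iterated products. -/
theorem exists_ext (W : WeilCohomology.{u, v} ops) (m : ℕ) : ∀ (Y : Fin (m + 1) → 𝒱.Obj),
    ∃ (P : 𝒱.Obj) (π : ∀ i, P ⟶ Y i), ∀ D : ∀ Z : 𝒱.Obj, W.H Z → Prop,
      (∀ (Z Z' : 𝒱.Obj) (z : W.H Z) (z' : W.H Z'), D Z z → D Z' z' →
        D (Z.prod Z') (W.map (fst Z Z') z * W.map (snd Z Z') z')) →
      ∀ y : ∀ i, W.H (Y i), (∀ i, D (Y i) (y i)) →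
        D P (List.ofFn fun i => W.map (π i) (y i)).prod := by
  induction m with
  | zero =>
    intro Y
    refine ⟨Y 0, Fin.cases (motive := fun i => (Y 0 ⟶ Y i)) (𝟙 (Y 0))
      (fun i => i.elim0), fun D _ y hy => ?_⟩
    rw [List.ofFn_succ, List.ofFn_zero, List.prod_cons, List.prod_nil, mul_one]
    change D (Y 0) (W.map (𝟙 (Y 0)) (y 0))
    rw [W.map_id]
    exact hy 0
  | succ m ih =>
    intro Y
    obtain ⟨P, π, h⟩ := ih (fun i => Y i.succ)
    refine ⟨(Y 0).prod P, Fin.cases (motive := fun i => ((Y 0).prod P ⟶ Y i)) (fst _ _)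
      (fun i => snd _ _ ≫ π i), fun D hD y hy => ?_⟩
    rw [List.ofFn_succ, List.prod_cons]
    change D _ (W.map (fst (Y 0) P) (y 0) *
      (List.ofFn fun i : Fin (m + 1) => W.map (snd (Y 0) P ≫ π i) (y i.succ)).prod)
    have h1 : (List.ofFn fun i : Fin (m + 1) => W.map (snd (Y 0) P ≫ π i) (y i.succ)).prod =
        W.map (snd (Y 0) P) (List.ofFn fun i : Fin (m + 1) => W.map (π i) (y i.succ)).prod := by
      rw [map_list_prod, List.map_ofFn]
      congr 2
      funext i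
      exact W.map_comp _ _ _
    rw [h1]
    exact hD _ _ _ _ (hy 0) (h D hD (fun i => y i.succ) fun i => hy _)

/-- Iterated products over a finite type. -/
theorem exists_ext' (W : WeilCohomology.{u, v} ops) {B : Type} [Fintype B] [Nonempty B]
    (Y : B → 𝒱.Obj) :
    ∃ (P : 𝒱.Obj) (π : ∀ x, P ⟶ Y x) (l : List B) (_ : l.Nodup) (_ : ∀ x, x ∈ l),
      ∀ D : ∀ Z : 𝒱.Obj, W.H Z → Prop,
      (∀ (Z Z' : 𝒱.Obj) (z : W.H Z) (z' : W.H Z'), D Z z → D Z' z' →
        D (Z.prod Z') (W.map (fst Z Z') z * W.map (snd Z Z') z')) →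
      ∀ y : ∀ x, W.H (Y x), (∀ x, D (Y x) (y x)) →
        D P (l.map fun x => W.map (π x) (y x)).prod := by
  classical
  obtain ⟨m, hm⟩ : ∃ m, Fintype.card B = m + 1 :=
    Nat.exists_eq_succ_of_ne_zero Fintype.card_ne_zero
  let e : Fin (m + 1) ≃ B := (Fintype.equivFinOfCardEq hm).symm
  obtain ⟨P, π, h⟩ := exists_ext W m (fun i => Y (e i))
  let π' : ∀ x, P ⟶ Y x := fun x =>
    π (e.symm x) ≫ eqToHom (congrArg Y (e.apply_symm_apply x))
  have hπ' : ∀ i, π' (e i) = π i := by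
    intro i
    have key : ∀ i' (_ : i' = i) (h2 : Y (e i') = Y (e i)), π i' ≫ eqToHom h2 = π i := by
      rintro i' rfl h2
      rw [eqToHom_refl, Category.comp_id]
    exact key _ (e.symm_apply_apply i) _
  refine ⟨P, π', List.ofFn e, List.nodup_ofFn.2 e.injective, fun x => ?_, fun D hD y hy => ?_⟩
  · rw [List.mem_ofFn]
    exact ⟨e.symm x, e.apply_symm_apply x⟩
  · rw [List.map_ofFn]
    have h1 := h D hD (fun i => y (e i)) fun i => hy _
    have h2 : (List.ofFn ((fun x => W.map (π' x) (y x)) ∘ e)) =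
        List.ofFn fun i => W.map (π i) (y (e i)) := by
      congr 1
      funext i
      change W.map (π' (e i)) (y (e i)) = _
      rw [hπ']
    rw [h2]
    exact h1

/-- Expansion of a product. -/
theorem list_expand {K H : Type*} [Field K] [Ring H] [Algebra K H] {T β : Type} [Fintype T]
    [DecidableEq T] [Fintype β] {l : List T} (hl : l.Nodup) (hm : ∀ x, x ∈ l)
    (a : T → β → H) (g : T → β → K) :
    (l.map fun y => ∑ p, g y p • a y p).prod =
      ∑ I : T → β, (∏ y, g y (I y)) • (l.map fun y => a y (I y)).prod := by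
  classical
  let e : Fin l.length ≃ T := List.Nodup.getEquivOfForallMemList l hl hm
  have hle : ∀ f : T → H, l.map f = List.ofFn fun i => f (e i) := by
    intro f
    conv_lhs => rw [← List.ofFn_get l]
    rw [List.map_ofFn]
    rfl
  rw [hle]
  have h2 := (MultilinearMap.mkPiAlgebraFin K l.length H).map_sum
    (fun s i => g (e s) i • a (e s) i)
  simp only [MultilinearMap.mkPiAlgebraFin_apply] at h2
  rw [h2]
  refine Fintype.sum_equiv (Equiv.arrowCongr e (Equiv.refl β)) _ _ fun I => ?_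
  have h3 := (MultilinearMap.mkPiAlgebraFin K l.length H).map_smul_univ
    (fun s => g (e s) (I s)) (fun s => a (e s) (I s))
  simp only [MultilinearMap.mkPiAlgebraFin_apply] at h3
  have h4 : ∀ i, (Equiv.arrowCongr e (Equiv.refl β)) I (e i) = I i := fun i => by
    simp [Equiv.arrowCongr]
  rw [h3, hle, ← Equiv.prod_comp e]
  simp only [h4]

section

variable {ι : Type} [Fintype ι] [DecidableEq ι] {X : ι → 𝒱.Obj} (P : ∀ j, Piece W (X j))
  {T : Type} [Fintype T] [DecidableEq T] (cT : T → ι) {Y : 𝒱.Obj} (q : ∀ y, Y ⟶ X (cT y))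
  (l : List T) (u : W.H Y)

/-- The tensor given by a class on a product. -/
noncomputable def Th (I : T → Tc P) : W.K :=
  W.tr Y ((l.map fun y => W.map (q y) (xc P (cT y) (I y))).prod * u)

variable {l}

theorem Th_color (hm : ∀ x, x ∈ l) : ∀ I, Th P cT q l u I ≠ 0 → ∀ y, (I y).1 = cT y := by
  intro I hI y
  by_contra h
  apply hI
  have h1 : (l.map fun y => W.map (q y) (xc P (cT y) (I y))).prod = 0 := by
    apply List.prod_eq_zero
    rw [List.mem_map]
    exact ⟨y, hm y, by rw [xc_ne P h, map_zero]⟩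
  rw [Th, h1, zero_mul, map_zero]

/-- The contractions vanish. -/
theorem ctr_Th (hNULL : S_NULL.{u, v}) (hCTP : S_CTP.{u, v}) (hl : l.Nodup)
    (hm : ∀ x, x ∈ l) {n : ℕ} {c : Fin n → ι} {A : Type} [Fintype A] [DecidableEq A] [Nonempty A]
    {zz : A → (Fin n → Tc P) → W.K} (hzz : ∀ a, zz a ∈ CSet P c) {r : ℕ}
    (E : Fin r × Fin 2 ≃ (A × Fin n) ⊕ T)
    (hu : (∀ a ∈ algSpan W Y, W.tr Y (a * u) = 0) ∨ u ∈ algSpan W Y) :
    ctr (Matrix.blockDiagonal' fun j => ((P j).Q)⁻¹) zz E (Th P cT q l u) = 0 := by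
  classical
  obtain ⟨V, ζ, hζ, lV, hlV, hmV, p, hp⟩ := hCTP k 𝒱 ops W ι X P n c A zz hzz
  let c' : (A × Fin n) ⊕ T → ι := Sum.elim (fun x => c x.2) cT
  let pp : ∀ s : (A × Fin n) ⊕ T, V.prod Y ⟶ X (c' s) := fun s => match s with
    | Sum.inl x => fst V Y ≫ p x
    | Sum.inr y => snd V Y ≫ q y
  let τ : W.H (V.prod Y) →ₗ[W.K] W.K := W.tr (V.prod Y) ∘ₗ
    (LinearMap.mulLeft W.K (W.map (fst V Y) ζ) ∘ₗ LinearMap.mulRight W.K (W.map (snd V Y) u))
  have hτdef : ∀ a, τ a = W.tr (V.prod Y) (W.map (fst V Y) ζ * (a * W.map (snd V Y) u)) :=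
    fun a => rfl
  have hτ : ∀ a ∈ algSpan W (V.prod Y), τ a = 0 := by
    intro a ha
    have hb : W.push (snd V Y) (W.map (fst V Y) ζ * a) ∈ rad W Y :=
      rad_push _ (rad_mul (rad_map _ hζ) ha)
    rw [hτdef, ← mul_assoc, ← W.tr_push]
    rcases hu with h | h
    · exact h _ (mem_rad.1 hb).1
    · exact rad_tr hb h
  have hL : (lV.map Sum.inl ++ l.map Sum.inr : List ((A × Fin n) ⊕ T)).Nodup := by
    rw [List.nodup_append']
    refine ⟨hlV.map Sum.inl_injective, hl.map Sum.inr_injective, ?_⟩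
    rw [List.disjoint_left]
    intro x hx hx'
    obtain ⟨y, -, rfl⟩ := List.mem_map.1 hx
    obtain ⟨z, -, h⟩ := List.mem_map.1 hx'
    exact Sum.inr_ne_inl h
  have hLm : ∀ s, s ∈ (lV.map Sum.inl ++ l.map Sum.inr : List ((A × Fin n) ⊕ T)) := by
    rintro (x | y)
    · exact List.mem_append_left _ (List.mem_map.2 ⟨x, hmV x, rfl⟩)
    · exact List.mem_append_right _ (List.mem_map.2 ⟨y, hm y, rfl⟩)
  have h := hNULL k 𝒱 ops W ι X P ((A × Fin n) ⊕ T) c' (V.prod Y) pp τ hτ _ hL hLm r E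
  rw [ctr, ← h]
  refine Finset.sum_congr rfl fun I _ => ?_
  congr 1
  have h1 := hp (fun x => I (Sum.inl x))
  rw [h1, Th]
  beta_reduce
  rw [hτdef, List.map_append, List.prod_append, List.map_map, List.map_map]
  have h2 : (lV.map ((fun s => W.map (pp s) (xc P (c' s) (I s))) ∘ Sum.inl)).prod =
      W.map (fst V Y) (lV.map fun x => W.map (p x) (xc P (c x.2) (I (Sum.inl x)))).prod := by
    rw [map_list_prod, List.map_map]
    congr 2
    funext x
    exact W.map_comp _ _ _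
  have h3 : (l.map ((fun s => W.map (pp s) (xc P (c' s) (I s))) ∘ Sum.inr)).prod =
      W.map (snd V Y) (l.map fun y => W.map (q y) (xc P (cT y) (I (Sum.inr y)))).prod := by
    rw [map_list_prod, List.map_map]
    congr 2
    funext x
    exact W.map_comp _ _ _
  rw [h2, h3, mul_assoc, ← map_mul, ← mul_assoc, ← map_mul, W.tr_prod]

/-- The tensor is alternating. -/
theorem Th_alt (hSGN : S_SGN.{v, v}) (hl : l.Nodup) (hm : ∀ x, x ∈ l) {B : Type} {κ : T → B}
    (hq : ∀ y y', κ y = κ y' → ∀ J, W.map (q y) (xc P (cT y) J) = W.map (q y') (xc P (cT y') J))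
    (hodd : ∀ y J, W.map (q y) (xc P (cT y) J) ∈ W.gr Y 1) : AltOn κ (Th P cT q l u) := by
  intro σ hσ I
  have h := hSGN W.K (W.H Y) (W.gr Y 1) (fun a ha b hb => by
    have h1 := W.comm ha hb
    rw [h1]
    simp) T l hl hm (fun y => W.map (q y) (xc P (cT y) (I y))) (fun y => hodd y _) σ
  have h2 : (l.map fun y => W.map (q y) (xc P (cT y) (I (σ y)))) =
      l.map fun y => W.map (q (σ y)) (xc P (cT (σ y)) (I (σ y))) :=
    List.map_congr_left fun y _ => hq _ _ (hσ y).symm _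
  change W.tr Y ((l.map fun y => W.map (q y) (xc P (cT y) (I (σ y)))).prod * u) = _
  rw [h2, h, smul_mul_assoc, map_smul, smul_eq_mul]
  rfl

/-- The value. -/
theorem Th_evn (hl : l.Nodup) (hm : ∀ x, x ∈ l) (g : T → Tc P → W.K) :
    evn (L := W.K) (Th P cT q l u) g =
      W.tr Y ((l.map fun y => W.map (q y) (∑ J, g y J • xc P (cT y) J)).prod * u) := by
  have h1 : (l.map fun y => W.map (q y) (∑ J, g y J • xc P (cT y) J)).prod =
      ∑ I : T → Tc P, (∏ y, g y (I y)) •
        (l.map fun y => W.map (q y) (xc P (cT y) (I y))).prod := by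
    rw [← list_expand hl hm (fun y J => W.map (q y) (xc P (cT y) J)) g]
    congr 2
    funext y
    rw [map_sum]
    exact Finset.sum_congr rfl fun J _ => map_smul _ _ _
  rw [h1, Finset.sum_mul, map_sum, evn]
  refine Finset.sum_congr rfl fun I _ => ?_
  rw [smul_mul_assoc, map_smul, smul_eq_mul]
  rfl

end

end Pool.Agent.Y104.WL
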