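import Pool.Agent.Y104.WL.Gm1

/-!
# Determinant classes which are numerically trivial
-/

open CategoryTheory AlgebraicGeometry Module
open scoped Matrix

set_option linter.unusedSectionVars false

universe u v w

namespace Pool.Agent.Y104.WL

open Pool.Agent.H914 Pool.Agent.H914.VarClass Pool.Agent.H914.VarClass.Obj
  Pool.Agent.H914.WeilCohomology Pool.Agent.H281R3.HT Pool.Agent.TH125.Gal
  Pool.Agent.Y104.Kempf Pool.Agent.Y104.Geo

variable {k : Type u} [Field k] {𝒱 : VarClass k} {ops : CycleOps 𝒱}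
  {W : WeilCohomology.{u, v} ops} {Γ : Type w} [Group Γ] {χ : Γ →* W.Kˣ} {G : Set (GVar W Γ)}

section

variable {ι : Type} [Fintype ι] [DecidableEq ι] {X : ι → GVar W Γ}
  {P : ∀ j, Piece W (X j).X} {Y : 𝒱.Obj}

/-- A numerically trivial class which is not orthogonal to the products of classes of the pieces
gives a tensor. -/
theorem exists_CSet {z c : W.H Y} (hz : z ∈ rad W Y) (hc : c ∈ ccl P Y)
    (h : W.tr Y (z * c) ≠ 0) : ∃ (n : ℕ) (s : Fin n → ι), ∃ y ∈ CSet (X := fun j => (X j).X) P s,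
      y ≠ 0 := by
  by_contra hcon
  push Not at hcon
  apply h
  induction hc using Submodule.span_induction with
  | mem c hc =>
    obtain ⟨a, ha, l, rfl⟩ := hc
    have h1 := hcon l.length (fun s : Fin l.length => (l.get s).j)
      (fun I => W.tr Y (z * a * (List.ofFn fun s => W.map (l.get s).p
        (xc P (l.get s).j (I s))).prod))
      ⟨Y, fun s => (l.get s).p, z * a, rad_mul hz ha, rfl⟩
    have h2 := congrFun h1 fun s => ⟨(l.get s).j, (l.get s).q⟩
    simp only [xc_self] at h2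
    have h3 : (List.ofFn fun s : Fin l.length => W.map (l.get s).p
        ((P (l.get s).j).x (l.get s).q)).prod = (l.map SlotC.val).prod := by
      congr 1
      conv_rhs => rw [← List.ofFn_get l]
      rw [List.map_ofFn]
      rfl
    rw [h3] at h2
    rw [← mul_assoc]
    exact h2
  | zero => rw [mul_zero, map_zero]
  | add x y _ _ hx hy =>
    by_cases h1 : W.tr Y (z * x) = 0
    · by_cases h2 : W.tr Y (z * y) = 0
      · rw [mul_add, map_add, h1, h2, add_zero]
      · exact absurd (hy h2) h2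
    · exact absurd (hx h1) h1
  | smul q x _ hx =>
    by_cases h1 : W.tr Y (z * x) = 0
    · rw [mul_smul_comm, map_smul, h1, smul_zero]
    · exact absurd (hx h1) h1

theorem CSet_zero_slots {s : Fin 0 → ι} {y : (Fin 0 → Tc P) → W.K}
    (hy : y ∈ CSet (X := fun j => (X j).X) P s) : y = 0 := by
  obtain ⟨Y, p, z, hz, rfl⟩ := hy
  funext I
  rw [List.ofFn_zero, List.prod_nil, mul_one]
  have h1 := rad_tr hz algSpan_one
  rwa [mul_one] at h1

end

section

variable {m : ℕ} {X : Fin m → GVar W Γ}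

open Classical in
/-- A flag on all varieties which is given on finitely many ones. -/
noncomputable def flg {r : ℕ} (F : ∀ j : Fin m, Fin r → Submodule W.K (W.H (X j).X))
    (A : GVar W Γ) (i : Fin r) : Submodule W.K (W.H A.X) :=
  if h : ∃ j, X j = A then h.choose_spec ▸ F h.choose i else ⊥

theorem flg_eq (hinj : Function.Injective X) {r : ℕ}
    (F : ∀ j : Fin m, Fin r → Submodule W.K (W.H (X j).X)) (j : Fin m) (i : Fin r) :
    flg F (X j) i = F j i := by
  have h : ∃ j', X j' = X j := ⟨j, rfl⟩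
  rw [flg, dif_pos h]
  have key : ∀ (j' : Fin m) (e : X j' = X j), (e ▸ F j' i : Submodule W.K (W.H (X j).X)) =
      F j i := by
    intro j' e
    obtain rfl := hinj e
    rfl
  exact key _ h.choose_spec

theorem flg_ne {r : ℕ} (F : ∀ j : Fin m, Fin r → Submodule W.K (W.H (X j).X)) {A : GVar W Γ}
    (h : ¬∃ j, X j = A) (i : Fin r) : flg F A i = ⊥ := by
  rw [flg, dif_neg h]

end

theorem sum_ext0 {ι : Type} [Fintype ι] [DecidableEq ι] {X : ι → 𝒱.Obj}
    (P : ∀ j, Piece W (X j)) (j : ι) (a : (P j).J → W.K) :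
    ∑ J : Tc P, ext0 j a J • xc P j J = ∑ p, a p • (P j).x p := by
  rw [Fintype.sum_sigma, Finset.sum_eq_single j]
  · refine Finset.sum_congr rfl fun p _ => ?_
    rw [ext0_same, xc_self]
  · intro j' _ hj
    refine Finset.sum_eq_zero fun p _ => ?_
    rw [ext0_ne _ hj, zero_smul]
  · intro h
    exact absurd (Finset.mem_univ _) h

/-- The flag `0`. -/
theorem isotropicFlag_bot {K A : Type*} [Field K] [Ring A] [Algebra K A] {Γ : Type*} [Group Γ]
    (tr : A →ₗ[K] K) (gr : ℕ → Submodule K A) (U : Submodule K A)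
    (ρ : Γ →* (A ≃ₐ[K] A)) (E : Set (A →ₗ[K] A)) {r : ℕ} {V : Fin r → Submodule K A}
    (hV : ∀ i, V i = ⊥) : IsotropicFlag tr gr U ρ E V where
  anti := fun i j _ => by rw [hV, hV]
  le := fun i => by rw [hV]; exact bot_le
  graded := fun i a ha => by
    rw [hV, Submodule.mem_bot] at ha
    rw [ha]
    exact Submodule.zero_mem _
  stableAct := fun i g a ha => by
    rw [hV, Submodule.mem_bot] at ha ⊢
    rw [ha, map_zero]
  stableUnder := fun i e _ _ a ha => by
    rw [hV, Submodule.mem_bot] at ha ⊢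
    rw [ha, map_zero]
  isotropic := fun i a ha b _ => by
    rw [hV, Submodule.mem_bot] at ha
    rw [ha, zero_mul, map_zero]

/-- **If the conjecture D does not hold, then a determinant class is numerically trivial.** -/
theorem exists_det (hOPT : S_OPT.{v}) (hBA : S_BAEV.{v}) (hDET : S_DET.{v}) (hSWP : S_SWP.{v})
    (hCHG : S_CHG.{v}) (hINV : S_INV.{v}) (hCMB : S_CMB) (hRAT : S_RAT.{v}) (hHM : S_HM.{v})
    (hSGN : S_SGN.{v, v}) (hNULL : S_NULL.{u, v}) (hCTP : S_CTP.{u, v}) (hDOR : S_DOR.{u, v})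
    (hG : GaloisClass χ G) {S : Set (GVar W Γ)} (hSG : S ⊆ G) {ξ : ∀ A : GVar W Γ, W.H A.X}
    (hS : ∀ A ∈ S, IsAbelian χ A (ξ A) ∧ SemisimpleIn (W.gr A.X 1) A.act (CorrOps W A.X))
    {Y : 𝒱.Obj} (hY : IsProductOf (GVar.X '' S) Y) (hn : ¬HomEqNum W Y) :
    ∃ (r : ℕ) (V : ∀ A : GVar W Γ, Fin r → Submodule W.K (W.H A.X)),
      (∀ A ∈ S, IsotropicFlag (twistBy (W.tr A.X) (ξ A) (A.X.dim - 1)) (W.gr A.X)
        (W.gr A.X 1) A.act (CorrOps W A.X) (V A)) ∧
      ∃ (Z : 𝒱.Obj) (δ : W.H Z), DetClass S V Z δ ∧ NumTrivial W Z δ := by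
  classical
  obtain ⟨m, X, hinj, hXS, hXY⟩ := exists_fin_gvar hY
  have h : ∀ j, Grd (X j) := fun j => (hG.galois _ (hSG (hXS j))).gr_mem
  choose P hP hPθ hPs using fun j => exists_goodH hG (hSG (hXS j)) (h j) (hS _ (hXS j)).1
    (hS _ (hXS j)).2
  have hGX : ∀ j, gext (X j) (h j) ∈ GExt G := fun j => ⟨_, hSG (hXS j), h j, rfl⟩
  have hbase : ∀ Z, IsProductOf (Set.range fun j => (X j).X) Z →
      ccl (X := fun j => gext (X j) (h j)) P Z = ⊤ := by
    intro Z hZ
    induction hZ with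
    | base hZ =>
      obtain ⟨j, rfl⟩ := hZ
      have h1 : W.gr (X j).X 1 ≤ ccl (X := fun j => gext (X j) (h j)) P (X j).X := by
        rw [← hPs j, Submodule.span_le]
        rintro _ ⟨q, rfl⟩
        have h2 := ccl_slot (X := fun j => gext (X j) (h j)) (P := P)
          (Y := (X j).X) ⟨j, 𝟙 _, q⟩
        rwa [SlotC.val, W.map_id] at h2
      rw [eq_top_iff]
      intro a _
      have h2 : a ∈ Algebra.adjoin W.K (W.gr (X j).X 1 : Set (W.H (X j).X)) := by
        rw [show Algebra.adjoin W.K (W.gr (X j).X 1 : Set (W.H (X j).X)) = ⊤ from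
          (hS _ (hXS j)).1.gen]
        exact Algebra.mem_top
      induction h2 using Algebra.adjoin_induction with
      | mem x hx => exact h1 hx
      | algebraMap r =>
        rw [Algebra.algebraMap_eq_smul_one]
        exact Submodule.smul_mem _ _ (ccl_alg algSpan_one)
      | add x y _ _ hx hy =>
        exact Submodule.add_mem _ (hx Submodule.mem_top) (hy Submodule.mem_top)
      | mul x y _ _ hx hy =>
        exact ccl_mul (hx Submodule.mem_top) (hy Submodule.mem_top)
    | prod _ _ ih ih' => exact ccl_prod ih ih'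
  -- a tensor
  obtain ⟨ζ, hζ, hζ0⟩ : ∃ ζ ∈ rad W Y, ζ ≠ 0 := by
    by_contra hcon
    push Not at hcon
    exact hn (homEqNum_of_rad (by
      rw [eq_bot_iff]
      exact fun z hz => hcon z hz))
  obtain ⟨c₀, hc₀⟩ : ∃ c, W.tr Y (ζ * c) ≠ 0 := by
    by_contra hcon
    push Not at hcon
    exact hζ0 (W.nondeg ζ hcon)
  obtain ⟨n, c, z, hz, hz0⟩ := exists_CSet (X := fun j => gext (X j) (h j)) (P := P) hζ
    ((hbase Y hXY) ▸ Submodule.mem_top) hc₀
  have hn0 : 0 < n := by
    rcases Nat.eq_zero_or_pos n with rfl | h0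
    · exact absurd (CSet_zero_slots (X := fun j => gext (X j) (h j)) hz) hz0
    · exact h0
  have hgm : ∀ γ : Γ × W.Kˣ, ∃ g : ∀ j, Matrix (P j).J (P j).J W.K,
      ∀ j q, (gext (X j) (h j)).act γ ((P j).x q) = ∑ p, g j p q • (P j).x p := by
    intro γ
    choose g hg using fun j => (hP j).exists_gmat γ
    exact ⟨g, hg⟩
  have hunit : ∀ g ∈ GMat (X := fun j => gext (X j) (h j)) P (Set.univ : Set (Γ × W.Kˣ)),
      ∀ j, IsUnit (g j) := by
    rintro g ⟨γ, -, hγ⟩ j
    obtain ⟨g', hg'⟩ := hgm γ⁻¹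
    exact IsUnit.of_mul_eq_one _ (gmat_inv (X := gext (X j) (h j)) (hγ j) (hg' j))
  have hGQ : ∀ g ∈ GMat (X := fun j => gext (X j) (h j)) P (Set.univ : Set (Γ × W.Kˣ)), ∀ j,
      ∃ a : W.K, a ≠ 0 ∧ (g j)ᵀ * (P j).Q * g j = a • (P j).Q := by
    rintro g ⟨γ, -, hγ⟩ j
    obtain ⟨a, ha, h1⟩ := (hP j).semi γ
    exact ⟨_, mul_ne_zero (inv_ne_zero ha) (pow_ne_zero _ (Units.ne_zero _)),
      gmat_form' (X := gext (X j) (h j)) ((galoisClass_gext hG).galois _ (hGX j)) ha h1 (hγ j)⟩
  have hlc : ∀ j (a : (P j).J → W.K), Fintype.linearCombination W.K (P j).x a =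
      ∑ p, a p • (P j).x p := fun j a => Fintype.linearCombination_apply _ _ _
  have hlinj : ∀ j, Function.Injective (Fintype.linearCombination W.K (P j).x) := by
    intro j a b hab
    rw [hlc, hlc] at hab
    exact (P j).sum_inj hab
  obtain ⟨r, F, hanti, hFG, hFE, hFiso, f, R, _, _, col, lev, ⟨x₀, hx₀⟩, A, _, _, _, zz, hzz,
    ρ, E', hE'⟩ := core5 hOPT hBA hDET hSWP hCHG hINV hCMB hRAT hHM (c := c)
      (Q := fun j => (P j).Q) (ε := fun j => (P j).ε) (fun j => (P j).ε_sq)
      (fun j => (P j).Q_symm) (fun j => (P j).isUnit)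
      (N := CSet (X := fun j => (gext (X j) (h j)).X) P c) (CSet_color P c)
      (fun m z hz => CSet_null P c m z hz)
      (G := GMat (X := fun j => gext (X j) (h j)) P (Set.univ : Set (Γ × W.Kˣ))) hunit hGQ
      (fun g hg y hy => CSet_act (X := fun j => gext (X j) (h j)) P c (galoisClass_gext hG) hGX
        ⟨0, hn0⟩ hg hy) (fun j => (P j).Ealg) (fun j e he => (P j).adj_mem he)
      (fun e he y hy => CSet_corr P c e (fun s => he s (c s)) hy) (fun j => (hP j).nd) hz hz0
  -- the flags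
  let F' : ∀ j, Fin r → Submodule W.K (W.H (X j).X) := fun j i =>
    (F j i).map (Fintype.linearCombination W.K (P j).x)
  have hF'le : ∀ j i, F' j i ≤ W.gr (X j).X 1 := by
    rintro j i _ ⟨a, _, rfl⟩
    rw [hlc, ← hPs j]
    exact sum_mem_span a
  refine ⟨r, flg F', fun A hA => ?_, ?_⟩
  · by_cases hAX : ∃ j, X j = A
    · obtain ⟨j, rfl⟩ := hAX
      rw [show flg F' (X j) = F' j from funext (flg_eq hinj F' j)]
      refine ⟨fun i i' hii => Submodule.map_mono (hanti j hii), hF'le j, fun i a ha => ?_, ?_, ?_,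
        ?_⟩
      · exact Submodule.mem_iSup_of_mem 1 ⟨ha, hF'le j i ha⟩
      · rintro i γ _ ⟨a, ha, rfl⟩
        obtain ⟨g, hg⟩ := hgm (γ, 1)
        have h1 : (X j).act γ (Fintype.linearCombination W.K (P j).x a) =
            (gext (X j) (h j)).act (γ, 1) (Fintype.linearCombination W.K (P j).x a) := by
          change _ = (X j).act γ (tw W (X j).X ((1 : W.Kˣ) : W.K) _)
          rw [Units.val_one, tw_one]
        rw [h1]
        refine ⟨g j *ᵥ a, hFG j i g ⟨(γ, 1), Set.mem_univ _, hg⟩ a ha, ?_⟩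
        rw [hlc, hlc]
        exact (lin_sum (X := gext (X j) (h j))
          (φ := ((gext (X j) (h j)).act (γ, 1)).toLinearMap) (hg j) a).symm
      · rintro i _ ⟨d, hd, rfl⟩ hds _ ⟨a, ha, rfl⟩
        have hds' : ∀ q, W.corr d ((P j).x q) ∈ Submodule.span W.K (Set.range (P j).x) := by
          intro q
          have h1 : (P j).x q ∈ W.gr (X j).X 1 := by
            rw [← hPs j]
            exact Submodule.subset_span ⟨q, rfl⟩
          rw [hPs j]
          exact hds _ h1
        choose m' hm' using fun q => exists_coef (X := X j) (P := P j) (hds' q)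
        refine ⟨(fun p q => m' q p : Matrix (P j).J (P j).J W.K) *ᵥ a,
          hFE j i _ ⟨d, hd, hm'⟩ a ha, ?_⟩
        rw [hlc, hlc]
        exact (lin_sum (X := X j) (φ := W.corr d) hm' a).symm
      · rintro i _ ⟨a, ha, rfl⟩ _ ⟨b, hb, rfl⟩
        change W.tr (X j).X (_ * _ * ξ (X j) ^ ((X j).X.dim - 1)) = 0
        rw [← hPθ j, hlc, hlc, Finset.sum_mul, Finset.sum_mul, map_sum]
        rw [← hFiso j i a ha b hb]
        refine Finset.sum_congr rfl fun p _ => ?_
        rw [smul_mul_assoc, smul_mul_assoc, map_smul, (P j).pair_sum, smul_eq_mul]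
    · exact isotropicFlag_bot _ _ _ _ _ fun i => flg_ne F' hAX i
  -- the product
  let B : Type := {x : R // finrank W.K (F (col x) (lev x)) ≠ 0}
  have : Nonempty B := ⟨⟨x₀, hx₀⟩⟩
  have : Fintype B := Fintype.ofFinite _
  obtain ⟨Z, π, lB, hlB, hmB, hD⟩ := exists_ext' W (fun x : B => (X (col x.1)).X)
  let T : Type := Σ x : R, Fin (finrank W.K (F (col x) (lev x)))
  have hne : ∀ y : T, finrank W.K (F (col y.1) (lev y.1)) ≠ 0 := fun y => y.2.pos.ne'
  let q : ∀ y : T, Z ⟶ (X (col y.1)).X := fun y => π ⟨y.1, hne y⟩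
  let lT : List T := lB.flatMap fun x => List.ofFn fun a => (⟨x.1, a⟩ : T)
  have hlT : lT.Nodup := by
    rw [List.nodup_flatMap]
    refine ⟨fun x _ => List.nodup_ofFn.2 fun a a' haa => eq_of_heq (Sigma.mk.inj haa).2, ?_⟩
    refine hlB.pairwise_of_forall_ne fun x _ x' _ hxx => ?_
    rw [Function.onFun, List.disjoint_left]
    intro y hy hy'
    obtain ⟨a, rfl⟩ := List.mem_ofFn.1 hy
    obtain ⟨a', ha'⟩ := List.mem_ofFn.1 hy'
    exact hxx (Subtype.ext (Sigma.mk.inj ha').1.symm)
  have hmT : ∀ y, y ∈ lT := fun y =>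
    List.mem_flatMap.2 ⟨⟨y.1, hne y⟩, hmB _, List.mem_ofFn.2 ⟨y.2, rfl⟩⟩
  let vec : ∀ y : T, W.H (X (col y.1)).X := fun y =>
    ∑ p, (f (col y.1) (lev y.1) y.2 : (P (col y.1)).J → W.K) p • (P (col y.1)).x p
  let δ : W.H Z := (lT.map fun y => W.map (q y) (vec y)).prod
  have hδ : DetClass S (flg F') Z δ := by
    have h1 : δ = (lB.map fun x => W.map (π x) (List.ofFn fun a => vec ⟨x.1, a⟩).prod).prod := by
      change (lT.map fun y => W.map (q y) (vec y)).prod = _
      rw [map_flatMap_prod]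
      congr 1
      refine List.map_congr_left fun x _ => ?_
      rw [map_list_prod, List.map_ofFn, List.map_ofFn]
      rfl
    rw [h1]
    refine hD (fun Z z => DetClass S (flg F') Z z) (fun _ _ _ _ h h' => DetClass.prod h h') _
      fun x => ?_
    have hvec : ∀ a, vec ⟨x.1, a⟩ = Fintype.linearCombination W.K (P (col x.1)).x
        (f (col x.1) (lev x.1) a : (P (col x.1)).J → W.K) := fun a => (hlc _ _).symm
    refine DetClass.base (X (col x.1)) (hXS _) (lev x.1) _ (Nat.pos_of_ne_zero x.2) _ ?_ ?_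
    · have h2 : (fun a => vec ⟨x.1, a⟩) = (Fintype.linearCombination W.K (P (col x.1)).x) ∘
          ((F (col x.1) (lev x.1)).subtype ∘ f (col x.1) (lev x.1)) := funext hvec
      rw [h2]
      exact ((f (col x.1) (lev x.1)).linearIndependent.map'
        (F (col x.1) (lev x.1)).subtype (Submodule.ker_subtype _)).map' _
          (LinearMap.ker_eq_bot.2 (hlinj _))
    · rw [flg_eq hinj]
      have h2 : (fun a => vec ⟨x.1, a⟩) = (Fintype.linearCombination W.K (P (col x.1)).x) ∘
          ((F (col x.1) (lev x.1)).subtype ∘ f (col x.1) (lev x.1)) := funext hvec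
      rw [h2, Set.range_comp, ← Submodule.map_span, Set.range_comp, ← Submodule.map_span,
        (f (col x.1) (lev x.1)).span_eq, Submodule.map_top, Submodule.range_subtype]
  refine ⟨Z, δ, hδ, ?_⟩
  have key : ∀ u : W.H Z, ((∀ a ∈ algSpan W Z, W.tr Z (a * u) = 0) ∨ u ∈ algSpan W Z) →
      W.tr Z (δ * u) = 0 := by
    intro u hu
    have h1 := hE' (Th P (fun y : T => col y.1) q lT u) (Th_color P _ q u hmT)
      (Th_alt P _ q u hSGN hlT hmT (fun y y' hyy J => ?_) fun y J => ?_)
      (ctr_Th P _ q u hNULL hCTP hlT hmT hzz E' hu)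
    · rw [Th_evn P _ q u hlT hmT] at h1
      simp only [sum_ext0] at h1
      exact h1
    · obtain ⟨x, a⟩ := y
      obtain ⟨x', a'⟩ := y'
      obtain rfl : x = x' := hyy
      rfl
    · refine W.map_mem _ ?_
      rw [xc]
      split_ifs with h2
      · rw [← hPs]
        exact Submodule.subset_span ⟨_, rfl⟩
      · exact Submodule.zero_mem _
  refine ⟨hDOR k 𝒱 ops W Z δ fun u hu => key u (Or.inl hu), fun a ha => ?_⟩
  rw [alg_comm ha]
  exact key a (Or.inr ha)

end Pool.Agent.Y104.WL
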