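import Pool.Agent.Y104.WL.Gm2

/-!
# The conjecture D and determinant classes
-/

open CategoryTheory AlgebraicGeometry Module
open scoped Matrix

set_option linter.unusedSectionVars false

universe u v w

namespace Pool.Agent.Y104.WL

open Pool.Agent.H914 Pool.Agent.H914.VarClass Pool.Agent.H914.VarClass.Obj
  Pool.Agent.H914.WeilCohomology Pool.Agent.H281R3.HT Pool.Agent.TH125.Gal
  Pool.Agent.Y104.Kempf Pool.Agent.Y104.Geo

variable {k : Type u} [Field k] {𝒱 : VarClass k} {ops : CycleOps 𝒱}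
  {W : WeilCohomology.{u, v} ops} {Γ : Type w} [Group Γ] {χ : Γ →* W.Kˣ} {G : Set (GVar W Γ)}

theorem DetClass.isProductOf {S : Set (GVar W Γ)} {r : ℕ}
    {V : ∀ A : GVar W Γ, Fin r → Submodule W.K (W.H A.X)} {Y : 𝒱.Obj} {δ : W.H Y}
    (h : DetClass S V Y δ) : IsProductOf (GVar.X '' S) Y := by
  induction h with
  | base A hA i n hn v hv hs => exact IsProductOf.base ⟨A, hA, rfl⟩
  | prod _ _ ih ih' => exact IsProductOf.prod ih ih'

/-- Determinant classes are not zero. -/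
theorem DetClass.ne_zero {S : Set (GVar W Γ)} {r : ℕ}
    {V : ∀ A : GVar W Γ, Fin r → Submodule W.K (W.H A.X)}
    (hadd : ∀ A ∈ S, AddOn (Pullbacks W (A.X.prod A.X) A.X) (W.map (fst A.X A.X))
      (W.map (snd A.X A.X)) (W.gr A.X 1))
    (hV : ∀ A ∈ S, ∀ i, V A i ≤ W.gr A.X 1) {Y : 𝒱.Obj} {δ : W.H Y}
    (h : DetClass S V Y δ) : δ ≠ 0 := by
  induction h with
  | base A hA i n hn v hv hs =>
    obtain ⟨_, ⟨m, rfl⟩, hm⟩ := hadd A hA
    refine Y779.WL.avn W m hm n v (fun a => hV A hA i ?_) hv (Or.inl hn.ne')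
    rw [← hs]
    exact Submodule.subset_span ⟨a, rfl⟩
  | prod _ _ ih ih' => exact Y70.WL.ext_ne_zero ih ih'

/-- **The conjecture D for products of abelian varieties and determinant classes.** -/
theorem homEqNum_iff_det (hOPT : S_OPT.{v}) (hBA : S_BAEV.{v}) (hDET : S_DET.{v})
    (hSWP : S_SWP.{v}) (hCHG : S_CHG.{v}) (hINV : S_INV.{v}) (hCMB : S_CMB) (hRAT : S_RAT.{v})
    (hHM : S_HM.{v}) (hSGN : S_SGN.{v, v}) (hNULL : S_NULL.{u, v}) (hCTP : S_CTP.{u, v})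
    (hDOR : S_DOR.{u, v}) (hG : GaloisClass χ G) {S : Set (GVar W Γ)} (hSG : S ⊆ G)
    {ξ : ∀ A : GVar W Γ, W.H A.X}
    (hS : ∀ A ∈ S, IsAbelian χ A (ξ A) ∧ SemisimpleIn (W.gr A.X 1) A.act (CorrOps W A.X)) :
    (∀ Y, IsProductOf (GVar.X '' S) Y → ∀ Y', Covers W Y Y' → HomEqNum W Y') ↔
      ∀ (r : ℕ) (V : ∀ A : GVar W Γ, Fin r → Submodule W.K (W.H A.X)),
        (∀ A ∈ S, IsotropicFlag (twistBy (W.tr A.X) (ξ A) (A.X.dim - 1)) (W.gr A.X)
          (W.gr A.X 1) A.act (CorrOps W A.X) (V A)) →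
        ∀ (Y : 𝒱.Obj) (δ : W.H Y), DetClass S V Y δ → ¬NumTrivial W Y δ := by
  constructor
  · rintro h r V hV Y δ hδ ⟨h1, h2⟩
    have hY : HomEqNum W Y := h Y hδ.isProductOf Y ⟨𝟙 Y, 1, algSpan_one, W.push_id 1⟩
    refine hδ.ne_zero (fun A hA => (hS A hA).1.add) (fun A hA => (hV A hA).le) ?_
    have h3 : δ ∈ rad W Y := mem_rad.2 ⟨h1, fun a ha => by
      rw [← alg_comm ha]
      exact h2 a ha⟩
    rwa [rad_eq_bot hY, Submodule.mem_bot] at h3
  · intro h Y hY Y' hY'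
    refine homEqNum_of_covers ?_ hY'
    by_contra hn
    obtain ⟨r, V, hV, Z, δ, hδ, h1⟩ := exists_det hOPT hBA hDET hSWP hCHG hINV hCMB hRAT hHM
      hSGN hNULL hCTP hDOR hG hSG hS hY hn
    exact h r V hV Z δ hδ h1

end Pool.Agent.Y104.WL
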