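import Pool.Agent.Y104.Pub3

/-!
# The projections from a power
-/

open CategoryTheory AlgebraicGeometry

universe u

namespace Pool.Agent.Y104.WL

open Pool.Agent.H914 Pool.Agent.H914.VarClass Pool.Agent.H914.VarClass.Obj

variable {k : Type u} [Field k] {𝒱 : VarClass k}

/-- The power `X ^ (n + 1)`. -/
noncomputable def pw (X : 𝒱.Obj) : ℕ → 𝒱.Obj
  | 0 => X
  | n + 1 => X.prod (pw X n)

/-- The projections from the power `X ^ (n + 1)` to `X`. -/
noncomputable def pwπ (X : 𝒱.Obj) : ∀ n : ℕ, Fin (n + 1) → (pw X n ⟶ X)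
  | 0 => fun _ => 𝟙 X
  | n + 1 => Fin.cases (fst X (pw X n)) fun i => snd X (pw X n) ≫ pwπ X n i

end Pool.Agent.Y104.WL
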