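import Pool.Agent.Y104.WL.Pub
import Pool.Agent.Y104.WL.Pw
import Pool.Agent.Y104.Par

/-!
# Determinant classes on products of arbitrary varieties: definition
-/

open CategoryTheory AlgebraicGeometry

universe u v w

namespace Pool.Agent.Y104.WL

open Pool.Agent.H914 Pool.Agent.H914.VarClass Pool.Agent.H914.VarClass.Obj
  Pool.Agent.H914.WeilCohomology Pool.Agent.H281R3.HT Pool.Agent.TH125.Gal
  Pool.Agent.Y104.Geo

variable {k : Type u} [Field k] {𝒱 : VarClass k} {ops : CycleOps 𝒱}

/-- The antisymmetrized exterior product of the classes `v 0, …, v n`, a class on the power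
`X ^ (n + 1)`: the sum over all permutations `σ` of `sign σ` times the product of the pull-backs of
the `v (σ a)` by the projections. -/
noncomputable def altClass (W : WeilCohomology.{u, v} ops) (X : 𝒱.Obj) (n : ℕ)
    (v : Fin (n + 1) → W.H X) : W.H (pw X n) :=
  ∑ σ : Equiv.Perm (Fin (n + 1)), ((Equiv.Perm.sign σ : ℤ) : W.K) •
    (List.ofFn fun a => W.map (pwπ X n a) (v (σ a))).prod

variable {W : WeilCohomology.{u, v} ops} {Γ : Type w} [Group Γ]

/-- The determinant classes given by a flag `V X 0 ⊇ V X 1 ⊇ ⋯` of homogeneous subspaces of the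
cohomology of every member `X` of `S ∪ S'`: these are

* the products `v 0 * v 1 * ⋯`, classes on `A` itself, where `A` is in `S'` and `v 0, v 1, …` is a
  basis of a member of the flag of `A` which is not zero;
* the antisymmetrized products of `v 0, v 1, …`, classes on powers of `X`, where `X` is in `S` and
  `v 0, v 1, …` is a basis, not empty, of the even part or of the odd part of a member of the flag
  of `X`;
* their multiples by constants different from zero, and the exterior products of such classes. -/
inductive DetClass2 (S S' : Set (GVar W Γ)) {r : ℕ}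
    (V : ∀ X : GVar W Γ, Fin r → Submodule W.K (W.H X.X)) : ∀ Y : 𝒱.Obj, W.H Y → Prop
  | abel (A : GVar W Γ) (hA : A ∈ S') (i : Fin r) (n : ℕ) (hn : 0 < n) (v : Fin n → W.H A.X)
      (hv : LinearIndependent W.K v) (hs : Submodule.span W.K (Set.range v) = V A i) :
      DetClass2 S S' V A.X (List.ofFn v).prod
  | alt (X : GVar W Γ) (hX : X ∈ S) (i : Fin r) (e n : ℕ) (v : Fin (n + 1) → W.H X.X)
      (hv : LinearIndependent W.K v)
      (hs : Submodule.span W.K (Set.range v) = V X i ⊓ hpar W X.X e) :
      DetClass2 S S' V (pw X.X n) (altClass W X.X n v)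
  | smul {Y : 𝒱.Obj} {δ : W.H Y} (c : W.K) (hc : c ≠ 0) (h : DetClass2 S S' V Y δ) :
      DetClass2 S S' V Y (c • δ)
  | prod {Y Y' : 𝒱.Obj} {δ : W.H Y} {δ' : W.H Y'} (h : DetClass2 S S' V Y δ)
      (h' : DetClass2 S S' V Y' δ') :
      DetClass2 S S' V (Y.prod Y') (W.map (fst Y Y') δ * W.map (snd Y Y') δ')

/-- Antisymmetrized products of linearly independent classes are not zero. -/
def S_ALT : Prop :=
  ∀ (k : Type u) [Field k] (𝒱 : VarClass k) (ops : CycleOps 𝒱) (W : WeilCohomology.{u, v} ops)
    (X : 𝒱.Obj) (n : ℕ) (v : Fin (n + 1) → W.H X), LinearIndependent W.K v →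
    altClass W X n v ≠ 0

end Pool.Agent.Y104.WL
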