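import Pool.Agent.Y104.WL.Gm2
import Pool.Agent.Y104.WL.Pu2

/-!
# Antisymmetrization in the blocks
-/

open CategoryTheory AlgebraicGeometry Module
open scoped Matrix

set_option linter.unusedSectionVars false

universe u v w

namespace Pool.Agent.Y104.WL

open Pool.Agent.H914 Pool.Agent.H914.VarClass Pool.Agent.H914.VarClass.Obj
  Pool.Agent.H914.WeilCohomology Pool.Agent.H281R3.HT Pool.Agent.TH125.Gal
  Pool.Agent.Y104.Kempf Pool.Agent.Y104.Geo

variable {k : Type u} [Field k] {𝒱 : VarClass k} {ops : CycleOps 𝒱}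
  {W : WeilCohomology.{u, v} ops}

/-- Expansion of a product of sums. -/
theorem list_sum_expand {K H : Type*} [Field K] [Ring H] [Algebra K H] {B : Type} [Fintype B]
    [DecidableEq B] {κ : B → Type} [∀ x, Fintype (κ x)] {l : List B} (hl : l.Nodup)
    (hm : ∀ x, x ∈ l) (a : ∀ x, κ x → H) :
    (l.map fun x => ∑ s, a x s).prod = ∑ s : ∀ x, κ x, (l.map fun x => a x (s x)).prod := by
  classical
  let e : Fin l.length ≃ B := List.Nodup.getEquivOfForallMemList l hl hm
  have hle : ∀ f : B → H, l.map f = List.ofFn fun i => f (e i) := by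
    intro f
    conv_lhs => rw [← List.ofFn_get l]
    rw [List.map_ofFn]
    rfl
  rw [hle]
  have h2 := (MultilinearMap.mkPiAlgebraFin K l.length H).map_sum (fun i s => a (e i) s)
  simp only [MultilinearMap.mkPiAlgebraFin_apply] at h2
  rw [h2]
  refine (Fintype.sum_equiv (Equiv.piCongrLeft κ e) _ _ fun s => ?_)
  rw [hle]
  congr 2
  funext i
  rw [Equiv.piCongrLeft_apply_apply]

section

variable {R : Type} [Fintype R] [DecidableEq R] {rk : R → ℕ}

/-- The slots. -/
abbrev Sl (rk : R → ℕ) : Type := Σ x : R, Fin (rk x)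

/-- A permutation in every block. -/
def bp (σ : ∀ x, Equiv.Perm (Fin (rk x))) : Equiv.Perm (Sl rk) where
  toFun y := ⟨y.1, σ y.1 y.2⟩
  invFun y := ⟨y.1, (σ y.1).symm y.2⟩
  left_inv y := by
    obtain ⟨x, a⟩ := y
    simp
  right_inv y := by
    obtain ⟨x, a⟩ := y
    simp

/-- The sign. -/
def sg (σ : ∀ x, Equiv.Perm (Fin (rk x))) : ℤ := ∏ x, (Equiv.Perm.sign (σ x) : ℤ)

/-- The antisymmetrization in every block. -/
def asy {K β : Type*} [Field K] (Θ : (Sl rk → β) → K) (I : Sl rk → β) : K :=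
  ∑ σ : ∀ x, Equiv.Perm (Fin (rk x)), ((sg σ : ℤ) : K) * Θ fun y => I (bp σ y)

theorem asy_alt (hSWP : S_SWP.{v}) {K : Type v} [Field K] {β : Type} (Θ : (Sl rk → β) → K) :
    AltOn Sigma.fst (asy Θ) := by
  refine hSWP K _ β R Sigma.fst _ ?_
  rintro ⟨x, a⟩ ⟨x', a'⟩ hne h I
  obtain rfl : x = x' := h
  have hne' : a ≠ a' := fun h1 => hne (by rw [h1])
  -- the transposition in the block `x`
  let τ : ∀ x, Equiv.Perm (Fin (rk x)) := Function.update 1 x (Equiv.swap a a')
  have hτ : bp τ = Equiv.swap (⟨x, a⟩ : Sl rk) ⟨x, a'⟩ := by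
    ext1 y
    obtain ⟨x₁, b⟩ := y
    change (⟨x₁, τ x₁ b⟩ : Sl rk) = _
    by_cases hx : x₁ = x
    · subst hx
      simp only [τ, Function.update_self]
      have hinj : Function.Injective (fun b : Fin (rk x₁) => (⟨x₁, b⟩ : Sl rk)) :=
        fun b b' hb => eq_of_heq (Sigma.mk.inj hb).2
      exact (hinj.swap_apply a a' b).symm
    · simp only [τ, Function.update_of_ne hx, Pi.one_apply, Equiv.Perm.one_apply]
      rw [Equiv.swap_apply_of_ne_of_ne]
      · exact fun h1 => hx (Sigma.mk.inj h1).1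
      · exact fun h1 => hx (Sigma.mk.inj h1).1
  have hsg : sg τ = -1 := by
    rw [sg, Finset.prod_eq_single x]
    · simp only [τ, Function.update_self, Equiv.Perm.sign_swap hne']
      rfl
    · intro x₁ _ hx
      simp only [τ, Function.update_of_ne hx, Pi.one_apply, Equiv.Perm.sign_one]
      rfl
    · intro h1
      exact absurd (Finset.mem_univ _) h1
  have hmul : ∀ σ : ∀ x, Equiv.Perm (Fin (rk x)), sg (τ * σ) = -sg σ := by
    intro σ
    have h1 : sg (τ * σ) = sg τ * sg σ := by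
      simp only [sg]
      rw [← Finset.prod_mul_distrib]
      refine Finset.prod_congr rfl fun x _ => ?_
      rw [Pi.mul_apply, Equiv.Perm.sign_mul]
      push_cast
      rfl
    rw [h1, hsg, neg_one_mul]
  have hbp : ∀ (σ : ∀ x, Equiv.Perm (Fin (rk x))) y, bp (τ * σ) y = bp τ (bp σ y) :=
    fun σ y => rfl
  rw [← hτ]
  unfold asy
  rw [← Equiv.sum_comp (Equiv.mulLeft τ), ← Finset.sum_neg_distrib]
  refine Finset.sum_congr rfl fun σ _ => ?_
  change ((sg (τ * σ) : ℤ) : K) * Θ (fun y => I (bp τ (bp (τ * σ) y))) =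
    -(((sg σ : ℤ) : K) * Θ fun y => I (bp σ y))
  have h2 : ∀ y, bp τ (bp (τ * σ) y) = bp σ y := by
    intro y
    rw [hbp, hτ, Equiv.swap_apply_self]
  simp only [h2]
  rw [hmul]
  push_cast
  ring

end

section

variable {ι : Type} [Fintype ι] [DecidableEq ι] {X : ι → 𝒱.Obj} (P : ∀ j, Piece W (X j))
  {R : Type} [Fintype R] [DecidableEq R] {rk : R → ℕ} (col : R → ι) {Z : 𝒱.Obj}
  (q : ∀ y : Sl rk, Z ⟶ X (col y.1)) (l : List (Sl rk)) (u : W.H Z)

variable {l}

theorem asy_color (hm : ∀ x, x ∈ l) (I : Sl rk → Tc P)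
    (hI : asy (Th P (fun y : Sl rk => col y.1) q l u) I ≠ 0) (y : Sl rk) :
    (I y).1 = col y.1 := by
  obtain ⟨σ, -, hσ⟩ := Finset.exists_ne_zero_of_sum_ne_zero hI
  have h1 := Th_color P (fun y : Sl rk => col y.1) q u hm _ (right_ne_zero_of_mul hσ)
    ((bp σ).symm y)
  rw [Equiv.apply_symm_apply] at h1
  exact h1

/-- A permutation of the arguments. -/
theorem Th_perm (σ : ∀ x, Equiv.Perm (Fin (rk x))) (I : Sl rk → Tc P) :
    Th P (fun y : Sl rk => col y.1) q l u (fun y => I (bp σ y)) =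
      Th P (fun y : Sl rk => col y.1) (fun z => q ⟨z.1, (σ z.1).symm z.2⟩) (l.map (bp σ)) u I := by
  unfold Th
  rw [List.map_map]
  congr 3
  refine List.map_congr_left fun y _ => ?_
  obtain ⟨x, a⟩ := y
  change W.map (q ⟨x, a⟩) (xc P (col x) (I ⟨x, σ x a⟩)) =
    W.map (q ⟨x, (σ x).symm (σ x a)⟩) (xc P (col x) (I ⟨x, σ x a⟩))
  rw [Equiv.symm_apply_apply]

/-- The contractions vanish. -/
theorem ctr_asy (hNULL : S_NULL.{u, v}) (hCTP : S_CTP.{u, v}) (hl : l.Nodup)
    (hm : ∀ x, x ∈ l) {n : ℕ} {c : Fin n → ι} {A : Type} [Fintype A] [DecidableEq A] [Nonempty A]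
    {zz : A → (Fin n → Tc P) → W.K} (hzz : ∀ a, zz a ∈ CSet P c) {r : ℕ}
    (E : Fin r × Fin 2 ≃ (A × Fin n) ⊕ Sl rk)
    (hu : (∀ a ∈ algSpan W Z, W.tr Z (a * u) = 0) ∨ u ∈ algSpan W Z) :
    ctr (Matrix.blockDiagonal' fun j => ((P j).Q)⁻¹) zz E
      (asy (Th P (fun y : Sl rk => col y.1) q l u)) = 0 := by
  classical
  have hlin : ctr (Matrix.blockDiagonal' fun j => ((P j).Q)⁻¹) zz E
      (asy (Th P (fun y : Sl rk => col y.1) q l u)) =
      ∑ σ : ∀ x, Equiv.Perm (Fin (rk x)), ((sg σ : ℤ) : W.K) *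
        ctr (Matrix.blockDiagonal' fun j => ((P j).Q)⁻¹) zz E
          (fun I => Th P (fun y : Sl rk => col y.1) q l u fun y => I (bp σ y)) := by
    simp only [ctr, Finset.mul_sum]
    rw [Finset.sum_comm]
    refine Finset.sum_congr rfl fun I _ => ?_
    rw [asy, Finset.mul_sum, Finset.sum_mul]
    refine Finset.sum_congr rfl fun σ _ => ?_
    ring
  rw [hlin]
  refine Finset.sum_eq_zero fun σ _ => ?_
  have h1 : (fun I => Th P (fun y : Sl rk => col y.1) q l u fun y => I (bp σ y)) =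
      Th P (fun y : Sl rk => col y.1) (fun z => q ⟨z.1, (σ z.1).symm z.2⟩) (l.map (bp σ)) u :=
    funext fun I => Th_perm P col q u σ I
  rw [h1, ctr_Th P (fun y : Sl rk => col y.1) _ u hNULL hCTP (hl.map (bp σ).injective)
    (fun y => List.mem_map.2 ⟨(bp σ).symm y, hm _, Equiv.apply_symm_apply _ _⟩) hzz E hu,
    mul_zero]

/-- The value. -/
theorem evn_asy (hl : l.Nodup) (hm : ∀ x, x ∈ l) (f : ∀ y : Sl rk, (P (col y.1)).J → W.K) :
    evn (L := W.K) (asy (Th P (fun y : Sl rk => col y.1) q l u)) (fun y => ext0 (col y.1) (f y)) =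
      W.tr Z ((∑ σ : ∀ x, Equiv.Perm (Fin (rk x)), ((sg σ : ℤ) : W.K) • (l.map fun y =>
        W.map (q y) (∑ p, f ⟨y.1, σ y.1 y.2⟩ p • (P (col y.1)).x p)).prod) * u) := by
  classical
  have hlin : evn (L := W.K) (asy (Th P (fun y : Sl rk => col y.1) q l u))
      (fun y => ext0 (col y.1) (f y)) =
      ∑ σ : ∀ x, Equiv.Perm (Fin (rk x)), ((sg σ : ℤ) : W.K) *
        evn (L := W.K) (fun I => Th P (fun y : Sl rk => col y.1) q l u fun y => I (bp σ y))
          (fun y => ext0 (col y.1) (f y)) := by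
    simp only [evn, Finset.mul_sum]
    rw [Finset.sum_comm]
    refine Finset.sum_congr rfl fun I _ => ?_
    rw [asy, map_sum, Finset.mul_sum]
    refine Finset.sum_congr rfl fun σ _ => ?_
    rw [Algebra.algebraMap_self, RingHom.id_apply, RingHom.id_apply]
    ring
  rw [hlin, Finset.sum_mul, map_sum]
  refine Finset.sum_congr rfl fun σ _ => ?_
  rw [evn_equiv (bp σ) (Th P (fun y : Sl rk => col y.1) q l u), Th_evn P _ q u hl hm,
    smul_mul_assoc, map_smul, smul_eq_mul]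
  congr 5
  funext y
  obtain ⟨x, a⟩ := y
  congr 1
  exact sum_ext0 P (col x) (f ⟨x, σ x a⟩)

end

end Pool.Agent.Y104.WL
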