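import Pool.Agent.Y104.WL.Cor

/-!
# Blocks of positive length
-/

open Finset Module
open scoped Matrix

set_option linter.unusedSectionVars false

universe u v w

namespace Pool.Agent.Y104.WL

open Pool.Agent.Y104.Kempf

section

variable {K : Type u} [Field K] {β : Type} [Fintype β] [DecidableEq β] {R : Type} [Fintype R]
  [DecidableEq R] {rk : R → ℕ}

/-- The slots of the blocks of positive length. -/
def posE (rk : R → ℕ) : (Σ x : {x : R // rk x ≠ 0}, Fin (rk x.1)) ≃ (Σ x : R, Fin (rk x)) where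
  toFun y := ⟨y.1.1, y.2⟩
  invFun y := ⟨⟨y.1, y.2.pos.ne'⟩, y.2⟩
  left_inv _ := rfl
  right_inv _ := rfl

theorem altOn_pos {Ξ : ((Σ x : {x : R // rk x ≠ 0}, Fin (rk x.1)) → β) → K}
    (h : AltOn Sigma.fst Ξ) :
    AltOn Sigma.fst (fun I : (Σ x : R, Fin (rk x)) → β => Ξ fun y => I (posE rk y)) := by
  intro σ hσ I
  let τ : Equiv.Perm (Σ x : {x : R // rk x ≠ 0}, Fin (rk x.1)) :=
    (posE rk).trans (σ.trans (posE rk).symm)
  have h1 := h τ (fun y => by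
    apply Subtype.ext
    exact hσ (posE rk y)) (fun y => I (posE rk y))
  have h2 : Equiv.Perm.sign τ = Equiv.Perm.sign σ := Equiv.Perm.sign_symm_trans_trans σ
    (posE rk).symm
  rw [h2] at h1
  refine Eq.trans ?_ h1
  change Ξ (fun y => I (σ (posE rk y))) = Ξ (fun y => I (posE rk ((posE rk).symm (σ (posE rk y)))))
  simp only [Equiv.apply_symm_apply]

theorem ctr_pos {A S : Type} [Fintype A] [DecidableEq A] [Fintype S] [DecidableEq S]
    [Fintype {x : R // rk x ≠ 0}] (M : Matrix β β K)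
    (zz : A → (S → β) → K) {r : ℕ} (E : Fin r × Fin 2 ≃ (A × S) ⊕ (Σ x : R, Fin (rk x)))
    (Ξ : ((Σ x : {x : R // rk x ≠ 0}, Fin (rk x.1)) → β) → K) :
    ctr M zz E (fun I => Ξ fun y => I (posE rk y)) =
      ctr M zz (E.trans (Equiv.sumCongr (Equiv.refl _) (posE rk).symm)) Ξ := by
  classical
  unfold ctr
  let e : (A × S) ⊕ (Σ x : R, Fin (rk x)) ≃
      (A × S) ⊕ (Σ x : {x : R // rk x ≠ 0}, Fin (rk x.1)) :=
    Equiv.sumCongr (Equiv.refl _) (posE rk).symm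
  refine Fintype.sum_equiv (Equiv.arrowCongr e (Equiv.refl β)) _ _ fun I => ?_
  have h1 : ∀ x, (Equiv.arrowCongr e (Equiv.refl β)) I (e x) = I x := fun x => by
    simp [Equiv.arrowCongr]
  have h2 : ∀ x, (Equiv.arrowCongr e (Equiv.refl β)) I (Sum.inl x) = I (Sum.inl x) :=
    fun x => h1 (Sum.inl x)
  have h3 : ∀ y, (Equiv.arrowCongr e (Equiv.refl β)) I (Sum.inr y) =
      I (Sum.inr (posE rk y)) := fun y => by
    have h4 := h1 (Sum.inr (posE rk y))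
    rw [← h4]
    congr 1
  simp only [h2, h3]
  congr 1
  refine Finset.prod_congr rfl fun l _ => ?_
  have h4 : ∀ x, (E.trans e) x = e (E x) := fun x => rfl
  change _ = M ((Equiv.arrowCongr e (Equiv.refl β)) I (e (E (l, 0))))
    ((Equiv.arrowCongr e (Equiv.refl β)) I (e (E (l, 1))))
  rw [h1, h1]

end

section

variable {ι : Type} [Fintype ι] [DecidableEq ι] {b : ι → Type} [∀ i, Fintype (b i)]
  [∀ i, DecidableEq (b i)] {S : Type} [Fintype S] [DecidableEq S] {c : S → ι}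
  {K : Type u} [Field K]

/-- **Determinant tensors of the optimal flag, with blocks of positive length.** -/
theorem core6 (hOPT : S_OPT.{u}) (hBA : S_BAEV.{u}) (hDET : S_DET.{u}) (hSWP : S_SWP.{u})
    (hCHG : S_CHG.{u}) (hINV : S_INV.{u}) (hCMB : S_CMB) (hRAT : S_RAT.{u}) (hHM : S_HM.{u})
    [CharZero K] {Q : ∀ j, Matrix (b j) (b j) K} {ε : ι → K}
    (hε1 : ∀ j, ε j * ε j = 1) (hε : ∀ j, (Q j)ᵀ = ε j • Q j) (hQ : ∀ j, IsUnit (Q j))
    {N : Set ((S → Σ j, b j) → K)} (hc : ∀ z ∈ N, ∀ I, z I ≠ 0 → ∀ s, (I s).1 = c s)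
    (hN : ∀ (m : ℕ) (z : Fin (m + 1) → (S → Σ j, b j) → K), (∀ i, z i ∈ N) →
      NullT (Matrix.blockDiagonal' fun j => (Q j)⁻¹) (tp z))
    {G : Set (∀ j, Matrix (b j) (b j) K)} (hG : ∀ g ∈ G, ∀ j, IsUnit (g j))
    (hGQ : ∀ g ∈ G, ∀ j, ∃ a : K, a ≠ 0 ∧ (g j)ᵀ * Q j * g j = a • Q j)
    (hGN : ∀ g ∈ G, ∀ z ∈ N, gtact (fun _ => Matrix.blockDiagonal' fun j => (g j)ᵀ) z ∈ N)
    (E : ∀ j, Subalgebra K (Matrix (b j) (b j) K))
    (hadj : ∀ j, ∀ e ∈ E j, (Q j)⁻¹ * eᵀ * Q j ∈ E j)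
    (hEN : ∀ e : S → ∀ j, Matrix (b j) (b j) K, (∀ s j, e s j ∈ E j) → ∀ z ∈ N,
      gtact (fun s => Matrix.blockDiagonal' fun j => (e s j)ᵀ) z ∈ N)
    (hnd : ∀ j, ∀ x ∈ E j, (∀ y ∈ E j, (x * y).trace = 0) → x = 0)
    {z : (S → Σ j, b j) → K} (hz : z ∈ N) (hz0 : z ≠ 0) :
    ∃ (k : ℕ) (F : ∀ j, Fin k → Submodule K (b j → K)), (∀ j, Antitone (F j)) ∧
      (∀ j i, ∀ g ∈ G, ∀ x ∈ F j i, g j *ᵥ x ∈ F j i) ∧
      (∀ j i, ∀ e ∈ E j, ∀ x ∈ F j i, e *ᵥ x ∈ F j i) ∧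
      (∀ j i, ∀ x ∈ F j i, ∀ y ∈ F j i, x ⬝ᵥ (Q j *ᵥ y) = 0) ∧
      ∃ (f : ∀ j i, Basis (Fin (finrank K (F j i))) K (F j i)) (R : Type) (_ : Fintype R)
        (_ : DecidableEq R) (_ : Nonempty R) (col : R → ι) (lev : R → Fin k)
        (_ : ∀ x, finrank K (F (col x) (lev x)) ≠ 0) (A : Type) (_ : Fintype A)
        (_ : DecidableEq A) (_ : Nonempty A) (zz : A → (S → Σ j, b j) → K)
        (_ : ∀ a, zz a ∈ N) (r : ℕ)
        (E' : Fin r × Fin 2 ≃ (A × S) ⊕ (Σ x : R, Fin (finrank K (F (col x) (lev x))))),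
        ∀ Ξ : ((Σ x : R, Fin (finrank K (F (col x) (lev x)))) → Σ j, b j) → K,
          (∀ I, Ξ I ≠ 0 → ∀ y, (I y).1 = col y.1) → AltOn Sigma.fst Ξ →
          ctr (Matrix.blockDiagonal' fun j => (Q j)⁻¹) zz E' Ξ = 0 →
          evn (L := K) Ξ (fun y => ext0 (col y.1)
            ((f (col y.1) (lev y.1) y.2 : b (col y.1) → K))) = 0 := by
  classical
  obtain ⟨k, F, h1, h2, h3, h4, f, R, _, _, col, lev, ⟨x₀, hx₀⟩, A, _, _, _, zz, hzz, r, E', h⟩ :=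
    core5 hOPT hBA hDET hSWP hCHG hINV hCMB hRAT hHM hε1 hε hQ hc hN hG hGQ hGN E hadj hEN hnd
      hz hz0
  let rk : R → ℕ := fun x => finrank K (F (col x) (lev x))
  refine ⟨k, F, h1, h2, h3, h4, f, {x : R // rk x ≠ 0}, inferInstance, inferInstance,
    ⟨⟨x₀, hx₀⟩⟩, fun x => col x.1, fun x => lev x.1, fun x => x.2, A, inferInstance,
    inferInstance, inferInstance, zz, hzz, r,
    E'.trans (Equiv.sumCongr (Equiv.refl _) (posE rk).symm), fun Ξ hΞc hΞa hΞ0 => ?_⟩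
  have h5 := h (fun I => Ξ fun y => I (posE rk y)) (fun I hI y => hΞc _ hI ((posE rk).symm y))
    (altOn_pos hΞa) (by
      rw [ctr_pos]
      exact hΞ0)
  have h6 := evn_equiv (L := K) (posE rk) Ξ (fun y => ext0 (col y.1)
    ((f (col y.1) (lev y.1) y.2 : b (col y.1) → K)))
  exact h6.symm.trans h5

end

end Pool.Agent.Y104.WL
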