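import Pool.Agent.Y104.WL.Gn1
import Pool.Agent.Y104.WL.Gn2

/-!
# The classes of the blocks
-/

open CategoryTheory AlgebraicGeometry Module
open scoped Matrix

set_option linter.unusedSectionVars false

universe u v w

namespace Pool.Agent.Y104.WL

open Pool.Agent.H914 Pool.Agent.H914.VarClass Pool.Agent.H914.VarClass.Obj
  Pool.Agent.H914.WeilCohomology Pool.Agent.H281R3.HT Pool.Agent.TH125.Gal
  Pool.Agent.Y104.Kempf Pool.Agent.Y104.Geo

variable {k : Type u} [Field k] {𝒱 : VarClass k} {ops : CycleOps 𝒱}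
  {W : WeilCohomology.{u, v} ops} {Γ : Type w} [Group Γ]

/-- Scalars in a product. -/
theorem list_smul {K H : Type*} [Field K] [Ring H] [Algebra K H] {B : Type} [Fintype B]
    [DecidableEq B] {l : List B} (hl : l.Nodup) (hm : ∀ x, x ∈ l) (c : B → K) (a : B → H) :
    (l.map fun x => c x • a x).prod = (∏ x, c x) • (l.map a).prod := by
  classical
  let e : Fin l.length ≃ B := List.Nodup.getEquivOfForallMemList l hl hm
  have hle : ∀ f : B → H, l.map f = List.ofFn fun i => f (e i) := by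
    intro f
    conv_lhs => rw [← List.ofFn_get l]
    rw [List.map_ofFn]
    rfl
  have h3 := (MultilinearMap.mkPiAlgebraFin K l.length H).map_smul_univ
    (fun s => c (e s)) (fun s => a (e s))
  simp only [MultilinearMap.mkPiAlgebraFin_apply] at h3
  rw [hle, h3, hle, ← Equiv.prod_comp e]

section

variable {ι : Type} {X : ι → 𝒱.Obj} {R : Type} [Fintype R] [DecidableEq R] {rk : R → ℕ}
  (col : R → ι) {Z : 𝒱.Obj} (Zx : R → 𝒱.Obj) (π : ∀ x, Z ⟶ Zx x)
  (p : ∀ x, Fin (rk x) → (Zx x ⟶ X (col x))) {lB : List R}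

/-- The class is a product of classes of the blocks. -/
theorem asy_fact (hl : lB.Nodup) (hm : ∀ x, x ∈ lB) (vec : ∀ y : Sl rk, W.H (X (col y.1))) :
    ∑ σ : ∀ x, Equiv.Perm (Fin (rk x)), ((sg σ : ℤ) : W.K) •
      ((lB.flatMap fun x => List.ofFn fun a => (⟨x, a⟩ : Sl rk)).map fun y =>
        W.map (π y.1 ≫ p y.1 y.2) (vec ⟨y.1, σ y.1 y.2⟩)).prod =
    (lB.map fun x => W.map (π x) (∑ s : Equiv.Perm (Fin (rk x)),
      ((Equiv.Perm.sign s : ℤ) : W.K) •
        (List.ofFn fun a => W.map (p x a) (vec ⟨x, s a⟩)).prod)).prod := by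
  have h1 : (lB.map fun x => W.map (π x) (∑ s : Equiv.Perm (Fin (rk x)),
      ((Equiv.Perm.sign s : ℤ) : W.K) •
        (List.ofFn fun a => W.map (p x a) (vec ⟨x, s a⟩)).prod)) =
      lB.map fun x => ∑ s : Equiv.Perm (Fin (rk x)), ((Equiv.Perm.sign s : ℤ) : W.K) •
        W.map (π x) (List.ofFn fun a => W.map (p x a) (vec ⟨x, s a⟩)).prod := by
    refine List.map_congr_left fun x _ => ?_
    rw [map_sum]
    exact Finset.sum_congr rfl fun s _ => map_smul _ _ _
  rw [h1, list_sum_expand (K := W.K) hl hm]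
  refine Finset.sum_congr rfl fun σ _ => ?_
  rw [list_smul (K := W.K) hl hm, map_flatMap_prod]
  congr 1
  · rw [sg]
    push_cast
    rfl
  · congr 1
    refine List.map_congr_left fun x _ => ?_
    rw [map_list_prod, List.map_ofFn, List.map_ofFn]
    congr 2
    funext a
    exact W.map_comp _ _ _

end

/-- Odd classes. -/
theorem sum_sgn_odd (hSGN : S_SGN.{v, v}) {Y : 𝒱.Obj} (n : ℕ) (w : Fin n → W.H Y)
    (hw : ∀ a, w a ∈ W.gr Y 1) :
    ∑ s : Equiv.Perm (Fin n), ((Equiv.Perm.sign s : ℤ) : W.K) •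
      (List.ofFn fun a => W.map (𝟙 Y) (w (s a))).prod =
    ((Nat.factorial n : ℕ) : W.K) • (List.ofFn w).prod := by
  have h : ∀ s : Equiv.Perm (Fin n), (List.ofFn fun a => W.map (𝟙 Y) (w (s a))).prod =
      ((Equiv.Perm.sign s : ℤ) : W.K) • (List.ofFn w).prod := by
    intro s
    have h1 := hSGN W.K (W.H Y) (W.gr Y 1) (fun a ha b hb => by
      have h1 := W.comm ha hb
      rw [h1]
      simp) (Fin n) (List.finRange n) (List.nodup_finRange n) (List.mem_finRange) w hw s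
    rw [← List.ofFn_eq_map, ← List.ofFn_eq_map] at h1
    rw [← h1]
    congr 2
    funext a
    exact W.map_id _ _
  simp only [h, smul_smul]
  have h2 : ∀ s : Equiv.Perm (Fin n), ((Equiv.Perm.sign s : ℤ) : W.K) *
      ((Equiv.Perm.sign s : ℤ) : W.K) = 1 := by
    intro s
    rcases Int.units_eq_one_or (Equiv.Perm.sign s) with h | h <;> simp [h]
  simp only [h2, one_smul]
  rw [Finset.sum_const, Finset.card_univ, Fintype.card_perm, Fintype.card_fin,
    ← Nat.cast_smul_eq_nsmul W.K]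

/-- The classes of the blocks. -/
theorem exists_blk (hSGN : S_SGN.{v, v}) {S S' : Set (GVar W Γ)} {r : ℕ}
    {V : ∀ X : GVar W Γ, Fin r → Submodule W.K (W.H X.X)} {X : GVar W Γ} (i : Fin r)
    (e n : ℕ) (hn : n ≠ 0) (h : X ∈ S ∨ X ∈ S' ∧ V X i ≤ W.gr X.X 1) :
    ∃ (Z : 𝒱.Obj) (p : Fin n → (Z ⟶ X.X)), ∀ w : Fin n → W.H X.X, LinearIndependent W.K w →
      Submodule.span W.K (Set.range w) = V X i ⊓ hpar W X.X e →
      DetClass2 S S' V Z (∑ s : Equiv.Perm (Fin n), ((Equiv.Perm.sign s : ℤ) : W.K) •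
        (List.ofFn fun a => W.map (p a) (w (s a))).prod) := by
  rcases h with h | ⟨h, hV⟩
  · obtain _ | n := n
    · exact absurd rfl hn
    · exact ⟨pw X.X n, pwπ X.X n, fun w hw hs => DetClass2.alt X h i e n w hw hs⟩
  · refine ⟨X.X, fun _ => 𝟙 _, fun w hw hs => ?_⟩
    have hw1 : ∀ a, w a ∈ V X i ⊓ hpar W X.X e := fun a => by
      rw [← hs]
      exact Submodule.subset_span ⟨a, rfl⟩
    rw [sum_sgn_odd hSGN n w fun a => hV (hw1 a).1]
    refine DetClass2.smul _ (Nat.cast_ne_zero.2 (Nat.factorial_ne_zero n))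
      (DetClass2.abel X h i n (Nat.pos_of_ne_zero hn) w hw ?_)
    rw [hs]
    rcases Nat.mod_two_eq_zero_or_one e with he | he
    · exfalso
      have h1 := hw1 ⟨0, Nat.pos_of_ne_zero hn⟩
      have h2 : w ⟨0, Nat.pos_of_ne_zero hn⟩ ∈ W.gr X.X 1 ⊓ hpar W X.X 0 := by
        refine ⟨hV h1.1, ?_⟩
        rw [hpar_congr (f := e) (by rw [he])]
        exact h1.2
      rw [gr_hpar_disj, Submodule.mem_bot] at h2
      exact hw.ne_zero _ h2
    · rw [hpar_congr (e := e) (f := 1) (by rw [he])]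
      exact inf_eq_left.2 fun x hx => gr_hpar_one.ge (hV hx) |>.2

end Pool.Agent.Y104.WL
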