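import Pool.Agent.Y104.WL.Gn3

/-!
# Determinant classes which are numerically trivial: the general case
-/

open CategoryTheory AlgebraicGeometry Module
open scoped Matrix

set_option linter.unusedSectionVars false

universe u v w

namespace Pool.Agent.Y104.WL

open Pool.Agent.H914 Pool.Agent.H914.VarClass Pool.Agent.H914.VarClass.Obj
  Pool.Agent.H914.WeilCohomology Pool.Agent.H281R3.HT Pool.Agent.TH125.Gal
  Pool.Agent.Y104.Kempf Pool.Agent.Y104.Geo

variable {k : Type u} [Field k] {𝒱 : VarClass k} {ops : CycleOps 𝒱}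
  {W : WeilCohomology.{u, v} ops} {Γ : Type w} [Group Γ] {χ : Γ →* W.Kˣ} {G : Set (GVar W Γ)}

/-- The flags given by the flags of the pieces. -/
theorem flag_sup {m : ℕ} {X : Fin m → GVar W Γ} (h : ∀ j, Grd (X j))
    (P : ∀ j : Fin m × Fin 2, Piece W (gext (X j.1) (h j.1)).X)
    {U : ∀ X : GVar W Γ, Submodule W.K (W.H X.X)} {φ : ∀ X : GVar W Γ, W.H X.X →ₗ[W.K] W.K}
    {θ : ∀ j, W.H (X j).X} (hφ : ∀ j a, φ (X j) a = W.tr (X j).X (a * θ j))
    (hθ : ∀ j, θ j ∈ hpar W (X j).X 0) (hPθ : ∀ j, (P j).θ = θ j.1)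
    (hPs : ∀ j, Submodule.span W.K (Set.range (P j).x) = U (X j.1) ⊓ hpar W (X j.1).X j.2)
    {r : ℕ} (F : ∀ j : Fin m × Fin 2, Fin r → Submodule W.K (W.H (X j.1).X))
    (hanti : ∀ j, Antitone (F j))
    (hle : ∀ j i, F j i ≤ Submodule.span W.K (Set.range (P j).x))
    (hact : ∀ j i γ, ∀ v ∈ F j i, (gext (X j.1) (h j.1)).act γ v ∈ F j i)
    (hcorr : ∀ (j : Fin m × Fin 2) (i : Fin r), ∀ d ∈ algSpan W ((X j.1).X.prod (X j.1).X),
      (∀ u ∈ Submodule.span W.K (Set.range (P j).x),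
        W.corr d u ∈ Submodule.span W.K (Set.range (P j).x)) → ∀ v ∈ F j i, W.corr d v ∈ F j i)
    (hiso : ∀ j i, ∀ a ∈ F j i, ∀ b ∈ F j i, W.tr (X j.1).X (a * b * (P j).θ) = 0) :
    (∀ a, IsotropicFlag (φ (X a)) (W.gr (X a).X) (U (X a)) (X a).act (AlgCorr W (X a).X)
      (fun i => F (a, 0) i ⊔ F (a, 1) i)) ∧
    ∀ a i (e : Fin 2), (F (a, 0) i ⊔ F (a, 1) i) ⊓ hpar W (X a).X e = F (a, e) i := by
  have hle' : ∀ j i, F j i ≤ U (X j.1) ⊓ hpar W (X j.1).X j.2 := fun j i =>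
    (hle j i).trans (hPs j).le
  have htw : ∀ j i (t : W.Kˣ), ∀ a ∈ F j i, tw W (X j.1).X t a ∈ F j i := by
    intro j i t a ha
    have h2 := hact j i (1, t) a ha
    change (X j.1).act 1 (tw W (X j.1).X t a) ∈ F j i at h2
    rwa [map_one] at h2
  have hacta : ∀ j i γ, ∀ a ∈ F j i, (X j.1).act γ a ∈ F j i := by
    intro j i γ a ha
    have h3 := hact j i (γ, 1) a ha
    change (X j.1).act γ (tw W (X j.1).X ((1 : W.Kˣ) : W.K) a) ∈ F j i at h3
    rwa [Units.val_one, tw_one] at h3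
  have hc : ∀ (j : Fin m × Fin 2) (i : Fin r), ∀ d ∈ algSpan W ((X j.1).X.prod (X j.1).X),
      (∀ u ∈ U (X j.1), W.corr d u ∈ U (X j.1)) → ∀ v ∈ F j i, W.corr d v ∈ F j i := by
    intro j i d hd hdU v hv
    refine hcorr j i d hd ?_ v hv
    rw [hPs]
    exact fun u hu => ⟨hdU u hu.1, corr_hpar hd hu.2⟩
  let V : ∀ a : Fin m, Fin r → Submodule W.K (W.H (X a).X) := fun a i => F (a, 0) i ⊔ F (a, 1) i
  have hVdef : ∀ a i, V a i = F (a, 0) i ⊔ F (a, 1) i := fun _ _ => rfl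
  have hVtw : ∀ a i (t : W.Kˣ), ∀ x ∈ V a i, tw W (X a).X t x ∈ V a i := by
    intro a i t x hx
    obtain ⟨y, hy, z, hz, rfl⟩ := Submodule.mem_sup.1 hx
    rw [map_add]
    exact Submodule.add_mem_sup (htw (a, 0) i t y hy) (htw (a, 1) i t z hz)
  have hVact : ∀ a i γ, ∀ x ∈ V a i, (X a).act γ x ∈ V a i := by
    intro a i γ x hx
    obtain ⟨y, hy, z, hz, rfl⟩ := Submodule.mem_sup.1 hx
    rw [map_add]
    exact Submodule.add_mem_sup (hacta (a, 0) i γ y hy) (hacta (a, 1) i γ z hz)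
  have hVgr : ∀ a i, GradedSub (W.gr (X a).X) (V a i) := fun a i => gradedSub_of_tw (hVtw a i)
  have hpar_disj : ∀ (a : Fin m) (x : W.H (X a).X), x ∈ hpar W (X a).X 0 →
      x ∈ hpar W (X a).X 1 → x = 0 := by
    intro a x hx0 hx1
    have h0 := par_hpar hx0
    have h1 := par_hpar hx1
    rw [h0] at h1
    have h2 : (2 : W.K) • x = 0 := by
      have h3 : x = -x := by simpa using h1
      rw [two_smul]
      nth_rw 1 [h3]
      exact neg_add_cancel x
    exact (smul_eq_zero.1 h2).resolve_left two_ne_zero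
  refine ⟨fun a => ⟨fun i i' hii => sup_le_sup (hanti (a, 0) hii) (hanti (a, 1) hii), fun i => ?_,
      fun i => hVgr a i, fun i γ => hVact a i γ, fun i => ?_, fun i x hx y hy => ?_⟩,
      fun a i e => ?_⟩
  · exact sup_le ((hle' (a, 0) i).trans inf_le_left) ((hle' (a, 1) i).trans inf_le_left)
  · rintro _ ⟨d, hd, rfl⟩ hdU x hx
    obtain ⟨y, hy, z, hz, rfl⟩ := Submodule.mem_sup.1 hx
    change W.corr d (y + z) ∈ V a i
    rw [map_add]
    exact Submodule.add_mem_sup (hc (a, 0) i d hd hdU y hy) (hc (a, 1) i d hd hdU z hz)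
  · obtain ⟨x0, hx0, x1, hx1, rfl⟩ := Submodule.mem_sup.1 hx
    obtain ⟨y0, hy0, y1, hy1, rfl⟩ := Submodule.mem_sup.1 hy
    have h00 := hiso (a, 0) i x0 hx0 y0 hy0
    have h11 := hiso (a, 1) i x1 hx1 y1 hy1
    rw [hPθ] at h00 h11
    have hpy : ∀ e (y : W.H (X a).X), y ∈ hpar W (X a).X e →
        y * θ a ∈ hpar W (X a).X e := by
      intro e y hy
      have h1 := hpar_mul hy (hθ a)
      rwa [add_zero] at h1
    have h01 := tr_par_zero (e := 0) (i := 1) (hle' (a, 0) i hx0).2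
      (hpy 1 y1 (hle' (a, 1) i hy1).2) (by decide)
    have h10 := tr_par_zero (e := 1) (i := 0) (hle' (a, 1) i hx1).2
      (hpy 0 y0 (hle' (a, 0) i hy0).2) (by decide)
    rw [← mul_assoc] at h01 h10
    rw [hφ, add_mul, mul_add, mul_add, add_mul, add_mul, add_mul, map_add, map_add, map_add,
      h01, h10]
    change W.tr (X a).X (x0 * y0 * θ a) + 0 + (0 + W.tr (X a).X (x1 * y1 * θ a)) = 0
    rw [show W.tr (X a).X (x0 * y0 * θ a) = 0 from h00,
      show W.tr (X a).X (x1 * y1 * θ a) = 0 from h11]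
    simp
  · apply le_antisymm
    · rintro x ⟨hx, hxe⟩
      obtain ⟨x0, hx0, x1, hx1, rfl⟩ := Submodule.mem_sup.1 hx
      have h0 := (hle' (a, 0) i hx0).2
      have h1 := (hle' (a, 1) i hx1).2
      change x0 ∈ hpar W (X a).X 0 at h0
      change x1 ∈ hpar W (X a).X 1 at h1
      fin_cases e
      · change x0 + x1 ∈ hpar W (X a).X 0 at hxe
        have h2 := Submodule.sub_mem _ hxe h0
        rw [add_sub_cancel_left] at h2
        rw [hpar_disj a x1 h2 h1, add_zero]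
        exact hx0
      · change x0 + x1 ∈ hpar W (X a).X 1 at hxe
        have h2 := Submodule.sub_mem _ hxe h1
        rw [add_sub_cancel_right] at h2
        rw [hpar_disj a x0 h0 h2, zero_add]
        exact hx1
    · refine le_inf ?_ fun x hx => (hle' (a, e) i hx).2
      fin_cases e
      · exact le_sup_left
      · exact le_sup_right

/-- **If the conjecture D does not hold, then a determinant class is numerically trivial.** -/
theorem exists_det2 (hOPT : S_OPT.{v}) (hBA : S_BAEV.{v}) (hDET : S_DET.{v}) (hSWP : S_SWP.{v})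
    (hCHG : S_CHG.{v}) (hINV : S_INV.{v}) (hCMB : S_CMB) (hRAT : S_RAT.{v}) (hHM : S_HM.{v})
    (hSGN : S_SGN.{v, v}) (hNULL : S_NULL.{u, v}) (hCTP : S_CTP.{u, v}) (hDOR : S_DOR.{u, v})
    (hG : GaloisClass χ G) {S S' : Set (GVar W Γ)} (hSG : S ∪ S' ⊆ G)
    (hSS : ∀ X ∈ S, X ∉ S') {ξ : ∀ A : GVar W Γ, W.H A.X}
    (hS : ∀ X ∈ S, HomEqNum W X.X ∧ SignIsAlgebraic W X.X ∧
      SemisimpleIn (transcendental W X.X) X.act (CorrOps W X.X))
    (hS' : ∀ A ∈ S', IsAbelian χ A (ξ A) ∧ SemisimpleIn (W.gr A.X 1) A.act (CorrOps W A.X))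
    {Y : 𝒱.Obj} (hY : IsProductOf (GVar.X '' (S ∪ S')) Y) (hn : ¬HomEqNum W Y) :
    ∃ (r : ℕ) (V : ∀ X : GVar W Γ, Fin r → Submodule W.K (W.H X.X)),
      (∀ X ∈ S, IsotropicFlag (W.tr X.X) (W.gr X.X) (transcendental W X.X) X.act
        (CorrOps W X.X) (V X)) ∧
      (∀ A ∈ S', IsotropicFlag (twistBy (W.tr A.X) (ξ A) (A.X.dim - 1)) (W.gr A.X)
        (W.gr A.X 1) A.act (CorrOps W A.X) (V A)) ∧
      ∃ (Z : 𝒱.Obj) (δ : W.H Z), DetClass2 S S' V Z δ ∧ NumTrivial W Z δ := by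
  classical
  obtain ⟨m, X, hinj, hXS, hXY⟩ := exists_fin_gvar hY
  have h : ∀ j, Grd (X j) := fun j => (hG.galois _ (hSG (hXS j))).gr_mem
  let U : ∀ X : GVar W Γ, Submodule W.K (W.H X.X) := fun X =>
    pick (X ∈ S') (W.gr X.X 1) (transcendental W X.X)
  let φ : ∀ X : GVar W Γ, W.H X.X →ₗ[W.K] W.K := fun X =>
    pick (X ∈ S') (twistBy (W.tr X.X) (ξ X) (X.X.dim - 1)) (W.tr X.X)
  have hsrc : ∀ j, ∃ θ, Src χ (X j) (h j) (U (X j)) (φ (X j)) θ := by
    intro j
    by_cases hj : X j ∈ S'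
    · have hU : U (X j) = W.gr (X j).X 1 := if_pos hj
      have hφ : φ (X j) = twistBy (W.tr (X j).X) (ξ (X j)) ((X j).X.dim - 1) := if_pos hj
      rw [hU, hφ]
      exact ⟨_, src_H hG (hSG (hXS j)) (h j) (hS' _ hj).1 (hS' _ hj).2⟩
    · have hU : U (X j) = transcendental W (X j).X := if_neg hj
      have hφ : φ (X j) = W.tr (X j).X := if_neg hj
      have h1 := hS _ ((hXS j).resolve_right hj)
      rw [hU, hφ]
      exact ⟨_, src_T hG (hSG (hXS j)) (h j) h1.1 h1.2.1 h1.2.2⟩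
  choose θ hθ using hsrc
  choose P hP hPθ hPs using fun j : Fin m × Fin 2 => (hθ j.1).good j.2
  have hGX : ∀ j : Fin m × Fin 2, gext (X j.1) (h j.1) ∈ GExt G :=
    fun j => ⟨_, hSG (hXS j.1), h j.1, rfl⟩
  have hbase : ∀ Z, IsProductOf (Set.range fun j => (X j).X) Z →
      ccl (X := fun j : Fin m × Fin 2 => gext (X j.1) (h j.1)) P Z = ⊤ := by
    intro Z hZ
    induction hZ with
    | base hZ =>
      obtain ⟨j, rfl⟩ := hZ
      refine (hθ j).gen _ (fun a ha b hb => ccl_mul ha hb) (fun a ha => ccl_alg ha) fun e => ?_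
      rw [← hPs (j, e), Submodule.span_le]
      rintro _ ⟨q, rfl⟩
      have h2 := ccl_slot (X := fun j : Fin m × Fin 2 => gext (X j.1) (h j.1)) (P := P)
        (Y := (X j).X) ⟨(j, e), 𝟙 _, q⟩
      rwa [SlotC.val, W.map_id] at h2
    | prod _ _ ih ih' => exact ccl_prod ih ih'
  -- a tensor
  obtain ⟨ζ, hζ, hζ0⟩ : ∃ ζ ∈ rad W Y, ζ ≠ 0 := by
    by_contra hcon
    push Not at hcon
    exact hn (homEqNum_of_rad (by
      rw [eq_bot_iff]
      exact fun z hz => hcon z hz))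
  obtain ⟨c₀, hc₀⟩ : ∃ c, W.tr Y (ζ * c) ≠ 0 := by
    by_contra hcon
    push Not at hcon
    exact hζ0 (W.nondeg ζ hcon)
  obtain ⟨n, c, z, hz, hz0⟩ := exists_CSet
    (X := fun j : Fin m × Fin 2 => gext (X j.1) (h j.1)) (P := P) hζ
    ((hbase Y hXY) ▸ Submodule.mem_top) hc₀
  have hn0 : 0 < n := by
    rcases Nat.eq_zero_or_pos n with rfl | h0
    · exact absurd (CSet_zero_slots
        (X := fun j : Fin m × Fin 2 => gext (X j.1) (h j.1)) hz) hz0
    · exact h0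
  have hgm : ∀ γ : Γ × W.Kˣ, ∃ g : ∀ j, Matrix (P j).J (P j).J W.K,
      ∀ j q, (gext (X j.1) (h j.1)).act γ ((P j).x q) = ∑ p, g j p q • (P j).x p := by
    intro γ
    choose g hg using fun j => (hP j).exists_gmat γ
    exact ⟨g, hg⟩
  have hunit : ∀ g ∈ GMat (X := fun j : Fin m × Fin 2 => gext (X j.1) (h j.1)) P
      (Set.univ : Set (Γ × W.Kˣ)), ∀ j, IsUnit (g j) := by
    rintro g ⟨γ, -, hγ⟩ j
    obtain ⟨g', hg'⟩ := hgm γ⁻¹
    exact IsUnit.of_mul_eq_one _ (gmat_inv (X := gext (X j.1) (h j.1)) (hγ j) (hg' j))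
  have hGQ : ∀ g ∈ GMat (X := fun j : Fin m × Fin 2 => gext (X j.1) (h j.1)) P
      (Set.univ : Set (Γ × W.Kˣ)), ∀ j,
      ∃ a : W.K, a ≠ 0 ∧ (g j)ᵀ * (P j).Q * g j = a • (P j).Q := by
    rintro g ⟨γ, -, hγ⟩ j
    obtain ⟨a, ha, h1⟩ := (hP j).semi γ
    exact ⟨_, mul_ne_zero (inv_ne_zero ha) (pow_ne_zero _ (Units.ne_zero _)),
      gmat_form' (X := gext (X j.1) (h j.1)) ((galoisClass_gext hG).galois _ (hGX j)) ha h1
        (hγ j)⟩
  have hlc : ∀ j (a : (P j).J → W.K), Fintype.linearCombination W.K (P j).x a =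
      ∑ p, a p • (P j).x p := fun j a => Fintype.linearCombination_apply _ _ _
  have hlinj : ∀ j, Function.Injective (Fintype.linearCombination W.K (P j).x) := by
    intro j a b hab
    rw [hlc, hlc] at hab
    exact (P j).sum_inj hab
  obtain ⟨r, F, hanti, hFG, hFE, hFiso, f, R, _, _, _, col, lev, hrk, A, _, _, _, zz, hzz,
    ρ, E', hE'⟩ := core6 hOPT hBA hDET hSWP hCHG hINV hCMB hRAT hHM (c := c)
      (Q := fun j => (P j).Q) (ε := fun j => (P j).ε) (fun j => (P j).ε_sq)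
      (fun j => (P j).Q_symm) (fun j => (P j).isUnit)
      (N := CSet (X := fun j : Fin m × Fin 2 => (gext (X j.1) (h j.1)).X) P c) (CSet_color P c)
      (fun m z hz => CSet_null P c m z hz)
      (G := GMat (X := fun j : Fin m × Fin 2 => gext (X j.1) (h j.1)) P
        (Set.univ : Set (Γ × W.Kˣ))) hunit hGQ
      (fun g hg y hy => CSet_act (X := fun j : Fin m × Fin 2 => gext (X j.1) (h j.1)) P c
        (galoisClass_gext hG) hGX ⟨0, hn0⟩ hg hy) (fun j => (P j).Ealg)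
      (fun j e he => (P j).adj_mem he)
      (fun e he y hy => CSet_corr P c e (fun s => he s (c s)) hy) (fun j => (hP j).nd) hz hz0
  -- the flags
  let F' : ∀ j : Fin m × Fin 2, Fin r → Submodule W.K (W.H (X j.1).X) := fun j i =>
    (F j i).map (Fintype.linearCombination W.K (P j).x)
  obtain ⟨hV1, hV2⟩ := flag_sup h P (fun j => (hθ j).form) (fun j => (hθ j).even) hPθ hPs F'
    (fun j i i' hii => Submodule.map_mono (hanti j hii))
    (by
      rintro j i _ ⟨a, _, rfl⟩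
      rw [hlc]
      exact sum_mem_span a)
    (by
      rintro j i γ _ ⟨a, ha, rfl⟩
      obtain ⟨g, hg⟩ := hgm γ
      refine ⟨g j *ᵥ a, hFG j i g ⟨γ, Set.mem_univ _, hg⟩ a ha, ?_⟩
      rw [hlc, hlc]
      exact (lin_sum (X := gext (X j.1) (h j.1))
        (φ := ((gext (X j.1) (h j.1)).act γ).toLinearMap) (hg j) a).symm)
    (by
      rintro j i d hd hds _ ⟨a, ha, rfl⟩
      choose m' hm' using fun q => exists_coef (X := gext (X j.1) (h j.1)) (P := P j) (hds _
        (Submodule.subset_span ⟨q, rfl⟩))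
      refine ⟨(fun p q => m' q p : Matrix (P j).J (P j).J W.K) *ᵥ a,
        hFE j i _ ⟨d, hd, hm'⟩ a ha, ?_⟩
      rw [hlc, hlc]
      exact (lin_sum (X := gext (X j.1) (h j.1)) (φ := W.corr d) hm' a).symm)
    (by
      rintro j i _ ⟨a, ha, rfl⟩ _ ⟨b, hb, rfl⟩
      rw [hlc, hlc, Finset.sum_mul, Finset.sum_mul, map_sum]
      rw [← hFiso j i a ha b hb]
      refine Finset.sum_congr rfl fun p _ => ?_
      rw [smul_mul_assoc, smul_mul_assoc, map_smul, (P j).pair_sum, smul_eq_mul])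
  let V' : ∀ j : Fin m, Fin r → Submodule W.K (W.H (X j).X) := fun j i =>
    F' (j, 0) i ⊔ F' (j, 1) i
  have hflg : ∀ j, flg V' (X j) = V' j := fun j => funext (flg_eq hinj V' j)
  refine ⟨r, flg V', fun A hA => ?_, fun A hA => ?_, ?_⟩
  · by_cases hAX : ∃ j, X j = A
    · obtain ⟨j, rfl⟩ := hAX
      rw [hflg]
      have h1 := hV1 j
      rw [show φ (X j) = W.tr (X j).X from if_neg (hSS _ hA),
        show U (X j) = transcendental W (X j).X from if_neg (hSS _ hA)] at h1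
      exact h1
    · exact isotropicFlag_bot _ _ _ _ _ fun i => flg_ne V' hAX i
  · by_cases hAX : ∃ j, X j = A
    · obtain ⟨j, rfl⟩ := hAX
      rw [hflg]
      have h1 := hV1 j
      rw [show φ (X j) = twistBy (W.tr (X j).X) (ξ (X j)) ((X j).X.dim - 1) from if_pos hA,
        show U (X j) = W.gr (X j).X 1 from if_pos hA] at h1
      exact h1
    · exact isotropicFlag_bot _ _ _ _ _ fun i => flg_ne V' hAX i
  -- the product
  have hblk : ∀ x : R, ∃ (Z : 𝒱.Obj) (p : Fin (finrank W.K (F (col x) (lev x))) →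
      (Z ⟶ (X (col x).1).X)), ∀ w : Fin (finrank W.K (F (col x) (lev x))) →
        W.H (X (col x).1).X, LinearIndependent W.K w → Submodule.span W.K (Set.range w) =
          flg V' (X (col x).1) (lev x) ⊓ hpar W (X (col x).1).X (col x).2 →
        DetClass2 S S' (flg V') Z (∑ s : Equiv.Perm (Fin (finrank W.K (F (col x) (lev x)))),
          ((Equiv.Perm.sign s : ℤ) : W.K) •
            (List.ofFn fun a => W.map (p a) (w (s a))).prod) := by
    intro x
    refine exists_blk hSGN (lev x) ((col x).2 : ℕ) _ (hrk x) ?_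
    by_cases hx : X (col x).1 ∈ S'
    · refine Or.inr ⟨hx, ?_⟩
      rw [hflg]
      have h1 := (hV1 (col x).1).le (lev x)
      rw [show U (X (col x).1) = W.gr (X (col x).1).X 1 from if_pos hx] at h1
      exact h1
    · exact Or.inl ((hXS _).resolve_right hx)
  choose Zx p hp using hblk
  obtain ⟨Z, π, lB, hlB, hmB, hD⟩ := exists_ext' W Zx
  let q : ∀ y : Sl (fun x : R => finrank W.K (F (col x) (lev x))), Z ⟶ (X (col y.1).1).X :=
    fun y => π y.1 ≫ p y.1 y.2
  let lT : List (Sl (fun x : R => finrank W.K (F (col x) (lev x)))) :=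
    lB.flatMap fun x => List.ofFn fun a =>
      (⟨x, a⟩ : Sl (fun x : R => finrank W.K (F (col x) (lev x))))
  have hlT : lT.Nodup := by
    rw [List.nodup_flatMap]
    refine ⟨fun x _ => List.nodup_ofFn.2 fun a a' haa => eq_of_heq (Sigma.mk.inj haa).2, ?_⟩
    refine hlB.pairwise_of_forall_ne fun x _ x' _ hxx => ?_
    rw [Function.onFun, List.disjoint_left]
    intro y hy hy'
    obtain ⟨a, rfl⟩ := List.mem_ofFn.1 hy
    obtain ⟨a', ha'⟩ := List.mem_ofFn.1 hy'
    exact hxx (Sigma.mk.inj ha').1.symm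
  have hmT : ∀ y, y ∈ lT := fun y =>
    List.mem_flatMap.2 ⟨y.1, hmB _, List.mem_ofFn.2 ⟨y.2, rfl⟩⟩
  let vec : ∀ y : Sl (fun x : R => finrank W.K (F (col x) (lev x))), W.H (X (col y.1).1).X :=
    fun y => ∑ p, (f (col y.1) (lev y.1) y.2 : (P (col y.1)).J → W.K) p • (P (col y.1)).x p
  let δ : W.H Z := (lB.map fun x => W.map (π x) (∑ s : Equiv.Perm
    (Fin (finrank W.K (F (col x) (lev x)))), ((Equiv.Perm.sign s : ℤ) : W.K) •
      (List.ofFn fun a => W.map (p x a) (vec ⟨x, s a⟩)).prod)).prod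
  have hδ : DetClass2 S S' (flg V') Z δ := by
    refine hD (fun Z z => DetClass2 S S' (flg V') Z z)
      (fun _ _ _ _ h h' => DetClass2.prod h h') _ fun x => ?_
    have hvec : (fun a => vec ⟨x, a⟩) = (Fintype.linearCombination W.K (P (col x)).x) ∘
        ((F (col x) (lev x)).subtype ∘ f (col x) (lev x)) := funext fun a => (hlc _ _).symm
    refine hp x (fun a => vec ⟨x, a⟩) ?_ ?_
    · rw [hvec]
      exact ((f (col x) (lev x)).linearIndependent.map'
        (F (col x) (lev x)).subtype (Submodule.ker_subtype _)).map' _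
          (LinearMap.ker_eq_bot.2 (hlinj _))
    · rw [hflg, hV2, hvec, Set.range_comp, ← Submodule.map_span, Set.range_comp,
        ← Submodule.map_span, (f (col x) (lev x)).span_eq, Submodule.map_top,
        Submodule.range_subtype]
  have hδ' : δ = ∑ σ : ∀ x, Equiv.Perm (Fin (finrank W.K (F (col x) (lev x)))),
      ((sg σ : ℤ) : W.K) • (lT.map fun y => W.map (q y) (vec ⟨y.1, σ y.1 y.2⟩)).prod :=
    (asy_fact (fun x => (col x)) (X := fun j : Fin m × Fin 2 => (X j.1).X) Zx π p hlB hmB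
      vec).symm
  refine ⟨Z, δ, hδ, ?_⟩
  have key : ∀ u : W.H Z, ((∀ a ∈ algSpan W Z, W.tr Z (a * u) = 0) ∨ u ∈ algSpan W Z) →
      W.tr Z (δ * u) = 0 := by
    intro u hu
    have h1 := hE' (asy (Th P (fun y : Sl (fun x : R => finrank W.K (F (col x) (lev x))) =>
      col y.1) q lT u)) (fun I hI y => asy_color P col q u hmT I hI y)
      (asy_alt hSWP _) (ctr_asy P col q u hNULL hCTP hlT hmT hzz E' hu)
    have h2 := evn_asy P col q u hlT hmT
      (fun y => (f (col y.1) (lev y.1) y.2 : (P (col y.1)).J → W.K))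
    rw [h1] at h2
    rw [hδ']
    exact h2.symm
  refine ⟨hDOR k 𝒱 ops W Z δ fun u hu => key u (Or.inl hu), fun a ha => ?_⟩
  rw [alg_comm ha]
  exact key a (Or.inr ha)

end Pool.Agent.Y104.WL
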