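import Pool.Agent.Y104.WL.Gn4
import Pool.Agent.Y104.WL.Gm3

/-!
# The conjecture D and determinant classes: the general case
-/

open CategoryTheory AlgebraicGeometry Module
open scoped Matrix

set_option linter.unusedSectionVars false

universe u v w

namespace Pool.Agent.Y104.WL

open Pool.Agent.H914 Pool.Agent.H914.VarClass Pool.Agent.H914.VarClass.Obj
  Pool.Agent.H914.WeilCohomology Pool.Agent.H281R3.HT Pool.Agent.TH125.Gal
  Pool.Agent.Y104.Kempf Pool.Agent.Y104.Geo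

variable {k : Type u} [Field k] {𝒱 : VarClass k} {ops : CycleOps 𝒱}
  {W : WeilCohomology.{u, v} ops} {Γ : Type w} [Group Γ] {χ : Γ →* W.Kˣ} {G : Set (GVar W Γ)}

theorem pw_isProductOf {𝒮 : Set 𝒱.Obj} {X : 𝒱.Obj} (hX : X ∈ 𝒮) (n : ℕ) :
    IsProductOf 𝒮 (pw X n) := by
  induction n with
  | zero => exact IsProductOf.base hX
  | succ n ih => exact IsProductOf.prod (IsProductOf.base hX) ih

theorem DetClass2.isProductOf {S S' : Set (GVar W Γ)} {r : ℕ}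
    {V : ∀ A : GVar W Γ, Fin r → Submodule W.K (W.H A.X)} {Y : 𝒱.Obj} {δ : W.H Y}
    (h : DetClass2 S S' V Y δ) : IsProductOf (GVar.X '' (S ∪ S')) Y := by
  induction h with
  | abel A hA i n hn v hv hs => exact IsProductOf.base ⟨A, Or.inr hA, rfl⟩
  | alt X hX i e n v hv hs =>
    exact pw_isProductOf (𝒮 := GVar.X '' (S ∪ S')) ⟨X, Or.inl hX, rfl⟩ n
  | smul c hc _ ih => exact ih
  | prod _ _ ih ih' => exact IsProductOf.prod ih ih'

/-- Determinant classes are not zero. -/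
theorem DetClass2.ne_zero (hALT : S_ALT.{u, v}) {S S' : Set (GVar W Γ)} {r : ℕ}
    {V : ∀ A : GVar W Γ, Fin r → Submodule W.K (W.H A.X)}
    (hadd : ∀ A ∈ S', AddOn (Pullbacks W (A.X.prod A.X) A.X) (W.map (fst A.X A.X))
      (W.map (snd A.X A.X)) (W.gr A.X 1))
    (hV : ∀ A ∈ S', ∀ i, V A i ≤ W.gr A.X 1) {Y : 𝒱.Obj} {δ : W.H Y}
    (h : DetClass2 S S' V Y δ) : δ ≠ 0 := by
  induction h with
  | abel A hA i n hn v hv hs =>
    obtain ⟨_, ⟨m, rfl⟩, hm⟩ := hadd A hA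
    refine Y779.WL.avn W m hm n v (fun a => hV A hA i ?_) hv (Or.inl hn.ne')
    rw [← hs]
    exact Submodule.subset_span ⟨a, rfl⟩
  | alt X hX i e n v hv hs => exact hALT k 𝒱 ops W X.X n v hv
  | smul c hc _ ih => exact smul_ne_zero hc ih
  | prod _ _ ih ih' => exact Y70.WL.ext_ne_zero ih ih'

/-- **The conjecture D for products and determinant classes.** -/
theorem homEqNum_iff_det2 (hOPT : S_OPT.{v}) (hBA : S_BAEV.{v}) (hDET : S_DET.{v})
    (hSWP : S_SWP.{v}) (hCHG : S_CHG.{v}) (hINV : S_INV.{v}) (hCMB : S_CMB) (hRAT : S_RAT.{v})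
    (hHM : S_HM.{v}) (hSGN : S_SGN.{v, v}) (hNULL : S_NULL.{u, v}) (hCTP : S_CTP.{u, v})
    (hDOR : S_DOR.{u, v}) (hALT : S_ALT.{u, v}) (hG : GaloisClass χ G) {S S' : Set (GVar W Γ)}
    (hSG : S ∪ S' ⊆ G) (hSS : ∀ X ∈ S, X ∉ S') {ξ : ∀ A : GVar W Γ, W.H A.X}
    (hS : ∀ X ∈ S, HomEqNum W X.X ∧ SignIsAlgebraic W X.X ∧
      SemisimpleIn (transcendental W X.X) X.act (CorrOps W X.X))
    (hS' : ∀ A ∈ S', IsAbelian χ A (ξ A) ∧ SemisimpleIn (W.gr A.X 1) A.act (CorrOps W A.X)) :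
    (∀ Y, IsProductOf (GVar.X '' (S ∪ S')) Y → ∀ Y', Covers W Y Y' → HomEqNum W Y') ↔
      ∀ (r : ℕ) (V : ∀ A : GVar W Γ, Fin r → Submodule W.K (W.H A.X)),
        (∀ X ∈ S, IsotropicFlag (W.tr X.X) (W.gr X.X) (transcendental W X.X) X.act
          (CorrOps W X.X) (V X)) →
        (∀ A ∈ S', IsotropicFlag (twistBy (W.tr A.X) (ξ A) (A.X.dim - 1)) (W.gr A.X)
          (W.gr A.X 1) A.act (CorrOps W A.X) (V A)) →
        ∀ (Y : 𝒱.Obj) (δ : W.H Y), DetClass2 S S' V Y δ → ¬NumTrivial W Y δ := by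
  constructor
  · rintro h r V - hV' Y δ hδ ⟨h1, h2⟩
    have hY : HomEqNum W Y := h Y hδ.isProductOf Y ⟨𝟙 Y, 1, algSpan_one, W.push_id 1⟩
    refine hδ.ne_zero hALT (fun A hA => (hS' A hA).1.add) (fun A hA => (hV' A hA).le) ?_
    have h3 : δ ∈ rad W Y := mem_rad.2 ⟨h1, fun a ha => by
      rw [← alg_comm ha]
      exact h2 a ha⟩
    rwa [rad_eq_bot hY, Submodule.mem_bot] at h3
  · intro h Y hY Y' hY'
    refine homEqNum_of_covers ?_ hY'
    by_contra hn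
    obtain ⟨r, V, hV, hV', Z, δ, hδ, h1⟩ := exists_det2 hOPT hBA hDET hSWP hCHG hINV hCMB hRAT
      hHM hSGN hNULL hCTP hDOR hG hSG hSS hS hS' hY hn
    exact h r V hV hV' Z δ hδ h1

end Pool.Agent.Y104.WL
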