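import Pool.Agent.Y104.Fin6

/-!
# Determinant lines and the conjecture D: statements of the building blocks
-/

open CategoryTheory AlgebraicGeometry
open Finset Module
open scoped Matrix

set_option linter.unusedSectionVars false

universe u v w

namespace Pool.Agent.Y104.WL

open Pool.Agent.Y104.Kempf

/-- The value of a tensor at a family of vectors. -/
def evn {K : Type*} [Field K] {L : Type*} [Field L] [Algebra K L] {T β : Type} [Fintype T]
    [DecidableEq T] [Fintype β] (z : (T → β) → K) (u : T → β → L) : L :=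
  ∑ I : T → β, (∏ x, u x (I x)) * algebraMap K L (z I)

/-- The tensor is alternating in the slots of each block (the block of the slot `x` is `κ x`). -/
def AltOn {K : Type*} [Field K] {T β B : Type} [Fintype T] [DecidableEq T] (κ : T → B)
    (Ξ : (T → β) → K) : Prop :=
  ∀ σ : Equiv.Perm T, (∀ x, κ (σ x) = κ x) → ∀ I : T → β,
    Ξ (fun x => I (σ x)) = ((Equiv.Perm.sign σ : ℤ) : K) * Ξ I

/-- Values of alternating tensors. -/
def S_BAEV : Prop :=
  ∀ (K : Type u) [Field K] [CharZero K] (L : Type u) [Field L] [Algebra K L] (T β B : Type)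
    [Fintype T] [DecidableEq T] [Fintype β] [DecidableEq β] [DecidableEq B] (κ : T → B)
    (Ξ : (T → β) → K), AltOn κ Ξ → ∀ u u' : T → β → L,
    (∀ x, ∃ a : T → L, (∀ y, κ y ≠ κ x → a y = 0) ∧ ∀ p, u x p = ∑ y, a y * u' y p) →
    ∃ c : L, evn Ξ u = c * evn Ξ u'

/-- Existence of alternating tensors. -/
def S_DET : Prop :=
  ∀ (K : Type u) [Field K] [CharZero K] (T β B : Type) [Fintype T] [DecidableEq T] [Fintype β]
    [DecidableEq β] [DecidableEq B] (κ : T → B) (f θ : T → β → K),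
    (∀ x y, κ x = κ y → ∑ p, θ x p * f y p = if x = y then 1 else 0) →
    ∃ Θ : (T → β) → K, AltOn κ Θ ∧ (∀ I, Θ I ≠ 0 → ∀ x, ∃ y, κ y = κ x ∧ θ y (I x) ≠ 0) ∧
      evn (L := K) Θ f = 1

/-- Alternation from transpositions. -/
def S_SWP : Prop :=
  ∀ (K : Type u) [Field K] (T β B : Type) [Fintype T] [DecidableEq T] (κ : T → B)
    (Ξ : (T → β) → K), (∀ x y, x ≠ y → κ x = κ y → ∀ I : T → β,
      Ξ (fun z => I (Equiv.swap x y z)) = -Ξ I) → AltOn κ Ξ

/-- Contractions in other coordinates. -/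
def S_CHG : Prop :=
  ∀ (L : Type u) [Field L] (S β : Type) [Fintype S] [DecidableEq S] [Fintype β] [DecidableEq β]
    (h g B : Matrix β β L), g * h = 1 → ∀ (Z : (S → β) → L) (r : ℕ) (E : Fin r × Fin 2 ≃ S),
    ∑ I : S → β, Z I * ∏ l, B (I (E (l, 0))) (I (E (l, 1))) =
      ∑ J : S → β, tact h Z J * ∏ l, (gᵀ * B * g) (J (E (l, 0))) (J (E (l, 1)))

/-- The weights of the inverse of a Gram matrix. -/
def S_INV : Prop :=
  ∀ (L : Type u) [Field L] (n : Type) [Fintype n] [DecidableEq n] (G : Matrix n n L) (w : n → ℝ),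
    IsUnit G → ∑ p, w p = 0 → (∀ p q, G p q ≠ 0 → w p + w q ≤ 0) →
    ∀ p q, G⁻¹ p q ≠ 0 → 0 ≤ w p + w q

/-- The largest weights. -/
def S_CMB : Prop :=
  ∀ (a n : Type) [Fintype a] [Fintype n] [DecidableEq n] (w : n → ℝ) (ω : ℝ) (J : a → n),
    Function.Injective J → Fintype.card a = (univ.filter fun p => ω ≤ w p).card →
    ∑ x, w (J x) ≤ ∑ p ∈ univ.filter (fun p => ω ≤ w p), w p ∧
      (∑ x, w (J x) = ∑ p ∈ univ.filter (fun p => ω ≤ w p), w p → ∀ x, ω ≤ w (J x))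

section

variable {ι : Type} [Fintype ι] [DecidableEq ι] {b : ι → Type} [∀ i, Fintype (b i)]
  [∀ i, DecidableEq (b i)] {S : Type} [Fintype S] [DecidableEq S] {c : S → ι}
  {K : Type*} [Field K] {L : Type*} [Field L] [Algebra K L]

/-- The norm `w` is optimal for `N`, with the margin `t`. -/
structure Opt (Q : ∀ j, Matrix (b j) (b j) L) (N : Set ((∀ s, b (c s)) → K))
    (w : ∀ j, (b j → L) → ℝ) (t : ℝ) : Prop where
  pos : 0 < t
  adm : Adm2 Q w
  ge : Ge N t w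
  opt : ∀ (w' : ∀ j, (b j → L) → ℝ) (t' : ℝ), Adm2 Q w' → Ge N t' w' → t' ≤ t

end

/-- The first order condition. -/
def S_OPT : Prop :=
  ∀ (ι : Type) [Fintype ι] [DecidableEq ι] (b : ι → Type) [∀ i, Fintype (b i)]
    [∀ i, DecidableEq (b i)] (S : Type) [Fintype S] [DecidableEq S] (c : S → ι)
    (K : Type u) [Field K] (L : Type u) [Field L] [Algebra K L]
    (Q : ∀ j, Matrix (b j) (b j) L) (N : Set ((∀ s, b (c s)) → K)) (w : ∀ j, (b j → L) → ℝ)
    (t : ℝ), Opt Q N w t → ∀ e : ∀ j, Basis (b j) L (b j → L), (∀ j, Adp (w j) (e j)) →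
    ∀ y : ∀ j, b j → ℝ, (∀ j, ∑ p, y j p = 0) →
    (∀ j p q, Rl Q e j p q → w j (e j p) + w j (e j q) = 0 → y j p + y j q ≤ 0) → ∀ τ : ℝ,
    (∀ z ∈ N, ∀ J : ∀ s, b (c s), ev z (fun s => e (c s) (J s)) ≠ 0 →
      ∑ s, w (c s) (e (c s) (J s)) = -t → ∑ s, y (c s) (J s) ≤ -τ) →
    τ ≤ t * ∑ j, ∑ p, w j (e j p) * y j p

/-- The optimal norm is rational. -/
def S_RAT : Prop :=
  ∀ (ι : Type) [Fintype ι] [DecidableEq ι] (b : ι → Type) [∀ i, Fintype (b i)]
    [∀ i, DecidableEq (b i)] (S : Type) [Fintype S] [DecidableEq S] (c : S → ι)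
    (K : Type u) [Field K] (L : Type u) [Field L] [Algebra K L]
    (Q : ∀ j, Matrix (b j) (b j) L) (N : Set ((∀ s, b (c s)) → K)) (w : ∀ j, (b j → L) → ℝ)
    (t : ℝ), Opt Q N w t → ∀ e : ∀ j, Basis (b j) L (b j → L), (∀ j, Adp (w j) (e j)) →
    ∑ j, ∑ p, w j (e j p) ^ 2 = 1 ∧ ∀ j p, ∃ q : ℚ, t * w j (e j p) = q

/-- The destabilising norm. -/
def S_HM : Prop :=
  ∀ (ι : Type) [Fintype ι] [DecidableEq ι] (b : ι → Type) [∀ i, Fintype (b i)]
    [∀ i, DecidableEq (b i)] (S : Type) [Fintype S] [DecidableEq S] (c : S → ι)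
    (K : Type u) [Field K] [CharZero K] (Q : ∀ j, Matrix (b j) (b j) K) (ε : ι → K),
    (∀ j, ε j * ε j = 1) → (∀ j, (Q j)ᵀ = ε j • Q j) → (∀ j, IsUnit (Q j)) →
    ∀ N : Set ((S → Σ j, b j) → K), (∀ z ∈ N, ∀ I, z I ≠ 0 → ∀ s, (I s).1 = c s) →
    (∀ (m : ℕ) (z : Fin (m + 1) → (S → Σ j, b j) → K), (∀ i, z i ∈ N) →
      NullT (Matrix.blockDiagonal' fun j => (Q j)⁻¹) (tp z)) →
    (∃ z ∈ N, z ≠ 0) →
    ∃ (w : ∀ j, (b j → AlgebraicClosure K) → ℝ) (t : ℝ), 0 < t ∧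
      Adm2 (fun j => (Q j).map (algebraMap K (AlgebraicClosure K))) w ∧ Ge (rst c '' N) t w

/-- Signs of products of odd elements. -/
def S_SGN : Prop :=
  ∀ (K : Type u) [Field K] [CharZero K] (H : Type v) [Ring H] [Algebra K H] (O : Submodule K H),
    (∀ a ∈ O, ∀ b ∈ O, a * b = -(b * a)) → ∀ (T : Type) [Fintype T] [DecidableEq T]
    (l : List T), l.Nodup → (∀ x, x ∈ l) → ∀ a : T → H, (∀ x, a x ∈ O) →
    ∀ σ : Equiv.Perm T, (l.map fun x => a (σ x)).prod =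
      ((Equiv.Perm.sign σ : ℤ) : K) • (l.map a).prod

section Geometry

open Pool.Agent.H914 Pool.Agent.H914.VarClass Pool.Agent.H914.VarClass.Obj
  Pool.Agent.H914.WeilCohomology Pool.Agent.H281R3.HT Pool.Agent.TH125.Gal
  Pool.Agent.Y104.Geo

/-- Contractions of the tensor given by a linear form which vanishes on the algebraic classes. -/
def S_NULL : Prop :=
  ∀ (k : Type u) [Field k] (𝒱 : VarClass k) (ops : CycleOps 𝒱) (W : WeilCohomology.{u, v} ops)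
    (ι : Type) [Fintype ι] [DecidableEq ι] (X : ι → 𝒱.Obj) (P : ∀ j, Piece W (X j))
    (S : Type) [Fintype S] [DecidableEq S] (c : S → ι) (Y : 𝒱.Obj) (p : ∀ s, Y ⟶ X (c s))
    (τ : W.H Y →ₗ[W.K] W.K), (∀ a ∈ algSpan W Y, τ a = 0) →
    ∀ l : List S, l.Nodup → (∀ s, s ∈ l) →
    NullT (Matrix.blockDiagonal' fun j => ((P j).Q)⁻¹) (fun I : S → Tc P =>
      τ (l.map fun s => W.map (p s) (xc P (c s) (I s))).prod)

/-- Products of the tensors given by numerically trivial classes. -/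
def S_CTP : Prop :=
  ∀ (k : Type u) [Field k] (𝒱 : VarClass k) (ops : CycleOps 𝒱) (W : WeilCohomology.{u, v} ops)
    (ι : Type) [Fintype ι] [DecidableEq ι] (X : ι → 𝒱.Obj) (P : ∀ j, Piece W (X j))
    (n : ℕ) (c : Fin n → ι) (A : Type) [Fintype A] [DecidableEq A] [Nonempty A]
    (y : A → (Fin n → Tc P) → W.K), (∀ a, y a ∈ CSet P c) →
    ∃ (V : 𝒱.Obj) (ζ : W.H V) (_ : ζ ∈ rad W V) (l : List (A × Fin n)) (_ : l.Nodup)
      (_ : ∀ x, x ∈ l) (p : ∀ x : A × Fin n, V ⟶ X (c x.2)), ∀ I : A × Fin n → Tc P,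
        ∏ a, y a (fun s => I (a, s)) =
          W.tr V (ζ * (l.map fun x => W.map (p x) (xc P (c x.2) (I x))).prod)

/-- Products of linearly independent classes of degree one on an abelian variety. -/
def S_AVN : Prop :=
  ∀ (k : Type u) [Field k] (𝒱 : VarClass k) (ops : CycleOps 𝒱) (W : WeilCohomology.{u, v} ops)
    (A : 𝒱.Obj) (m : A.prod A ⟶ A), (∀ x ∈ W.gr A 1, W.map m x =
      W.map (fst A A) x + W.map (snd A A) x) →
    ∀ (r : ℕ) (v : Fin r → W.H A), (∀ a, v a ∈ W.gr A 1) → LinearIndependent W.K v →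
      (List.ofFn v).prod ≠ 0

/-- Products of pull-backs of classes which are not zero. -/
def S_MPN : Prop :=
  ∀ (k : Type u) [Field k] (𝒱 : VarClass k) (ops : CycleOps 𝒱) (W : WeilCohomology.{u, v} ops)
    (𝒮 : Set 𝒱.Obj) (m : ℕ) (Y : Fin (m + 1) → 𝒱.Obj), (∀ i, Y i ∈ 𝒮) →
    ∃ (P : 𝒱.Obj) (_ : IsProductOf 𝒮 P) (π : ∀ i, P ⟶ Y i), ∀ y : ∀ i, W.H (Y i),
      (∀ i, y i ≠ 0) → (List.ofFn fun i => W.map (π i) (y i)).prod ≠ 0

/-- Double orthogonality. -/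
def S_DOR : Prop :=
  ∀ (k : Type u) [Field k] (𝒱 : VarClass k) (ops : CycleOps 𝒱) (W : WeilCohomology.{u, v} ops)
    (Y : 𝒱.Obj) (δ : W.H Y), (∀ u, (∀ a ∈ algSpan W Y, W.tr Y (a * u) = 0) →
      W.tr Y (δ * u) = 0) → δ ∈ algSpan W Y

end Geometry

end Pool.Agent.Y104.WL
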